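import Pool.Agent.Lib.MP_5591bc_ag.C.Set
import Pool.Agent.Lib.MP_5591bc_ag.V.Bridge
import Pool.Agent.Lib.MP_5591bc_ag.W.CovC
import Pool.Agent.Lib.MP_5591bc_ag.W.Ser

/-! Functions and series. -/

namespace Pool.Agent.Lib.MP_5591bc_ag.C

open Matrix Finset Filter Topology PowerSeries G R H Function

noncomputable section

section
variable {F κ : Type*} [Field F]

theorem brg_mem (Ψ : κ → F⟦X⟧) (a : κ) : Ψ a ∈ SR Ψ := Algebra.subset_adjoin (.inr ⟨a, rfl⟩)

theorem brg_tk (x : F) (Ψ : κ → F⟦X⟧) (p : Polynomial F) : tk x p ∈ SR Ψ := by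
  have hC : ∀ a : F, (C a : F⟦X⟧) ∈ SR Ψ := fun a => (SR Ψ).algebraMap_mem a
  have hX : tk x Polynomial.X ∈ SR Ψ := by
    have h0 : X ∈ SR Ψ := Algebra.subset_adjoin (.inl rfl)
    simpa [tk_apply] using add_mem h0 (hC x)
  induction p using Polynomial.induction_on with
  | C a => simpa [tk_apply] using hC a
  | add p q hp hq => exact map_add (tk x) p q ▸ add_mem hp hq
  | monomial n a h =>
    rw [pow_succ, ← mul_assoc, map_mul]
    exact mul_mem h hX

theorem mem_SR (x : F) {Ψ : κ → F⟦X⟧} {p : F⟦X⟧} : p ∈ SR Ψ ↔ ∃ q, evS x Ψ q = p := by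
  constructor
  · intro h
    change p ∈ (evS x Ψ).range
    induction h using Algebra.adjoin_induction with
    | mem p hp =>
      rcases hp with rfl | ⟨a, rfl⟩
      · exact ⟨MvPolynomial.C (Polynomial.X - Polynomial.C x), by simp [evS, tk_apply]⟩
      · exact ⟨MvPolynomial.X a, by simp [evS]⟩
    | algebraMap c => exact ⟨MvPolynomial.C (Polynomial.C c), by simp [evS, tk_apply]⟩
    | add p q _ _ hp hq => exact add_mem hp hq
    | mul p q _ _ hp hq => exact mul_mem hp hq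
  · rintro ⟨q, rfl⟩
    induction q using MvPolynomial.induction_on with
    | C p => simpa [evS] using brg_tk x Ψ p
    | add p q hp hq => exact map_add (evS x Ψ) p q ▸ add_mem hp hq
    | mul_X p a hp =>
      rw [map_mul]
      exact mul_mem hp (by simpa [evS] using brg_mem Ψ a)

theorem tk_mem_SR (x : F) (Ψ : κ → F⟦X⟧) (p : Polynomial F) : tk x p ∈ SR Ψ := by
  exact brg_tk x Ψ p

theorem evS_const (x : F) (Ψ : κ → F⟦X⟧) (q : MvPolynomial κ (Polynomial F)) :
    constantCoeff (evS x Ψ q) =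
      MvPolynomial.eval₂ (Polynomial.evalRingHom x) (fun a => constantCoeff (Ψ a)) q := by
  rw [evS, MvPolynomial.map_eval₂Hom, MvPolynomial.coe_eval₂Hom]
  congr 1
  exact RingHom.ext fun p => W.serA_tk0 x p

theorem DS_SR [Fintype κ] {x : F} {T : Polynomial F} {B : Matrix κ κ (Polynomial F)}
    {Ψ : κ → F⟦X⟧} (h : IsS (tk x) T B Ψ) : DS (tk x T) (SR Ψ) := by
  intro p hp
  induction hp using Algebra.adjoin_induction with
  | mem p hp =>
    rcases hp with rfl | ⟨a, rfl⟩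
    · simpa using brg_tk x Ψ T
    · rw [h a]
      exact sum_mem fun b _ => mul_mem (brg_tk x Ψ _) (brg_mem Ψ b)
  | algebraMap c => simp
  | add p q _ _ hp hq =>
    rw [map_add, mul_add]
    exact add_mem hp hq
  | mul p q ap aq hp hq =>
    rw [Derivation.leibniz, smul_eq_mul, smul_eq_mul, mul_add, mul_left_comm, mul_left_comm _ q]
    exact add_mem (mul_mem ap hq) (mul_mem aq hp)

variable [Algebra F ℂ] {u : ℂ → κ → ℂ}

theorem brg_C (p : Polynomial F) : vl u (MvPolynomial.C p) = fun t => Polynomial.aeval t p := by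
  ext t; simp [vl]

theorem brg_add (p q : MvPolynomial κ (Polynomial F)) :
    vl u (p + q) = fun t => vl u p t + vl u q t := by
  ext t; simp [vl]

theorem brg_X (p : MvPolynomial κ (Polynomial F)) (a : κ) :
    vl u (p * MvPolynomial.X a) = fun t => vl u p t * u t a := by
  ext t; simp [vl]

theorem brg_vl {x : F} (hu : ∀ a, AnalyticAt ℂ (u · a) (algebraMap F ℂ x)) {Ψ : κ → F⟦X⟧}
    (hΨ : ∀ a, tay (u · a) (algebraMap F ℂ x) = W.mpK F (Ψ a)) (q : MvPolynomial κ (Polynomial F)) :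
    AnalyticAt ℂ (vl u q) (algebraMap F ℂ x) ∧
      tay (vl u q) (algebraMap F ℂ x) = W.mpK F (evS x Ψ q) := by
  induction q using MvPolynomial.induction_on with
  | C p =>
    rw [brg_C, W.ser_tay]
    exact ⟨W.ser_pol p _, by simp [evS]⟩
  | add p q hp hq =>
    rw [brg_add, tay_add hp.1 hq.1, hp.2, hq.2, map_add, map_add]
    exact ⟨hp.1.fun_add hq.1, rfl⟩
  | mul_X p a hp =>
    rw [brg_X, tay_mul hp.1 (hu _), hp.2, hΨ, map_mul, map_mul]
    exact ⟨hp.1.fun_mul (hu _), by simp [evS]⟩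

theorem vl_map (q : MvPolynomial κ (Polynomial F)) :
    vl u (MvPolynomial.map (Polynomial.mapRingHom (algebraMap F ℂ)) q) = vl u q := by
  funext t
  rw [vl, vl, MvPolynomial.eval₂_map]
  congr 1
  exact RingHom.ext fun p => Polynomial.aeval_map_algebraMap ℂ t p

theorem vl_diff {U : Set ℂ} (hu : ∀ a, DifferentiableOn ℂ (u · a) U)
    (q : MvPolynomial κ (Polynomial F)) : DifferentiableOn ℂ (vl u q) U := by
  induction q using MvPolynomial.induction_on with
  | C p => exact brg_C (u := u) p ▸ (W.cov_aeval p).differentiableOn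
  | add p q hp hq => exact brg_add (u := u) p q ▸ hp.fun_add hq
  | mul_X p a hp => exact brg_X (u := u) p a ▸ hp.fun_mul (hu a)

theorem tay_vl {x : ℂ} (hu : ∀ a, AnalyticAt ℂ (u · a) x) (q : MvPolynomial κ (Polynomial ℂ)) :
    AnalyticAt ℂ (vl u q) x ∧ tay (vl u q) x = evS x (fun a => tay (u · a) x) q := by
  have e : ∀ g : ℂ⟦X⟧, W.mpK ℂ g = g := fun g => by ext; simp
  exact e (evS x _ q) ▸ brg_vl (F := ℂ) (x := x) hu (fun a => (e _).symm) q

theorem tay_vlK {x : F} (hu : ∀ a, AnalyticAt ℂ (u · a) (algebraMap F ℂ x)) {Ψ : κ → F⟦X⟧}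
    (hΨ : ∀ a, tay (u · a) (algebraMap F ℂ x) = W.mpK F (Ψ a)) (q : MvPolynomial κ (Polynomial F)) :
    tay (vl u q) (algebraMap F ℂ x) = W.mpK F (evS x Ψ q) := by
  exact (brg_vl hu hΨ q).2

end

variable {ν : Type*} {U : Set ℂ} {P Q : ℂ → Matrix ν ν ℂ}

/-- translation of the variable -/
def brg_sh (s : ℂ) : MvPolynomial (ν × ν) (Polynomial ℂ) →+* MvPolynomial (ν × ν) (Polynomial ℂ) :=
  MvPolynomial.map (Polynomial.taylorAlgHom s).toRingHom

theorem brg_shift (Q : ℂ → Matrix ν ν ℂ) (s : ℂ) (q : MvPolynomial (ν × ν) (Polynomial ℂ)) (t : ℂ) :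
    V.val (fun z => Q (z + s)) (brg_sh s q) t = V.val Q q (t + s) := by
  rw [V.val, V.val, brg_sh, MvPolynomial.eval₂_map]
  congr 1
  exact RingHom.ext fun p => Polynomial.taylor_eval s p t

theorem val_eq (q : MvPolynomial (ν × ν) (Polynomial ℂ)) :
    V.val Q q = vl (fun t a => Q t a.1 a.2) q := by
  funext t
  rw [V.val, vl]
  congr 1

theorem ConnT.mono {S : Subalgebra ℂ ℂ⟦X⟧} {𝒜 ℬ : Set ℂ⟦X⟧} (h : ConnT S ℬ) (hs : 𝒜 ⊆ ℬ) :
    ConnT S 𝒜 := by
  exact fun u hu v hv => h u (hs hu) v (hs hv)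

theorem connR_iff (ho : IsOpen U) (hc : IsPreconnected U) (hP : Hol U P) (hQ : Hol U Q) {x : ℂ}
    (hx : x ∈ U) : ConnR U P Q ↔ ConnT (SR fun a : ν × ν => tay (Q · a.1 a.2) x)
      (Set.range (V.evG x (of fun i j => tay (P · i j) x))) := by
  have hn := ho.mem_nhds hx
  have aP : ∀ q, ∀ t ∈ U, AnalyticAt ℂ (V.val P q) t := fun q t ht =>
    (V.brg_val (fun i j => (hP i j).analyticAt (ho.mem_nhds ht)) q).1
  have aQ : ∀ q, ∀ t ∈ U, AnalyticAt ℂ (V.val Q q) t := fun q t ht =>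
    (V.brg_val (fun i j => (hQ i j).analyticAt (ho.mem_nhds ht)) q).1
  have eP := fun q => (V.brg_val (fun i j => (hP i j).analyticAt hn) q).2
  have eQ : ∀ q, tay (V.val Q q) x = evS x (fun a : ν × ν => tay (Q · a.1 a.2) x) q :=
    fun q => (V.brg_val (fun i j => (hQ i j).analyticAt hn) q).2
  generalize V.evG x (of fun i j => tay (P · i j) x) = E at eP ⊢
  generalize (fun a : ν × ν => tay (Q · a.1 a.2) x) = Ψ at eQ ⊢
  have KP : ∀ q, (∃ t ∈ U, V.val P q t ≠ 0) ↔ E q ≠ 0 := fun q => by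
    rw [Ne, ← eP, ← V.brg_zero hc (aP q) hx hn]
    simp
  have KQ : ∀ q, (∃ t ∈ U, V.val Q q t ≠ 0) ↔ evS x Ψ q ≠ 0 := fun q => by
    rw [Ne, ← eQ, ← V.brg_zero hc (aQ q) hx hn]
    simp
  have K1 : ∀ u v, ∀ (n : ℕ) (p : ℕ → MvPolynomial (ν × ν) (Polynomial ℂ)),
      (∀ t ∈ U, ∑ j ∈ range (n + 1),
        V.val Q (p j) t * V.val P u t ^ j * V.val P v t ^ (n - j) = 0) ↔
      ∑ j ∈ range (n + 1), evS x Ψ (p j) * E u ^ j * E v ^ (n - j) = 0 := fun u v n p => by
    have a : ∀ j, ∀ t ∈ U, AnalyticAt ℂ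
        (fun t => V.val Q (p j) t * V.val P u t ^ j * V.val P v t ^ (n - j)) t := fun j t ht =>
      ((aQ _ t ht).fun_mul ((aP u t ht).fun_pow j)).fun_mul ((aP v t ht).fun_pow _)
    rw [V.brg_zero hc (fun t ht => Finset.analyticAt_fun_sum _ fun j _ => a j t ht) hx hn,
      tay_sum _ fun j _ => a j x hx]
    refine Eq.congr_left (sum_congr rfl fun j _ => ?_)
    rw [tay_mul ((aQ _ x hx).fun_mul ((aP u x hx).fun_pow j)) ((aP v x hx).fun_pow _),
      tay_mul (aQ _ x hx) ((aP u x hx).fun_pow j), tay_pow (aP u x hx), tay_pow (aP v x hx), eQ,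
      eP, eP]
  have K2 : ∀ u v a b, (∀ t ∈ U, V.val Q b t * V.val P u t = V.val Q a t * V.val P v t) ↔
      evS x Ψ b * E u = evS x Ψ a * E v := fun u v a b => by
    have a1 := fun t ht => (aQ b t ht).fun_mul (aP u t ht)
    have a2 := fun t ht => (aQ a t ht).fun_mul (aP v t ht)
    have := V.brg_zero hc (fun t ht => (a1 t ht).fun_sub (a2 t ht)) hx hn
    rw [tay_sub (a1 x hx) (a2 x hx), tay_mul (aQ b x hx) (aP u x hx),
      tay_mul (aQ a x hx) (aP v x hx), eQ, eQ, eP, eP] at this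
    simpa only [sub_eq_zero] using this
  constructor
  · rintro h _ ⟨u, rfl⟩ _ ⟨v, rfl⟩ n p hS hv ⟨j, hj, hp⟩ e
    choose q hq using fun j => (mem_SR x).1 (hS j)
    simp only [← hq] at hp e
    obtain ⟨a, b, hb, r⟩ := h u v n q ((KP v).2 hv) ⟨j, hj, (KQ _).2 hp⟩ ((K1 u v n q).2 e)
    exact ⟨_, (mem_SR x).2 ⟨a, rfl⟩, _, (mem_SR x).2 ⟨b, rfl⟩, (KQ b).1 hb, (K2 u v a b).1 r⟩
  · rintro h u v n p hv ⟨j, hj, hp⟩ e
    obtain ⟨a, ha, b, hb, b0, r⟩ := h _ ⟨u, rfl⟩ _ ⟨v, rfl⟩ n (fun j => evS x Ψ (p j))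
      (fun j => (mem_SR x).2 ⟨_, rfl⟩) ((KP v).1 hv) ⟨j, hj, (KQ _).1 hp⟩ ((K1 u v n p).1 e)
    obtain ⟨a, rfl⟩ := (mem_SR x).1 ha
    obtain ⟨b, rfl⟩ := (mem_SR x).1 hb
    exact ⟨a, b, (KQ b).2 b0, (K2 u v a b).2 r⟩

variable [Fintype ν] [DecidableEq ν]

omit [DecidableEq ν] in
theorem brg_hol (hP : Hol U P) (C1 : Matrix ν ν ℂ) : Hol U fun t => P t * C1 := fun i j => by
  simp only [mul_apply]
  exact DifferentiableOn.fun_sum fun k _ => (hP i k).mul_const _

/-- connectedness passes to a continuation -/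
theorem cov_connR {U' : Set ℂ} (ho : IsOpen U) (hc : IsPreconnected U) (ho' : IsOpen U')
    (hc' : IsPreconnected U') {P' : ℂ → Matrix ν ν ℂ} (hP : Hol U P) (hP' : Hol U' P') {p : ℂ}
    (pU : p ∈ U) (pU' : p ∈ U') (e : P' =ᶠ[𝓝 p] P) (C1 : Matrix ν ν ℂ)
    (h : ConnR U P fun t => P t * C1) : ConnR U' P' fun t => P' t * C1 := by
  rw [connR_iff ho hc hP (brg_hol hP C1) pU] at h
  rw [connR_iff ho' hc' hP' (brg_hol hP' C1) pU']
  have e1 : (of fun i j => tay (P' · i j) p) = of fun i j => tay (P · i j) p := by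
    ext1 i j
    exact tay_congr (e.mono fun t ht => by simp only [ht])
  have e2 : (fun a : ν × ν => tay (fun t => (P' t * C1) a.1 a.2) p) =
      fun a : ν × ν => tay (fun t => (P t * C1) a.1 a.2) p :=
    funext fun a => tay_congr (e.mono fun t ht => by simp only [ht])
  rwa [e1, e2]

theorem ConnR.shift {C1 : Matrix ν ν ℂ} (h : ConnR U P fun t => P t * C1) (s : ℂ) :
    ConnR {z | z + s ∈ U} (fun z => P (z + s)) fun z => P (z + s) * C1 := by
  rintro u v n p ⟨t, ht, hv⟩ ⟨j, hj, t', ht', hp⟩ e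
  have K : ∀ (Q : ℂ → Matrix ν ν ℂ) q t, V.val Q (brg_sh (-s) q) t =
      V.val (fun z => Q (z + s)) q (t - s) := fun Q q t => by
    have := brg_shift (fun z => Q (z + s)) (-s) q t
    simpa only [neg_add_cancel_right, ← sub_eq_add_neg, sub_add_cancel] using this
  obtain ⟨a, b, ⟨t0, h0, hb⟩, r⟩ := h (brg_sh (-s) u) (brg_sh (-s) v) n (fun j => brg_sh (-s) (p j))
    ⟨t + s, ht, by rwa [K, add_sub_cancel_right]⟩
    ⟨j, hj, t' + s, ht', by rwa [K, add_sub_cancel_right]⟩ fun z hz => by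
      simp only [K]
      exact e (z - s) (by simpa using hz)
  refine ⟨brg_sh s a, brg_sh s b, ⟨t0 - s, by simpa using h0, ?_⟩, fun z hz => ?_⟩
  · rwa [brg_shift (fun t => P t * C1), sub_add_cancel]
  · have := r (z + s) hz
    rwa [K, K, add_sub_cancel_right, ← brg_shift (fun t => P t * C1),
      ← brg_shift (fun t => P t * C1)] at this

/-- any matrix of series with entries polynomial in `t` and `P` -/
theorem connT_of (ho : IsOpen U) (hc : IsPreconnected U) (hP : Hol U P) {C1 : Matrix ν ν ℂ}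
    (h : ConnR U P fun t => P t * C1) {x : ℂ} (hx : x ∈ U) {A : Type*} {G : Matrix A A ℂ⟦X⟧}
    (hG : ∀ i j, G i j ∈ (V.evG x (of fun i j => tay (P · i j) x)).range) :
    ConnT (SR fun a => tay (uu P C1 · a) x) (AG (SR fun a => tay (uu P C1 · a) x) G) := by
  have a1 : ∀ i j, AnalyticAt ℂ (P · i j) x := fun i j => (hP i j).analyticAt (ho.mem_nhds hx)
  refine ConnT.mono ((connR_iff ho hc hP (brg_hol hP C1) hx).1 h) fun g hg => ?_
  change g ∈ (V.evG x (of fun i j => tay (P · i j) x)).range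
  induction hg using Algebra.adjoin_induction with
  | mem p hp =>
    obtain ⟨a, rfl⟩ := hp
    exact hG _ _
  | algebraMap c =>
    obtain ⟨q, hq⟩ := (mem_SR x).1 c.2
    refine V.range_evG (G' := of fun i j => tay (fun t => (P t * C1) i j) x) (fun i j => ?_) ⟨q, hq⟩
    simp only [of_apply, mul_apply]
    rw [tay_sum _ fun k _ => (a1 i k).fun_mul analyticAt_const]
    refine sum_mem fun k _ => ?_
    rw [tay_mul (a1 i k) analyticAt_const, tay_const]
    exact ⟨MvPolynomial.X (i, k) * MvPolynomial.C (Polynomial.C (C1 k j)), by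
      simp [V.evG, V.τc_C]⟩
  | add p q _ _ hp hq => exact add_mem hp hq
  | mul p q _ _ hp hq => exact mul_mem hp hq

/-- the system of the entries of `P * C1` -/
theorem uu_ode {K : Type*} [Field K] [Algebra K ℂ] {T : Polynomial K}
    {B : Matrix ν ν (Polynomial K)} (hP : W.Fd T B U P) (C1 : Matrix ν ν ℂ) :
    (∀ a, DifferentiableOn ℂ (uu P C1 · a) U) ∧ ∀ t ∈ U, ∀ a,
      Polynomial.aeval t T * deriv (uu P C1 · a) t = ∑ b, Polynomial.aeval t
        ((of fun a b : ν × ν => if a.2 = b.2 then B a.1 b.1 else 0) a b) * uu P C1 t b := by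
  refine ⟨fun a t ht =>
    ((hP t ht).2.2.mul_const C1 a.1 a.2).differentiableAt.differentiableWithinAt, fun t ht a => ?_⟩
  have e : deriv (uu P C1 · a) t = _ := ((hP t ht).2.2.mul_const C1 a.1 a.2).deriv
  rw [e, mul_apply (M := W.AzK T B t), mul_sum, Fintype.sum_prod_type]
  refine sum_congr rfl fun k _ => ?_
  rw [W.AzK, of_apply, ← mul_assoc, mul_div_cancel₀ _ (hP t ht).1]
  simp [uu, apply_ite, ite_mul]

theorem uu_tay {K : Type*} [Field K] [Algebra K ℂ] {T : Polynomial K}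
    {B : Matrix ν ν (Polynomial K)} (ho : IsOpen U) (hP : W.Fd T B U P) {C1 : Matrix ν ν ℂ} {x : K}
    (hx : algebraMap K ℂ x ∈ U) {z : Matrix ν ν K}
    (hz : z.map (algebraMap K ℂ) = P (algebraMap K ℂ x) * C1) (a : ν × ν) :
    tay (uu P C1 · a) (algebraMap K ℂ x) = W.mpK K ((W.GbK T B x * z.map C) a.1 a.2) := by
  have ha := W.ser_ana ho hP (P (algebraMap K ℂ x))⁻¹ hx
  have e : (uu P C1 · a) = fun t => ∑ k, (P t * (P (algebraMap K ℂ x))⁻¹) a.1 k *
      algebraMap K ℂ (z k a.2) := funext fun t => by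
    change _ = (P t * (P (algebraMap K ℂ x))⁻¹ * z.map (algebraMap K ℂ)) a.1 a.2
    rw [hz, Matrix.mul_assoc, nonsing_inv_mul_cancel_left _ _ (hP _ hx).2.1.isUnit, uu]
  rw [e, tay_sum _ fun k _ => (ha a.1 k).fun_mul analyticAt_const, mul_apply, map_sum]
  refine sum_congr rfl fun k _ => ?_
  rw [tay_mul (ha a.1 k) analyticAt_const, tay_const, W.tay_G ho hP hx, map_mul, map_apply,
    PowerSeries.map_C]

end

end Pool.Agent.Lib.MP_5591bc_ag.C
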