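import Pool.Agent.Lib.MP_5591bc_ag.C.Brg
import Pool.Agent.Lib.MP_5591bc_ag.W.Good

/-! From the linear form of the degree property to the degree property. -/

namespace Pool.Agent.Lib.MP_5591bc_ag.C

open Matrix Finset Filter Topology PowerSeries G R H Function

noncomputable section

theorem good_vanR {K ι : Type*} [Field K] [Algebra K ℂ] {U : Set ℂ} {w : ℂ → ι → ℂ} (ho : IsOpen U)
    (hc : IsPreconnected U) (hw : ∀ o, DifferentiableOn ℂ (w · o) U) (H : MvPolynomial ι K) {s : ℂ}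
    (hs : s ∈ U) (h : ∀ᶠ t in 𝓝 s, MvPolynomial.aeval (w t) H = 0) :
    ∀ t ∈ U, MvPolynomial.aeval (w t) H = 0 := by
  refine ident ho hc ?_ (differentiableOn_const 0) hs h
  clear h
  induction H using MvPolynomial.induction_on with
  | C a => simp
  | add p q hp hq => simpa using hp.fun_add hq
  | mul_X p i hp =>
    simp only [map_mul, MvPolynomial.aeval_X]
    exact hp.fun_mul (hw i)

theorem good_holR {ν : Type*} [Fintype ν] {U : Set ℂ} {P : ℂ → Matrix ν ν ℂ} (hP : Hol U P)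
    (C1 C0 : Matrix ν ν ℂ) (o : Option ((ν × ν) ⊕ (ν × ν))) : DifferentiableOn ℂ (fun t => o.elim t
      (Sum.elim (fun a => (P t * C1) a.1 a.2) fun a => (P t * C0) a.1 a.2)) U := by
  rcases o with _ | a | a
  exacts [differentiableOn_id, DifferentiableOn.fun_sum fun l _ => (hP a.1 l).mul_const _,
    DifferentiableOn.fun_sum fun l _ => (hP a.1 l).mul_const _]

theorem good_evR {K S σ : Type*} [Field K] [CommRing S] [Algebra K S] (t : S) (u y : σ → S)
    (q : MvPolynomial σ (Polynomial K)) : MvPolynomial.aeval (fun o => o.elim t (Sum.elim u y))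
      (MvPolynomial.eval₂ (Polynomial.aeval (MvPolynomial.X none)).toRingHom
        (fun a => MvPolynomial.X (some (Sum.inl a))) q : MvPolynomial (Option (σ ⊕ σ)) K) =
      MvPolynomial.eval₂ (Polynomial.aeval t).toRingHom u q := by
  induction q using MvPolynomial.induction_on with
  | C a => simp [← Polynomial.aeval_algHom_apply]
  | add p q hp hq => rw [MvPolynomial.eval₂_add, MvPolynomial.eval₂_add, map_add, hp, hq]
  | mul_X p i hp =>
    rw [MvPolynomial.eval₂_mul, MvPolynomial.eval₂_mul, map_mul, hp]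
    simp

theorem goodR_of {K : Type*} [Field K] [Algebra K ℂ] {U : Set ℂ} {n δ : ℕ}
    {P : ℂ → Matrix (Fin n) (Fin n) ℂ} (ho : IsOpen U) (hc : IsPreconnected U) (hP : Hol U P)
    {C1 C0 : Matrix (Fin n) (Fin n) ℂ} {x : K} (hx : algebraMap K ℂ x ∈ U)
    {z : Matrix (Fin n) (Fin n) K} (h : ∀ F : W.Mo δ (Fin n) → K,
      (fun μ => algebraMap K ℂ (F μ)) ⬝ᵥ W.mono δ (P (algebraMap K ℂ x) * C0) = 0 →
      ∃ h : W.Mo δ (Fin n) → MvPolynomial (Fin n × Fin n) (Polynomial K),
        (∀ μ, MvPolynomial.eval₂ (Polynomial.evalRingHom x) (fun a => z a.1 a.2) (h μ) = F μ) ∧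
        ∀ᶠ t in 𝓝 (algebraMap K ℂ x),
          (fun μ => vl (uu P C1) (h μ) t) ⬝ᵥ W.mono δ (P t * C0) = 0) :
    GoodR U P C1 C0 δ x z := by
  intro F hF hF0
  obtain ⟨c, rfl⟩ := V.rep hF
  obtain ⟨g, g1, g2⟩ := h c ((V.rep_eval c (algebraMap K ℂ) _).symm.trans hF0)
  refine ⟨∑ μ, MvPolynomial.eval₂ (Polynomial.aeval (MvPolynomial.X none)).toRingHom
    (fun a => MvPolynomial.X (some (Sum.inl a))) (g μ) *
    ∏ l, (μ l).elim 1 fun y => MvPolynomial.X (some (Sum.inr y)), fun U' P' hU => ?_, ?_⟩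
  · generalize hH : (∑ μ, MvPolynomial.eval₂ (Polynomial.aeval (MvPolynomial.X none)).toRingHom
      (fun a => MvPolynomial.X (some (Sum.inl a))) (g μ) *
      ∏ l, (μ l).elim 1 fun y => MvPolynomial.X (some (Sum.inr y)) :
        MvPolynomial (Option ((Fin n × Fin n) ⊕ (Fin n × Fin n))) K) = H
    have hp : ∀ t : ℂ, MvPolynomial.aeval (fun o => o.elim t
        (Sum.elim (fun a => (P t * C1) a.1 a.2) fun a => (P t * C0) a.1 a.2)) H =
          (fun μ => vl (uu P C1) (g μ) t) ⬝ᵥ W.mono δ (P t * C0) := fun t => by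
      rw [← hH, map_sum]
      refine Finset.sum_congr rfl fun μ _ => ?_
      rw [map_mul, good_evR, map_prod]
      exact congrArg₂ _ rfl (Finset.prod_congr rfl fun l _ => by cases e : μ l <;> simp [hatg])
    suffices IsOpen U' ∧ ∀ t ∈ U', MvPolynomial.aeval (fun o => o.elim t
      (Sum.elim (fun a => (P' t * C1) a.1 a.2) fun a => (P' t * C0) a.1 a.2)) H = 0 from this.2
    induction hU with
    | base =>
      exact ⟨ho, good_vanR ho hc (good_holR hP C1 C0) H hx (g2.mono fun t ht => (hp t).trans ht)⟩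
    | step U1 U2 P1 P2 s' _ o2 c2 d2 s1 s2 e ih =>
      refine ⟨o2, good_vanR o2 c2 (good_holR d2 C1 C0) H s2 ?_⟩
      filter_upwards [e, ih.1.mem_nhds s1] with t h3 h4
      rw [← h3]
      exact ih.2 t h4
  · rw [map_sum]
    refine Finset.sum_congr rfl fun μ _ => ?_
    rw [map_mul, good_evR, map_prod]
    refine congrArg₂ _ ?_ (Finset.prod_congr rfl fun l _ => by cases e : μ l <;> simp [hatg])
    beta_reduce
    rw [← g1, MvPolynomial.eval₂_comp_left MvPolynomial.C]
    refine congrArg₂ (MvPolynomial.eval₂ · · (g μ)) (Polynomial.ringHom_ext (fun a => ?_) ?_) rfl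
    · simp
    · simp

theorem GoodR.mono {K : Type*} [Field K] [Algebra K ℂ] {U : Set ℂ} {n δ δ' : ℕ}
    {P : ℂ → Matrix (Fin n) (Fin n) ℂ} {C1 C0 : Matrix (Fin n) (Fin n) ℂ} {x : K}
    {z : Matrix (Fin n) (Fin n) K} (h : GoodR U P C1 C0 δ' x z) (e : δ ≤ δ') :
    GoodR U P C1 C0 δ x z := by
  exact fun F hF => h F (hF.trans e)

end

end Pool.Agent.Lib.MP_5591bc_ag.C
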