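import Pool.Agent.Lib.MP_5591bc_ag.C.NPi
import Pool.Agent.Lib.MP_5591bc_ag.C.Good
import Pool.Agent.Lib.MP_5591bc_ag.D.Good

/-! From the formal linear property to the degree property. -/

namespace Pool.Agent.Lib.MP_5591bc_ag.C

open Matrix Finset Filter Topology PowerSeries G R V D Function
open W (GK mpK)

noncomputable section

theorem ngood_tay {L κ : Type*} [Field L] [Algebra L ℂ] {u : ℂ → κ → ℂ} {x : ℂ}
    (hu : ∀ a, AnalyticAt ℂ (u · a) x) (q : MvPolynomial κ (Polynomial L)) :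
    AnalyticAt ℂ (vl u q) x ∧ tay (vl u q) x = evK L x (fun a => tay (u · a) x) q := by
  have := tay_vl hu (MvPolynomial.map (Polynomial.mapRingHom (algebraMap L ℂ)) q)
  rw [vl_map] at this
  refine ⟨this.1, this.2.trans ?_⟩
  rw [evS, evK, MvPolynomial.eval₂Hom_map_hom]
  rfl

theorem ngood_shift {L κ : Type*} [Field L] [Algebra L ℂ] (u : ℂ → κ → ℂ) (s : L)
    (q : MvPolynomial κ (Polynomial L)) (t : ℂ) :
    vl u (MvPolynomial.map (Polynomial.taylorAlgHom (-s)).toRingHom q) (t + algebraMap L ℂ s) =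
      vl (fun t => u (t + algebraMap L ℂ s)) q t := by
  rw [vl, vl, MvPolynomial.eval₂_map]
  congr 1
  refine RingHom.ext fun p => ?_
  simp [Polynomial.taylor_apply, Polynomial.aeval_comp]

theorem goodR_ofS {L : Type*} [Field L] [Algebra L ℂ] {n δ : ℕ} {U : Set ℂ} (ho : IsOpen U)
    (hc : IsPreconnected U) {P : ℂ → Matrix (Fin n) (Fin n) ℂ} (hP : Hol U P)
    {C1 C0 : Matrix (Fin n) (Fin n) ℂ} {s x : L}
    (hx : algebraMap L ℂ x + algebraMap L ℂ s ∈ U) {z : Matrix (Fin n) (Fin n) L}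
    (hz : z.map (algebraMap L ℂ) = P (algebraMap L ℂ x + algebraMap L ℂ s) * C1)
    (h : LGoodS L (algebraMap L ℂ x)
      (fun a => tay (uu (fun t => P (t + algebraMap L ℂ s)) C1 · a) (algebraMap L ℂ x))
      fun μ : Mo (Fin n) δ =>
        tay (fun t => vk δ (P (t + algebraMap L ℂ s) * C0) μ) (algebraMap L ℂ x)) :
    GoodR U P C1 C0 δ (s + x) z := by
  have e : algebraMap L ℂ (s + x) = algebraMap L ℂ x + algebraMap L ℂ s := by
    rw [map_add, add_comm]
  refine goodR_of ho hc hP (e ▸ hx) fun F hF => ?_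
  rw [e] at hF ⊢
  obtain ⟨g, g1, g2⟩ := h F (by simp only [constantCoeff_tay]; exact hF)
  have sh : AnalyticAt ℂ (fun t : ℂ => t + algebraMap L ℂ s) (algebraMap L ℂ x) := by fun_prop
  have hu : ∀ a, AnalyticAt ℂ (uu P C1 · a) (algebraMap L ℂ x + algebraMap L ℂ s) := fun a =>
    (brg_hol hP C1 a.1 a.2).analyticAt (ho.mem_nhds hx)
  have hu' : ∀ a, AnalyticAt ℂ (uu (fun t => P (t + algebraMap L ℂ s)) C1 · a)
      (algebraMap L ℂ x) := fun a => AnalyticAt.comp (f := fun t : ℂ => t + algebraMap L ℂ s) (hu a) sh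
  refine ⟨fun μ => MvPolynomial.map (Polynomial.taylorAlgHom (-s)).toRingHom (g μ), fun μ => ?_, ?_⟩
  · refine (algebraMap L ℂ).injective ?_
    rw [← g1, ← (ngood_tay hu' (g μ)).2, constantCoeff_tay, MvPolynomial.eval₂_map,
      MvPolynomial.eval₂_comp_left, vl]
    refine congrArg₂ (MvPolynomial.eval₂ · · (g μ)) (Polynomial.ringHom_ext (fun a => ?_) ?_)
      (funext fun a => congrFun (congrFun hz a.1) a.2)
    · simp
    · simp
  · have hψ : ∀ μ : Mo (Fin n) δ, AnalyticAt ℂ (fun z => vk δ (P z * C0) μ)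
        (algebraMap L ℂ x + algebraMap L ℂ s) := fun μ => by
      refine DifferentiableOn.analyticAt (s := U) ?_ (ho.mem_nhds hx)
      unfold vk tens
      refine DifferentiableOn.fun_finsetProd fun l _ => ?_
      rcases μ l with _ | a
      exacts [differentiableOn_const _, brg_hol hP C0 _ _]
    have hp := fun μ => (ngood_tay hu
      (MvPolynomial.map (Polynomial.taylorAlgHom (-s)).toRingHom (g μ))).1
    have ha := fun μ => (hp μ).fun_mul (hψ μ)
    refine eventually_zero_of_tay (analyticAt_fun_sum univ fun μ _ => ha μ) ?_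
    refine (tay_sum _ fun μ _ => ha μ).trans (Eq.trans (sum_congr rfl fun μ _ => ?_) g2)
    beta_reduce
    rw [tay_mul (hp μ) (hψ μ), ← tay_shift, ← tay_shift, ← (ngood_tay hu' (g μ)).2]
    congr 2
    exact funext fun t => ngood_shift _ s _ t

end

end Pool.Agent.Lib.MP_5591bc_ag.C
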