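import Pool.Agent.Lib.MP_5591bc_ag.C.NAlg
import Pool.Agent.Lib.MP_5591bc_ag.D.Two

/-! The system attached to a fundamental matrix and a centre. -/

namespace Pool.Agent.Lib.MP_5591bc_ag.C

open Matrix Finset Filter Topology PowerSeries G R V D Function
open W (GK mpK)
open Metric

noncomputable section

variable {ν : Type} [Fintype ν] [DecidableEq ν] {K : Type} [Field K] [NumberField K] [Algebra K ℂ]
  {T : Polynomial K} {B : Matrix ν ν (Polynomial K)} {U : Set ℂ} {P : ℂ → Matrix ν ν ℂ}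
  {C1 C0 : Matrix ν ν ℂ}

omit [NumberField K] in
theorem ntwo_sol (ho : IsOpen U) (hP : FundK T B U P) {x : ℂ} (hx : x ∈ U)
    (h0 : Polynomial.aeval x T ≠ 0) : ∀ᶠ t in 𝓝 x, MSol (W.AzK T B) P t := by
  filter_upwards [ho.mem_nhds hx, (analyticAt_aeval T x).continuousAt.eventually_ne h0]
    with t t1 t2 using W.cov_msol hP t1 t2

omit [Fintype ν] [DecidableEq ν] in
theorem ntwo_vk {Z : ℂ → Matrix ν ν ℂ} {x : ℂ} (h : ∀ i j, AnalyticAt ℂ (Z · i j) x) (δ : ℕ)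
    (μ : Mo ν δ) : AnalyticAt ℂ (fun z => vk δ (Z z) μ) x ∧
      tay (fun z => vk δ (Z z) μ) x = vk δ (of fun i j => tay (Z · i j) x) μ := by
  have ha : ∀ o, AnalyticAt ℂ (fun z => hatg (Z z) o) x := by
    rintro (_ | a)
    exacts [analyticAt_const, h _ _]
  unfold vk tens
  refine ⟨Finset.analyticAt_fun_prod _ fun l _ => ha _,
    (tay_prod _ fun l _ => ha _).trans (prod_congr rfl fun l _ => ?_)⟩
  rcases μ l with _ | ⟨i, j⟩
  exacts [(tay_const 1).trans (map_one _), rfl]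

theorem ntwo_id {ι : Type*} [Fintype ι] {R : ℝ} {g : ℂ → ℂ} {ψ : ι → ℂ → ℂ} {c : ι → ℂ}
    (hg : ∀ y ∈ ball (0 : ℂ) R, AnalyticAt ℂ g y)
    (hψ : ∀ b, ∀ y ∈ ball (0 : ℂ) R, AnalyticAt ℂ (ψ b) y)
    (h0 : tay g 0 = ∑ b, C (c b) * tay (ψ b) 0) {x : ℂ} (hx : x ∈ ball (0 : ℂ) R) :
    tay g x = ∑ b, C (c b) * tay (ψ b) x := by
  have a2 : ∀ y ∈ ball (0 : ℂ) R, AnalyticAt ℂ (fun z => ∑ b, c b * ψ b z) y := fun y hy =>
    Finset.analyticAt_fun_sum _ fun b _ => analyticAt_const.fun_mul (hψ b y hy)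
  have a4 : ∀ y ∈ ball (0 : ℂ) R, (∀ t ∈ ball (0 : ℂ) R, g t - ∑ b, c b * ψ b t = 0) ↔
      tay g y = ∑ b, C (c b) * tay (ψ b) y := fun y hy => by
    rw [brg_zero (convex_ball (0 : ℂ) R).isPreconnected (fun z hz => (hg z hz).fun_sub (a2 z hz))
      hy (isOpen_ball.mem_nhds hy), tay_sub (hg y hy) (a2 y hy), sub_eq_zero,
      tay_sum _ fun b _ => analyticAt_const.fun_mul (hψ b y hy)]
    simp only [tay_cmul (hψ _ y hy)]
  exact (a4 x hx).1 ((a4 0 (mem_ball_self (pos_of_mem_ball hx))).2 h0)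

omit [Algebra K ℂ] [DecidableEq ν] in
theorem ntwo_gk {h : ℕ} {Z0 : Matrix ν ν K⟦X⟧} (H : GK h fun a : ν × ν => Z0 a.1 a.2) (δ : ℕ) :
    GK ((2 * h) ^ (δ + 1)) (Sum.elim (vk δ Z0) fun a : ν × ν => Z0 a.1 a.2) := by
  have := H.poly (δ := δ + 1) (Sum.elim (vk δ (of fun i j =>
    (MvPolynomial.X (i, j) : MvPolynomial (ν × ν) K))) MvPolynomial.X) (by
      rintro (μ | a)
      · simp only [Sum.elim_inl, vk, tens]
        refine (MvPolynomial.totalDegree_finsetProd _ _).trans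
          ((sum_le_card_nsmul _ _ 1 fun l _ => ?_).trans (by simp))
        rcases μ l with _ | a <;> simp [hatg]
      · simp)
  refine this.of fun s => ⟨s, ?_⟩
  rcases s with μ | a
  · simp only [Sum.elim_inl, vk, tens, map_prod]
    refine prod_congr rfl fun l _ => ?_
    rcases μ l with _ | a <;> simp [hatg]
  · simp

omit [NumberField K] in
theorem ntwo_rng (ho : IsOpen U) (hP : FundK T B U P) {x : ℂ} (hx : x ∈ U)
    (h0 : Polynomial.aeval x T ≠ 0) (δ : ℕ) (i j : Mo ν δ) :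
    (piM fun _ => exg 1 (GbC T B x)) i j ∈ (evG x (of fun i j => tay (P · i j) x)).range := by
  have b1 := congrArg (· * (P x)⁻¹.map C) (tay_PC (ntwo_sol ho hP hx h0) h0)
  simp only [Matrix.mul_assoc, ← Matrix.map_mul, mul_nonsing_inv _ (Ne.isUnit (hP _ hx).1),
    Matrix.map_one _ (map_zero _) (map_one _), Matrix.mul_one] at b1
  have b2 : ∀ a b, GbC T B x a b ∈ (evG x (of fun i j => tay (P · i j) x)).range := fun a b => by
    rw [← b1, mul_apply]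
    exact sum_mem fun l _ => mul_mem ⟨MvPolynomial.X (a, l), by simp [evG]⟩
      ⟨MvPolynomial.C (Polynomial.C ((P x)⁻¹ l b)), by simp [evG, τc_C]⟩
  rw [piM, of_apply]
  refine prod_mem fun l _ => ?_
  rcases i l with _ | a <;> rcases j l with _ | b
  · exact one_mem _
  · exact zero_mem _
  · exact zero_mem _
  · by_cases e : a.2 = b.2
    · simpa only [exg, of_apply, Option.elim_some, if_pos e] using b2 a.1 b.1
    · simp only [exg, of_apply, Option.elim_some, if_neg e]; exact zero_mem _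

omit [NumberField K] in
theorem ntwo_ode (ho : IsOpen U) (hP : FundK T B U P) {x : ℂ} (hx : x ∈ U)
    (h0 : Polynomial.aeval x T ≠ 0) (C1 : Matrix ν ν ℂ) :
    τK x T • (fun a => d⁄dX ℂ (tay (uu P C1 · a) x)) =
      (of fun a b : ν × ν => if a.2 = b.2 then B a.1 b.1 else 0).map (τK x) *ᵥ
        fun a => tay (uu P C1 · a) x := by
  have an : ∀ a, AnalyticAt ℂ (uu P C1 · a) x := fun a =>
    (brg_hol (W.cov_hol hP) C1 a.1 a.2).analyticAt (ho.mem_nhds hx)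
  have h1 := (uu_ode (U := {t ∈ U | Polynomial.aeval t T ≠ 0})
    (fun t ht => ⟨ht.2, (hP t ht.1).1, W.cov_msol hP ht.1 ht.2⟩) C1).2
  generalize (of fun a b : ν × ν => if a.2 = b.2 then B a.1 b.1 else 0) = M at h1 ⊢
  funext a
  simp only [Pi.smul_apply, smul_eq_mul, mulVec, dotProduct, map_apply, ← tay_τK]
  rw [← tay_deriv, ← tay_mul (W.ser_pol T x) (an a).deriv, ← sum_congr rfl fun b _ =>
    tay_mul (W.ser_pol (M a b) x) (an b), ← tay_sum _ fun b _ => (W.ser_pol _ x).fun_mul (an b)]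
  refine tay_congr ?_
  filter_upwards [ho.mem_nhds hx, (W.ser_pol T x).continuousAt.eventually_ne h0] with t t1 t2
    using h1 t ⟨t1, t2⟩ a

/-- an ordinary point is a centre -/
theorem ctr_ord (h : GalK T B) (hT : T.eval 0 ≠ 0) (ho : IsOpen U) (hU : (0 : ℂ) ∈ U)
    (hP : FundK T B U P) {z0 : Matrix ν ν K} (hz : z0.map (algebraMap K ℂ) = P 0 * C1)
    (C0 : Matrix ν ν ℂ) :
    ∃ ρ, Ctr T B U P C1 C0 ρ (fun t => P t * (P 0)⁻¹) (P 0 * C0) z0 := by
  have T0 : Polynomial.aeval (0 : ℂ) T ≠ 0 := by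
    have := (map_ne_zero (algebraMap K ℂ)).2 hT
    rwa [← Polynomial.aeval_algebraMap_apply_eq_algebraMap_eval, map_zero] at this
  obtain ⟨e, he⟩ := (sysD_Gb h fun e => hT (by simp [e])).ar (Module.finrank ℚ K)
  obtain ⟨G0, g1, g2⟩ := he K le_rfl 0 (by simpa using T0) 1 ⟨Polynomial.X, Polynomial.X_ne_zero,
    by simp, fun i => by rw [Polynomial.coeff_X]; split_ifs <;> simp⟩
  obtain ⟨ρ, ρ0, hρ⟩ := Metric.isOpen_iff.1 ho 0 hU
  have u0 := Ne.isUnit (hP 0 hU).1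
  refine ⟨ρ, ρ0, fun i j => (brg_hol (W.cov_hol hP) _ i j).mono hρ, ⟨G0, _, g2, fun i j => ?_⟩,
    fun x hx h0 => (W.cov_msol hP (hρ hx) h0).mul_const _, fun x _ => ?_, fun x _ => ?_⟩
  · have := tay_PC ((ntwo_sol ho hP hU T0).mono fun t ht => ht.mul_const (P 0)⁻¹) T0
    rw [map_zero] at g1
    rw [mul_nonsing_inv _ u0, Matrix.map_one _ (map_zero _) (map_one _), Matrix.mul_one,
      g1] at this
    exact congrFun₂ this i j
  · rw [Matrix.mul_assoc, nonsing_inv_mul_cancel_left _ _ u0]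
  · rw [hz, Matrix.mul_assoc, nonsing_inv_mul_cancel_left _ _ u0]

theorem exists_twoS (h : GalK T B) (hT : T ≠ 0) (ho : IsOpen U) (hco : IsPreconnected U)
    (hP : FundK T B U P) (hC : ConnR U P fun t => P t * C1)
    (alg : ∀ a, ∃ q : Polynomial (Polynomial ℂ), q ≠ 0 ∧
      ∀ t ∈ U, q.eval₂ (Polynomial.evalRingHom t) (uu P C1 t a) = 0)
    {ρ : ℝ} {Z : ℂ → Matrix ν ν ℂ} {c0 : Matrix ν ν ℂ} {z0 : Matrix ν ν K}
    (hZ : Ctr T B U P C1 C0 ρ Z c0 z0) (δ : ℕ) :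
    ∃ R > 0, ∃ p : Polynomial ℂ, p ≠ 0 ∧ ∃ B' G f F E φ Bu E' e,
      ∃ N : Matrix (Mo ν δ) (Mo ν δ) ℂ,
      TwoS (A := Mo ν δ) (α := (Mo ν δ ⊕ ν × ν) × Ix K) T B'
        {x ∈ U ∩ ball 0 R | p.eval x ≠ 0} G f F E φ Bu (fun x a => tay (uu P C1 · a) x) E' e ∧
      ∀ x ∈ U ∩ ball (0 : ℂ) R, p.eval x ≠ 0 → G x * N.map C = N.map C * G x ∧
        (fun μ => tay (fun z => vk δ (P z * C0) μ) x) = G x *ᵥ fun a => C ((N *ᵥ φ x) a) := by
  have hol := W.cov_hol hP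
  obtain ⟨Z0, h0, g0, hZ0⟩ := hZ.gk
  obtain ⟨f, ⟨a, ha⟩, f2⟩ := gk_coord (ntwo_gk g0 δ)
  obtain ⟨R1, R10, ψ, p1, p2, p3⟩ := gf_ana ha
  obtain ⟨p, e, p0, hp⟩ := exists_bnd ho (u := uu P C1) (fun a => brg_hol hol C1 a.1 a.2) alg
  obtain ⟨N, N1, N2⟩ := two_rt δ c0
  have b1 : ball (0 : ℂ) (min ρ R1) ⊆ ball 0 ρ := ball_subset_ball (min_le_left _ _)
  have b2 : ball (0 : ℂ) (min ρ R1) ⊆ ball 0 R1 := ball_subset_ball (min_le_right _ _)
  have aZ : ∀ y ∈ ball (0 : ℂ) ρ, ∀ i j, AnalyticAt ℂ (Z · i j) y := fun y hy i j =>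
    (hZ.hol i j).analyticAt (isOpen_ball.mem_nhds hy)
  have key : ∀ x ∈ ball (0 : ℂ) (min ρ R1), ∀ s,
      tay (fun z => Sum.elim (vk δ (Z z)) (fun a : ν × ν => Z z a.1 a.2) s) x =
        ∑ b, C (algebraMap K ℂ (NumberField.integralBasis K b)) * tay (ψ · (s, b)) x :=
    fun x hx s => by
    refine ntwo_id (fun y hy => ?_)
      (fun b y hy => (p1 _).analyticAt (isOpen_ball.mem_nhds (b2 hy))) ?_ hx
    · rcases s with μ | a
      exacts [(ntwo_vk (aZ y (b1 hy)) δ μ).1, aZ y (b1 hy) _ _]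
    · simp only [← p2, ← f2]
      rcases s with μ | a
      · refine (ntwo_vk (aZ 0 (mem_ball_self hZ.pos)) δ μ).2.trans ?_
        simp only [hZ0, Sum.elim_inl, map_vk]
        rfl
      · exact hZ0 _ _
  have hT' : ∀ {x : ℂ}, (p * T.map (algebraMap K ℂ)).eval x ≠ 0 →
      p.eval x ≠ 0 ∧ Polynomial.aeval x T ≠ 0 := fun h => by
    rwa [Polynomial.eval_mul, Polynomial.eval_map_algebraMap, mul_ne_zero_iff] at h
  refine ⟨min ρ R1, lt_min hZ.pos R10, p * T.map (algebraMap K ℂ),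
    mul_ne_zero p0 ((Polynomial.map_ne_zero_iff (algebraMap K ℂ).injective).2 hT), _, _, f,
    fun x b => tay (ψ · b) x,
    fun μ b => if Sum.inl μ = b.1 then NumberField.integralBasis K b.2 else 0, fun x => vk δ (Z x),
    of fun a b : ν × ν => if a.2 = b.2 then B a.1 b.1 else 0,
    fun a b => b.1.elim (fun _ => 0) (fun c => if a.1 = c.1 then z0 c.2 a.2 else 0) *
      NumberField.integralBasis K b.2, e, N,
    ⟨((sysD_Gb h hT).vk δ).mono fun x hx => (hT' hx.2).2, ⟨a, ha⟩, fun x hx => p3 x (b2 hx.1.2),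
      fun x hx μ => ?_, fun x hx a => ?_, fun x hx => ?_, fun x hx => hp x hx.1.1 (hT' hx.2).1,
      fun x hx => connT_of ho hco hol hC hx.1.1 (ntwo_rng ho hP hx.1.1 (hT' hx.2).2 δ)⟩,
    fun x hx h1 => ⟨N2 _, ?_⟩⟩
  · have T0 := (hT' hx.2).2
    have s1 : ∀ᶠ t in 𝓝 x, MSol (W.AzK T B) Z t := by
      filter_upwards [isOpen_ball.mem_nhds (b1 hx.1.2),
        (analyticAt_aeval T x).continuousAt.eventually_ne T0] with t t1 t2 using hZ.sol t t1 t2
    rw [← (two_tay s1 T0 δ).2]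
    refine (key x hx.1.2 (.inl μ)).trans ?_
    simp [Fintype.sum_prod_type, apply_ite (algebraMap K ℂ), apply_ite C]
  · have a1 := aZ x (b1 hx.1.2)
    have e1 : tay (uu P C1 · a) x = tay (fun t => ∑ k, algebraMap K ℂ (z0 k a.2) * Z t a.1 k) x := by
      refine tay_congr ?_
      filter_upwards [ho.mem_nhds hx.1.1, isOpen_ball.mem_nhds (b1 hx.1.2)] with t t1 t2
      rw [uu, hZ.e1 t ⟨t1, t2⟩]
      simp only [mul_apply, map_apply, mul_comm]
    have e2 : ∀ k, tay (Z · a.1 k) x = _ := fun k => key x hx.1.2 (.inr (a.1, k))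
    rw [e1, tay_sum _ fun k _ => analyticAt_const.fun_mul (a1 _ k)]
    simp only [tay_cmul (a1 _ _), e2]
    simp [Fintype.sum_prod_type, apply_ite (algebraMap K ℂ), apply_ite C, mul_sum, mul_assoc,
      ite_mul]
  · exact ntwo_ode ho hP hx.1.1 (hT' hx.2).2 C1
  · rw [(two_tay ((ntwo_sol ho hP hx.1 (hT' h1).2).mono fun t ht => ht.mul_const C0)
      (hT' h1).2 δ).2, N1, hZ.e0 x ⟨hx.1, b1 hx.2⟩]

end

end Pool.Agent.Lib.MP_5591bc_ag.C
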