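import Pool.Agent.Lib.MP_5591bc_ag.C.NElim
import Pool.Agent.Lib.MP_5591bc_ag.C.NTwo
import Pool.Agent.Lib.MP_5591bc_ag.C.NGood
import Pool.Agent.Lib.MP_5591bc_ag.D.Near

/-! Finiteness of the exceptional points of bounded degree near a centre. -/

namespace Pool.Agent.Lib.MP_5591bc_ag.C

open Matrix Finset Filter Topology PowerSeries G R V D Function
open W (GK mpK)

noncomputable section

variable {K : Type} [Field K] [NumberField K] [Algebra K ℂ] {n : ℕ} {T : Polynomial K}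
  {B : Matrix (Fin n) (Fin n) (Polynomial K)} {U : Set ℂ} {P : ℂ → Matrix (Fin n) (Fin n) ℂ}
  {C1 C0 : Matrix (Fin n) (Fin n) ℂ}

theorem near_ctr (δ d : ℕ) (h : GalK T B) (hT : T ≠ 0) (ho : IsOpen U) (hc : IsPreconnected U)
    (hP : FundK T B U P) (hC : ConnR U P fun t => P t * C1)
    (alg : ∀ i j, ∃ q : Polynomial (Polynomial ℂ), q ≠ 0 ∧
      ∀ t ∈ U, q.eval₂ (Polynomial.evalRingHom t) ((P t * C1) i j) = 0) {s : K}
    {ρ : ℝ} {Z : ℂ → Matrix (Fin n) (Fin n) ℂ} {c0 : Matrix (Fin n) (Fin n) ℂ}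
    {z0 : Matrix (Fin n) (Fin n) K}
    (hZ : Ctr (Polynomial.taylor s T) (B.map (Polynomial.taylor s))
      {t | t + algebraMap K ℂ s ∈ U} (fun t => P (t + algebraMap K ℂ s)) C1 C0 ρ Z c0 z0)
    {η : ℝ} (η0 : 0 < η) :
    {x : ℂ | algebraMap K ℂ s + x ∈ U ∧ ∃ (L : IntermediateField K ℂ) (hx : x ∈ L)
      (z : Matrix (Fin n) (Fin n) L) (q : Polynomial ℤ) (H : ℝ),
      FiniteDimensional K L ∧ Module.finrank K L ≤ d ∧ q ≠ 0 ∧ Polynomial.aeval x q = 0 ∧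
      (∀ i, |(q.coeff i : ℝ)| ≤ H) ∧ ‖x‖ ≤ H ^ (-η) ∧
      z.map (algebraMap L ℂ) = P (algebraMap K ℂ s + x) * C1 ∧
      ¬ GoodR U P C1 C0 δ (algebraMap K L s + ⟨x, hx⟩) z}.Finite := by
  classical
  obtain ⟨R, R0, p, p0, B', G, f, F, E, φ, Bu, E', e, N, H, hN⟩ := exists_twoS (galK_shift h s)
    (fun e => hT (Polynomial.taylor_injective s (by rw [e, map_zero])))
    (U := {z | z + algebraMap K ℂ s ∈ U}) (ho.preimage (continuous_add_const _)) (by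
      have : {z : ℂ | z + algebraMap K ℂ s ∈ U} = (fun z : ℂ => z - algebraMap K ℂ s) '' U := by
        ext z
        exact ⟨fun h => ⟨_, h, add_sub_cancel_right _ _⟩, by rintro ⟨t, h, rfl⟩; simpa using h⟩
      exact this ▸ hc.image _ (continuous_sub_right _).continuousOn)
    (fundK_shift hP s) (hC.shift _) (fun a => by
      obtain ⟨q, q0, hq⟩ := alg a.1 a.2
      refine ⟨q.map (Polynomial.taylorAlgHom (algebraMap K ℂ s)).toRingHom,
        (Polynomial.map_ne_zero_iff (Polynomial.taylor_injective _)).2 q0, fun t ht => ?_⟩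
      rw [Polynomial.eval₂_map, ← hq _ ht]
      congr 1
      exact RingHom.ext fun r => Polynomial.taylor_eval _ _ _) hZ δ
  obtain ⟨t, t0, t1, hw⟩ := exists_w η0
  obtain ⟨w0, hw0⟩ := exists_pow_lt_of_lt_one R0 t1
  generalize hX : {x : ℂ | algebraMap K ℂ s + x ∈ U ∧ ∃ (L : IntermediateField K ℂ) (hx : x ∈ L)
      (z : Matrix (Fin n) (Fin n) L) (q : Polynomial ℤ) (H : ℝ),
      FiniteDimensional K L ∧ Module.finrank K L ≤ d ∧ q ≠ 0 ∧ Polynomial.aeval x q = 0 ∧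
      (∀ i, |(q.coeff i : ℝ)| ≤ H) ∧ ‖x‖ ≤ H ^ (-η) ∧
      z.map (algebraMap L ℂ) = P (algebraMap K ℂ s + x) * C1 ∧
      ¬ GoodR U P C1 C0 δ (algebraMap K L s + ⟨x, hx⟩) z} = X
  have key : ∀ x ∈ X, ∃ (L : IntermediateField K ℂ) (w : ℕ), x + algebraMap K ℂ s ∈ U ∧
      FiniteDimensional K L ∧ Module.finrank K L ≤ d ∧ Hq x w ∧ (2 ≤ w → ‖x‖ ≤ t ^ w) ∧
      ∃ (hx : x ∈ L) (z : Matrix (Fin n) (Fin n) L),
        z.map (algebraMap L ℂ) = P (x + algebraMap K ℂ s) * C1 ∧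
        ¬ GoodR U P C1 C0 δ (algebraMap K L s + ⟨x, hx⟩) z := by
    subst hX
    rintro x ⟨a0, L, hx, z, q, H, a1, a2, a3, a4, a5, a6, a7, a8⟩
    obtain ⟨w, b1, b2⟩ := hw x q H a3 a4 a5 a6
    rw [add_comm] at a0 a7
    exact ⟨L, w, a0, a1, a2, b1, b2, hx, z, a7, a8⟩
  choose! L w l0 l1 l2 l4 l5 l6 using key
  have hb : ∀ x ∈ X, w0 + 2 ≤ w x → x ∈ Metric.ball (0 : ℂ) R := fun x hx e =>
    mem_ball_zero_iff.2 (((l5 x hx (by omega)).trans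
      (pow_le_pow_of_le_one t0 t1.le (by omega))).trans_lt hw0)
  have bd : ∃ m, ∀ x ∈ X, x ≠ 0 → p.eval x ≠ 0 → w0 + 2 ≤ w x → w x < m := by
    by_contra hi
    push Not at hi
    obtain ⟨x, ⟨x1, -, x4, x3⟩, x2⟩ := H.elim d (fun x hx => (hN x hx.1 hx.2).1) t0 t1
      (S := {x | x ∈ X ∧ x ≠ 0 ∧ p.eval x ≠ 0 ∧ w0 + 2 ≤ w x}) (w := w) (L := L)
      (fun x hx => ⟨⟨⟨l0 x hx.1, hb x hx.1 hx.2.2.2⟩, hx.2.2.1⟩, l1 x hx.1, l2 x hx.1,
        (l6 x hx.1).1, fun a => by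
          obtain ⟨-, z, hz, -⟩ := l6 x hx.1
          rw [constantCoeff_tay, uu, ← hz]
          exact (z a.1 a.2).2, l4 x hx.1, hx.2.1, l5 x hx.1 (by have := hx.2.2.2; omega)⟩)
      fun m => by
        obtain ⟨x, a1, a2, a5, a3, a4⟩ := hi m
        exact ⟨x, ⟨a1, a2, a5, a3⟩, a4⟩
    have e : algebraMap (L x) ℂ (algebraMap K (L x) s) = algebraMap K ℂ s :=
      (IsScalarTower.algebraMap_apply K (L x) ℂ s).symm
    obtain ⟨hx, z, hz, ng⟩ := l6 x x1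
    rw [← (hN x ⟨l0 x x1, hb x x1 x3⟩ x4).2] at x2
    refine ng (goodR_ofS ho hc (fun i j z hz => ((hP z hz).2 i j).1.differentiableWithinAt)
      ?_ ?_ ?_) <;> rw [e]
    exacts [l0 x x1, hz, x2]
  obtain ⟨m, hm⟩ := bd
  refine (((fin_hq K d (m + w0 + 2)).union (p.rootSet_finite ℂ)).insert 0).subset fun x hx => ?_
  by_cases x0 : x = 0
  · exact Or.inl x0
  by_cases x1 : p.eval x = 0
  · exact Or.inr (Or.inr ((Polynomial.mem_rootSet_of_ne p0).2 x1))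
  refine Or.inr (Or.inl ⟨(l4 x hx).mono ?_, L x, l1 x hx, l2 x hx, (l6 x hx).1⟩)
  rcases le_or_gt (w0 + 2) (w x) with e | e
  · have := hm x hx x0 x1 e
    omega
  · omega

theorem near_R (δ d : ℕ) (h : GalK T B) {s : K} (hT : T.eval s ≠ 0) (ho : IsOpen U)
    (hc : IsPreconnected U) (hs : algebraMap K ℂ s ∈ U) (hP : FundK T B U P)
    (hC : ConnR U P fun t => P t * C1)
    (alg : ∀ i j, ∃ q : Polynomial (Polynomial ℂ), q ≠ 0 ∧
      ∀ t ∈ U, q.eval₂ (Polynomial.evalRingHom t) ((P t * C1) i j) = 0)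
    {z0 : Matrix (Fin n) (Fin n) K} (hz : z0.map (algebraMap K ℂ) = P (algebraMap K ℂ s) * C1)
    (C0 : Matrix (Fin n) (Fin n) ℂ) {η : ℝ} (η0 : 0 < η) :
    {x : ℂ | algebraMap K ℂ s + x ∈ U ∧ ∃ (L : IntermediateField K ℂ) (hx : x ∈ L)
      (z : Matrix (Fin n) (Fin n) L) (q : Polynomial ℤ) (H : ℝ),
      FiniteDimensional K L ∧ Module.finrank K L ≤ d ∧ q ≠ 0 ∧ Polynomial.aeval x q = 0 ∧
      (∀ i, |(q.coeff i : ℝ)| ≤ H) ∧ ‖x‖ ≤ H ^ (-η) ∧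
      z.map (algebraMap L ℂ) = P (algebraMap K ℂ s + x) * C1 ∧
      ¬ GoodR U P C1 C0 δ (algebraMap K L s + ⟨x, hx⟩) z}.Finite := by
  obtain ⟨ρ, hρ⟩ := ctr_ord (galK_shift h s) (by rwa [Polynomial.taylor_eval, zero_add])
    (U := {z | z + algebraMap K ℂ s ∈ U}) (ho.preimage (continuous_add_const _))
    (by simpa using hs) (fundK_shift hP s) (C1 := C1) (z0 := z0) (by rwa [zero_add]) C0
  exact near_ctr δ d h (fun e => hT (by simp [e])) ho hc hP hC alg hρ η0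

end

end Pool.Agent.Lib.MP_5591bc_ag.C
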