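import Pool.Agent.Lib.MP_5591bc_ag.C.CuspA
import Pool.Agent.Lib.MP_5591bc_ag.C.Near

/-! Finiteness of the exceptional points of bounded degree on a curve near an ordinary point or a
simple pole with nilpotent residue. -/

namespace Pool.Agent.Lib.MP_5591bc_ag.C

open Matrix Finset Filter Topology PowerSeries G R V D Function
open W (GK mpK)

noncomputable section

variable {K : Type} [Field K] [NumberField K] [Algebra K ℂ] {n : ℕ} {T : Polynomial K}
  {B : Matrix (Fin n) (Fin n) (Polynomial K)} {U : Set ℂ} {P : ℂ → Matrix (Fin n) (Fin n) ℂ}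
  {C1 C0 : Matrix (Fin n) (Fin n) ℂ}

theorem cusp_R (δ d : ℕ) (h : GalK T B) {s : K}
    (hT : T.eval s = 0 → T.derivative.eval s ≠ 0 ∧ IsNilpotent (B.map (Polynomial.eval s)))
    (ho : IsOpen U) (hc : IsPreconnected U) (hP : FundK T B U P)
    (hC : ConnR U P fun t => P t * C1)
    (alg : ∀ i j, ∃ q : Polynomial (Polynomial ℂ), q ≠ 0 ∧
      ∀ t ∈ U, q.eval₂ (Polynomial.evalRingHom t) ((P t * C1) i j) = 0)
    {Z1 Z0 : ℂ → Matrix (Fin n) (Fin n) ℂ}
    (h1 : ∀ i j, AnalyticAt ℂ (Z1 · i j) (algebraMap K ℂ s))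
    (h0 : ∀ i j, AnalyticAt ℂ (Z0 · i j) (algebraMap K ℂ s))
    (hs : ∀ᶠ t in 𝓝[U] algebraMap K ℂ s, P t * C1 = Z1 t ∧ P t * C0 = Z0 t)
    {z0 : Matrix (Fin n) (Fin n) K} (hz : z0.map (algebraMap K ℂ) = Z1 (algebraMap K ℂ s))
    {η : ℝ} (η0 : 0 < η) :
    {x : ℂ | algebraMap K ℂ s + x ∈ U ∧ ∃ (L : IntermediateField K ℂ) (hx : x ∈ L)
      (z : Matrix (Fin n) (Fin n) L) (q : Polynomial ℤ) (H : ℝ),
      FiniteDimensional K L ∧ Module.finrank K L ≤ d ∧ q ≠ 0 ∧ Polynomial.aeval x q = 0 ∧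
      (∀ i, |(q.coeff i : ℝ)| ≤ H) ∧ ‖x‖ ≤ H ^ (-η) ∧
      z.map (algebraMap L ℂ) = P (algebraMap K ℂ s + x) * C1 ∧
      ¬ GoodR U P C1 C0 δ (algebraMap K L s + ⟨x, hx⟩) z}.Finite := by
  obtain ⟨ρ, ρ0, hρ⟩ := Metric.eventually_nhds_iff_ball.1 ((eventually_nhdsWithin_iff.1 hs).and
    (eventually_all.2 fun i => eventually_all.2 fun j =>
      (h1 i j).eventually_analyticAt.and (h0 i j).eventually_analyticAt))
  have mb : ∀ z ∈ Metric.ball (0 : ℂ) ρ, z + algebraMap K ℂ s ∈ Metric.ball (algebraMap K ℂ s) ρ :=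
    fun z hz => by simpa using hz
  obtain ⟨R, Ψ, H⟩ := ctr_cusp (galK_shift h s) (fun e => by
      rw [Polynomial.taylor_eval, zero_add] at e
      refine ⟨?_, ?_⟩
      · simpa [Polynomial.taylor_apply, Polynomial.derivative_comp] using (hT e).1
      · convert (hT e).2 using 1
        ext
        simp [Polynomial.taylor_eval])
    (U := {z | z + algebraMap K ℂ s ∈ U}) (ho.preimage (continuous_add_const _))
    (fundK_shift hP s) ρ0 (Z1 := fun z => Z1 (z + algebraMap K ℂ s))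
    (Z0 := fun z => Z0 (z + algebraMap K ℂ s))
    (fun i j z hz => (((hρ _ (mb z hz)).2 i j).1.differentiableAt.hasDerivAt.comp_add_const z
      _).differentiableAt.differentiableWithinAt)
    (fun i j z hz => (((hρ _ (mb z hz)).2 i j).2.differentiableAt.hasDerivAt.comp_add_const z
      _).differentiableAt.differentiableWithinAt)
    (fun t ht => ((hρ _ (mb t ht.2)).1 ht.1).1) (fun t ht => ((hρ _ (mb t ht.2)).1 ht.1).2)
    (z0 := z0) (by rwa [zero_add])
  exact near_ctr δ d h (fun e => by simp [e] at hT) ho hc hP hC alg H η0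

end

end Pool.Agent.Lib.MP_5591bc_ag.C
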