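import Pool.Agent.Lib.MP_5591bc_ag.C.NDefs
import Pool.Agent.Lib.MP_5591bc_ag.D.Cusp
import Pool.Agent.Lib.MP_5591bc_ag.W.GKa

/-! A simple pole with nilpotent residue is a centre. -/

namespace Pool.Agent.Lib.MP_5591bc_ag.C

open Matrix Finset Filter Topology PowerSeries G R V D Function Metric
open W (GK mpK)

noncomputable section

theorem cuspA_gk {α : Type*} {a : ℕ} {g : α → ℚ⟦X⟧} (h : GF a g) : GK a g := by
  refine ⟨a, h.pos, fun t => ?_⟩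
  obtain ⟨h0, d, h1, h2, h3⟩ := h t
  refine ⟨fun x σ => ?_, d, h1, h2.trans_eq (pow_succ' _ _), fun x j hj => ?_⟩
  · rw [eq_ratCast, Complex.norm_ratCast, ← pow_succ']
    exact h0 x
  · obtain ⟨z, hz⟩ := h3 x j hj
    exact hz ▸ isIntegral_intCast z

variable {ν : Type} [Fintype ν] [DecidableEq ν] {K : Type} [Field K] [NumberField K] [Algebra K ℂ]
  {T : Polynomial K} {B : Matrix ν ν (Polynomial K)} {U : Set ℂ} {P : ℂ → Matrix ν ν ℂ}
  {C1 C0 : Matrix ν ν ℂ}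

theorem cuspA_form (h : GalK T B)
    (hT : T.eval 0 = 0 → T.derivative.eval 0 ≠ 0 ∧ IsNilpotent (B.map (Polynomial.eval 0))) :
    ∃ (Y : Matrix ν ν K⟦X⟧) (a : ℕ), GK a (fun p : ν × ν => Y p.1 p.2) ∧
      τK 0 T • (Y.map (mpK K)).map (d⁄dX ℂ) = B.map (τK 0) * Y.map (mpK K) ∧
      ∀ Z : Matrix ν ν ℂ⟦X⟧, τK 0 T • Z.map (d⁄dX ℂ) = B.map (τK 0) * Z →
        Z = Y.map (mpK K) * (Z.map constantCoeff).map C := by
  have key : ∀ {T : Polynomial K} {B : Matrix ν ν (Polynomial K)}, GalK (Polynomial.X * T) B →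
      T.eval 0 ≠ 0 → IsNilpotent (B.map (Polynomial.eval 0)) →
      ∃ (Y : Matrix ν ν K⟦X⟧) (a : ℕ), GK a (fun p : ν × ν => Y p.1 p.2) ∧
      τK 0 (Polynomial.X * T) • (Y.map (mpK K)).map (d⁄dX ℂ) = B.map (τK 0) * Y.map (mpK K) ∧
      ∀ Z : Matrix ν ν ℂ⟦X⟧, τK 0 (Polynomial.X * T) • Z.map (d⁄dX ℂ) = B.map (τK 0) * Z →
        Z = Y.map (mpK K) * (Z.map constantCoeff).map C := fun h hT hN => by
    obtain ⟨Y, a, E, V, hg, hΨ⟩ := cusp_form h hT hN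
    refine ⟨of fun i j => ∑ p : (ν × Ix K) × ν × Ix K, C (E i p.1 * V p.2 j) *
      PowerSeries.map (algebraMap ℚ K) (Y p.1 p.2), a, ((cuspA_gk hg).map (algebraMap ℚ K)).lin
      (I := fun _ : ν × ν => (ν × Ix K) × ν × Ix K) (fun _ => univ) _ (fun _ p => p), hΨ _ ?_⟩
    ext1 i j
    have e : ∀ y, mpK K (PowerSeries.map (algebraMap ℚ K) y) = mp y := fun y => by
      ext
      simp
    simp only [map_apply, of_apply, mul_apply, map_sum, map_mul, map_C, e, sum_mul]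
    rw [Fintype.sum_prod_type, sum_comm]
    simp only [mul_right_comm]
  by_cases T0 : T.eval 0 = 0
  · obtain ⟨T, rfl⟩ := Polynomial.X_dvd_iff.2 ((Polynomial.coeff_zero_eq_eval_zero T).trans T0)
    exact key h (by simpa using (hT T0).1) (hT T0).2
  obtain ⟨Y, a, hg, o1, o2⟩ := key (cusp_scale h) T0 ⟨1, by ext; simp⟩
  have x0 : τK (0 : ℂ) (Polynomial.X : Polynomial K) ≠ 0 := by
    simp [τK, τc]
  have e : ∀ Z : Matrix ν ν ℂ⟦X⟧, τK 0 (Polynomial.X * T) • Z.map (d⁄dX ℂ) =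
      ((Polynomial.X : Polynomial K) • B).map (τK 0) * Z ↔
      τK 0 T • Z.map (d⁄dX ℂ) = B.map (τK 0) * Z := fun Z => by
    rw [map_mul, mul_smul, show ((Polynomial.X : Polynomial K) • B).map (τK 0) =
      τK 0 (Polynomial.X : Polynomial K) • B.map (τK 0) by ext1; simp, Matrix.smul_mul,
      (smul_right_injective _ x0).eq_iff]
  exact ⟨Y, a, hg, (e _).1 o1, fun Z hZ => o2 Z ((e Z).2 hZ)⟩

omit [NumberField K] in
theorem cuspA_ode (ho : IsOpen U) (hP : FundK T B U P) {R : ℝ} {Z : ℂ → Matrix ν ν ℂ}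
    (hZ : Hol (ball 0 R) Z) (e : ∀ t ∈ U ∩ ball (0 : ℂ) R, P t * C0 = Z t) {x : ℂ}
    (hx : x ∈ U ∩ ball (0 : ℂ) R) : ∀ z ∈ ball (0 : ℂ) R, ∀ i j,
      Polynomial.aeval z T * deriv (Z · i j) z = ∑ k, Polynomial.aeval z (B i k) * Z z k j := by
  have an : ∀ z ∈ ball (0 : ℂ) R, ∀ i j, AnalyticAt ℂ (Z · i j) z := fun z hz i j =>
    (hZ i j).analyticAt (isOpen_ball.mem_nhds hz)
  have op := ho.inter (isOpen_ball (x := (0 : ℂ)) (ε := R))
  refine fun z hz i j => sub_eq_zero.1 (AnalyticOnNhd.eqOn_zero_of_preconnected_of_eventuallyEq_zero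
    (f := fun z => Polynomial.aeval z T * deriv (Z · i j) z -
      ∑ k, Polynomial.aeval z (B i k) * Z z k j) (fun z hz => ((analyticAt_aeval T z).fun_mul
      (an z hz i j).deriv).fun_sub (analyticAt_fun_sum univ fun k _ =>
        (analyticAt_aeval _ z).fun_mul (an z hz k j)))
    (convex_ball (0 : ℂ) R).isPreconnected hx.2 ?_ hz)
  filter_upwards [op.mem_nhds hx] with t ht
  have := (HasDerivAt.fun_sum (u := univ) fun l _ =>
    ((hP t ht.1).2 i l).1.hasDerivAt.mul_const (C0 l j)).congr_of_eventuallyEq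
    (f₁ := (Z · i j)) ((op.eventually_mem ht).mono fun s hs => congrFun₂ (e s hs).symm i j)
  simp only [this.deriv, Pi.zero_apply, sub_eq_zero, mul_sum, ← mul_assoc, ((hP t ht.1).2 _ _).2,
    ← e t ht, mul_apply, sum_mul]
  exact sum_comm

theorem ctr_cusp (h : GalK T B)
    (hT : T.eval 0 = 0 → T.derivative.eval 0 ≠ 0 ∧ IsNilpotent (B.map (Polynomial.eval 0)))
    (ho : IsOpen U) (hP : FundK T B U P) {ρ : ℝ} (ρ0 : 0 < ρ) {Z1 Z0 : ℂ → Matrix ν ν ℂ}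
    (h1 : Hol (ball 0 ρ) Z1) (h0 : Hol (ball 0 ρ) Z0)
    (e1 : ∀ t ∈ U ∩ ball (0 : ℂ) ρ, P t * C1 = Z1 t)
    (e0 : ∀ t ∈ U ∩ ball (0 : ℂ) ρ, P t * C0 = Z0 t) {z0 : Matrix ν ν K}
    (hz : z0.map (algebraMap K ℂ) = Z1 0) : ∃ R Ψ, Ctr T B U P C1 C0 R Ψ (Z0 0) z0 := by
  obtain ⟨Y, a, hg, o1, o2⟩ := cuspA_form h hT
  obtain ⟨f, ⟨b, hb⟩, f2⟩ := gk_coord hg
  obtain ⟨R1, R10, y, p1, p2, -⟩ := gf_ana hb
  obtain ⟨R, hR⟩ : ∃ R, R = min ρ R1 := ⟨_, rfl⟩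
  have R0 : 0 < R := hR ▸ lt_min ρ0 R10
  have b1 : ball (0 : ℂ) R ⊆ ball 0 ρ := ball_subset_ball (hR ▸ min_le_left _ _)
  have b2 : ball (0 : ℂ) R ⊆ ball 0 R1 := ball_subset_ball (hR ▸ min_le_right _ _)
  have b0 : (0 : ℂ) ∈ ball (0 : ℂ) R := mem_ball_self R0
  obtain ⟨Ψ, hΨ⟩ : ∃ Ψ : ℂ → Matrix ν ν ℂ, Ψ = fun z => of fun i j =>
    ∑ c, algebraMap K ℂ (NumberField.integralBasis K c) * y z ((i, j), c) := ⟨_, rfl⟩
  have s1 : Hol (ball 0 R) Ψ := fun i j => by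
    simp only [hΨ, of_apply]
    exact DifferentiableOn.fun_sum fun c _ => ((p1 _).mono b2).const_mul _
  have s2 : ∀ z ∈ ball (0 : ℂ) R, ∀ i j, AnalyticAt ℂ (Ψ · i j) z := fun z hz i j =>
    (s1 i j).analyticAt (isOpen_ball.mem_nhds hz)
  have s3 : Y.map (mpK K) = of fun i j => tay (Ψ · i j) 0 := by
    ext1 i j
    have a1 := fun c => (p1 c).analyticAt (isOpen_ball.mem_nhds (b2 b0))
    simp only [hΨ, of_apply, map_apply]
    rw [tay_sum _ fun c _ => analyticAt_const.fun_mul (a1 _), f2 (i, j)]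
    simp only [tay_cmul (a1 _), p2]
  rw [s3] at o1 o2
  have o3 := (cuspC_ode _ _ s1 b0).2 o1
  have z1 : ∀ {C0 : Matrix ν ν ℂ} {Z : ℂ → Matrix ν ν ℂ}, Hol (ball 0 ρ) Z →
      (∀ t ∈ U ∩ ball (0 : ℂ) ρ, P t * C0 = Z t) →
      ∀ x ∈ U ∩ ball (0 : ℂ) R, P x * C0 = Ψ x * Z 0 := fun {C0 Z} hZ e x hx => by
    have a0 : Hol (ball 0 R) Z := hZ.mono b1
    have a1 : ∀ z ∈ ball (0 : ℂ) R, ∀ i j, AnalyticAt ℂ (Z · i j) z := fun z hz i j =>
      (a0 i j).analyticAt (isOpen_ball.mem_nhds hz)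
    have a3 := o2 _ ((cuspC_ode _ _ a0 b0).1
      (cuspA_ode ho hP a0 (fun t ht => e t ⟨ht.1, b1 ht.2⟩) hx))
    rw [e x ⟨hx.1, b1 hx.2⟩]
    ext i j
    have a4 := fun z hz => analyticAt_fun_sum univ fun k _ =>
      (s2 z hz i k).fun_mul (analyticAt_const (v := Z 0 k j))
    refine sub_eq_zero.1 ((brg_zero (convex_ball (0 : ℂ) R).isPreconnected
      (fun z hz => (a1 z hz i j).fun_sub (a4 z hz)) b0 (isOpen_ball.mem_nhds b0)).2 ?_ x hx.2)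
    rw [tay_sub (a1 0 b0 i j) (a4 0 b0), tay_sum _ fun k _ => (s2 0 b0 i k).fun_mul analyticAt_const,
      sub_eq_zero]
    refine (congrFun₂ a3 i j).trans (sum_congr rfl fun k _ => ?_)
    rw [tay_mul (s2 0 b0 i k) analyticAt_const, tay_const]
    simp only [of_apply, map_apply, ← coeff_zero_eq_constantCoeff_apply, coeff_zero_tay]
  refine ⟨R, Ψ, R0, s1, ⟨Y, a, hg, fun i j => (congrFun₂ s3 i j).symm⟩, fun x hx x0 i j => ?_,
    z1 h0 e0, hz ▸ z1 h1 e1⟩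
  refine (s2 x hx i j).differentiableAt.hasDerivAt.congr_deriv ?_
  simp only [W.AzK, mul_apply, of_apply, div_mul_eq_mul_div, ← sum_div, ← o3 x hx i j]
  rw [mul_div_cancel_left₀ _ x0]

end

end Pool.Agent.Lib.MP_5591bc_ag.C
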