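import Pool.Agent.Lib.MP_5591bc_ag.V.Conn
import Pool.Agent.Lib.MP_5591bc_ag.GDefs

/-! Connectedness and the degree `δ` property relative to a second matrix of functions. -/

namespace Pool.Agent.Lib.MP_5591bc_ag.C

open Polynomial V

noncomputable section

/-- `ℂ(t, Q)` is algebraically closed in the field generated by the entries of `P` on `U`: a
quotient `u / v` of polynomials in `t` and the entries of `P` that is a root of a non zero
polynomial `∑ p j * Y ^ j` over `ℂ[t, Q]` is a quotient `a / b` of elements of `ℂ[t, Q]`. -/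
def ConnR {ν : Type*} (U : Set ℂ) (P Q : ℂ → Matrix ν ν ℂ) : Prop :=
  ∀ (u v : MvPolynomial (ν × ν) ℂ[X]) (n : ℕ) (p : ℕ → MvPolynomial (ν × ν) ℂ[X]),
    (∃ t ∈ U, val P v t ≠ 0) → (∃ j ≤ n, ∃ t ∈ U, val Q (p j) t ≠ 0) →
    (∀ t ∈ U, ∑ j ∈ Finset.range (n + 1), val Q (p j) t * val P u t ^ j * val P v t ^ (n - j) = 0) →
    ∃ a b : MvPolynomial (ν × ν) ℂ[X], (∃ t ∈ U, val Q b t ≠ 0) ∧
      ∀ t ∈ U, val Q b t * val P u t = val Q a t * val P v t

/-- The degree `δ` property of `y = P * C0` at the point `(s, z)` of the variety parametrised by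
`(t, P t * C1)`: every polynomial `F` over `K` of degree at most `δ` vanishing at `y s` is
`H(s, z, X)` for a polynomial `H(t, Z, X)` over `K` vanishing at `(t, P' t * C1, P' t * C0)` for
all analytic continuations `P'` of `P`. -/
def GoodR {K : Type*} [Field K] [Algebra K ℂ] {n : ℕ} (U : Set ℂ)
    (P : ℂ → Matrix (Fin n) (Fin n) ℂ) (C1 C0 : Matrix (Fin n) (Fin n) ℂ) (δ : ℕ) (s : K)
    (z : Matrix (Fin n) (Fin n) K) : Prop :=
  ∀ F : MvPolynomial (Fin n × Fin n) K, F.totalDegree ≤ δ →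
    MvPolynomial.aeval (fun a => (P (algebraMap K ℂ s) * C0) a.1 a.2) F = 0 →
    ∃ H : MvPolynomial (Option ((Fin n × Fin n) ⊕ (Fin n × Fin n))) K,
      (∀ U' P', G.Continuation U P U' P' → ∀ t ∈ U', MvPolynomial.aeval (fun o => o.elim t
        (Sum.elim (fun a => (P' t * C1) a.1 a.2) fun a => (P' t * C0) a.1 a.2)) H = 0) ∧
      MvPolynomial.aeval (fun o => o.elim (MvPolynomial.C s)
        (Sum.elim (fun a => MvPolynomial.C (z a.1 a.2)) MvPolynomial.X)) H = F

end

end Pool.Agent.Lib.MP_5591bc_ag.C
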