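import Pool.Agent.Lib.MP_5591bc_ag.C.DescA
import Pool.Agent.Lib.MP_5591bc_ag.W.Desc

/-! From the ideal of the Galois group to the degree property. -/

namespace Pool.Agent.Lib.MP_5591bc_ag.C

open Matrix Finset Filter Topology PowerSeries G R H Function

noncomputable section

variable {K ν : Type*} [Field K] [Algebra K ℂ] [Fintype ν] [DecidableEq ν]
  {T : Polynomial K} {B : Matrix ν ν (Polynomial K)} {U : Set ℂ} {P : ℂ → Matrix ν ν ℂ}

theorem lamF_dotR {δ : ℕ} {x : K} (hx : (P (algebraMap K ℂ x)).det ≠ 0) {F : W.Mo δ ν → K}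
    {C0 : Matrix ν ν ℂ}
    (hF : (fun μ => algebraMap K ℂ (F μ)) ⬝ᵥ W.mono δ (P (algebraMap K ℂ x) * C0) = 0) (t : ℂ) :
    W.lamF P δ x F t ⬝ᵥ W.mono δ (P t * C0) = 0 := by
  have e := W.Adj_mono δ (P t * (P (algebraMap K ℂ x))⁻¹) (P (algebraMap K ℂ x) * C0)
  rw [Matrix.mul_assoc, nonsing_inv_mul_cancel_left _ _ hx.isUnit] at e
  rw [W.lamF, ← dotProduct_mulVec, e, dotProduct_smul, hF, smul_zero]

theorem descR (ho : IsOpen U) (hc : IsPreconnected U) (hP : W.Fd T B U P) {s : ℂ} (hs : s ∈ U)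
    {δ : ℕ} {x : K} (hx : algebraMap K ℂ x ∈ U) {F : W.Mo δ ν → K} {C1 C0 : Matrix ν ν ℂ}
    {z : Matrix ν ν K} (hz : z.map (algebraMap K ℂ) = P (algebraMap K ℂ x) * C1)
    (h : LiftR P C1 δ s (W.lamF P δ x F s) (W.mono δ (P s * C0))) : LGR U P C1 C0 δ x z F := by
  have inj := (algebraMap K ℂ).injective
  have : CharZero K := RingHom.charZero (algebraMap K ℂ)
  obtain ⟨q, q2, q1⟩ := h
  simp only [← W.lamF_base x F (hP s hs).2.1] at q1
  have an : ∀ μ, AnalyticAt ℂ (W.lamF P δ x F · μ) (algebraMap K ℂ x) := fun μ =>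
    (W.lamF_hol hP x F μ).analyticAt (ho.mem_nhds hx)
  have og : ∀ᶠ t in 𝓝 (algebraMap K ℂ x), ∀ μ, (T.map (algebraMap K ℂ)).eval t *
      deriv (W.lamF P δ x F · μ) t = ∑ η, ((((δ * B.trace) • 1 - (tB (Fin δ) (exg 0 B))ᵀ :
        Matrix _ _ _).map (Polynomial.map (algebraMap K ℂ))) μ η).eval t * W.lamF P δ x F t η :=
    mem_of_superset (ho.mem_nhds hx) fun t ht μ => by
      simpa only [map_apply, Polynomial.eval_map_algebraMap] using W.dc_lam ho hP hx F ht μ
  have hm : ∀ t ∈ U, VSol (fun s => tB (Fin δ) (exg 0 (W.AzK T B s)))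
      (fun s => W.mono δ (P s * C0)) t := fun t ht => by
    have := (msol_piM (L := Fin δ) (W.dc_exg (hP t ht).2.2)).vsol (W.mono δ C0)
    simpa only [W.mono, piM_mulVec, exg_mulVec] using this
  have hT : T.eval x ≠ 0 := fun e => (hP _ hx).1 (by
    rw [Polynomial.aeval_algebraMap_apply, Polynomial.coe_aeval_eq_eval, e, map_zero])
  have tm : ∀ p : Polynomial K,
      tk (algebraMap K ℂ x) (p.map (algebraMap K ℂ)) = W.mpK K (tk x p) := fun p => by
    rw [tk_apply, tk_apply, ← Polynomial.map_taylor, Polynomial.polynomial_map_coe]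
  have cc : ∀ f : K⟦X⟧, constantCoeff (W.mpK K f) = algebraMap K ℂ (constantCoeff f) := fun f => by
    rw [← coeff_zero_eq_constantCoeff_apply, coeff_map, coeff_zero_eq_constantCoeff_apply]
  obtain ⟨g, g1, g2⟩ := desc_absS (τ := (δ : Polynomial K) * B.trace) (B := tB (Fin δ) (exg 0 B))
    (y := fun t => W.mono δ (P t * C0)) ho hc hs (hP s hs).1 hx hT (W.lamF_hol hP x F)
    (fun μ t ht => (hasDerivAt_pi.1 (hm t ht) μ).differentiableAt.differentiableWithinAt)
    (uu_ode hP C1).1 (fun t ht μ => by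
      rw [(hasDerivAt_pi.1 (hm t ht) μ).deriv, mulVec, dotProduct, Finset.mul_sum]
      simp only [← mul_assoc, W.dc_tB (hP t ht).1]) (uu_ode hP C1).2 (W.tay_self ho hP hx F)
    (fun μ => PowerSeries.map_injective _ inj (by
      have := W.db_tayO an og μ
      simp only [map_apply, tm, W.tay_self ho hP hx F] at this
      rw [map_mul, map_sum]
      simp only [map_mul]
      rw [← this]
      congr 1
      ext n
      simp [coeff_derivative])) (uu_tay ho hP hx hz) q1 q2
  refine ⟨g, fun μ => ?_, g2⟩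
  have e : (fun a : ν × ν => z a.1 a.2) =
      fun a => constantCoeff ((W.GbK T B x * z.map C) a.1 a.2) := funext fun a => inj (by
    rw [← cc, ← uu_tay ho hP hx hz, constantCoeff_tay, uu, ← hz, map_apply])
  rw [e, ← evS_const, g1]
  refine inj ?_
  rw [← cc, ← W.tay_self ho hP hx F μ, constantCoeff_tay, W.lamF_self (hP _ hx).2.1]

end

end Pool.Agent.Lib.MP_5591bc_ag.C
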