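import Pool.Agent.Lib.MP_5591bc_ag.C.Set
import Pool.Agent.Lib.MP_5591bc_ag.GFib

/-! The fibre lemma over an algebra of series. -/

namespace Pool.Agent.Lib.MP_5591bc_ag.C

open Matrix Finset Filter Topology PowerSeries G R H Function

noncomputable section

theorem fib_det {F E n : Type*} [Field F] [CommRing E] [Algebra F E] [Fintype n] [DecidableEq n]
    {S : Subalgebra F E} {M : Matrix n n E} (h : ∀ i j, M i j ∈ S) : M.det ∈ S := by
  rw [det_apply']
  exact sum_mem fun σ _ => mul_mem (intCast_mem _ _) (prod_mem fun i _ => h _ _)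

theorem fib_adj {F E n : Type*} [Field F] [CommRing E] [Algebra F E] [Fintype n] [DecidableEq n]
    {S : Subalgebra F E} {M : Matrix n n E} (h : ∀ i j, M i j ∈ S) (i j : n) :
    M.adjugate i j ∈ S := by
  rw [adjugate_apply]
  refine fib_det fun a b => ?_
  rw [updateRow_apply, Pi.single_apply]
  split_ifs
  exacts [one_mem _, zero_mem _, h _ _]

theorem fib_mem {F E n : Type*} [Field F] [CommRing E] [Algebra F E] [Fintype n]
    {S : Subalgebra F E} {x y : n → E} (h : ∀ i, x i ∈ S) (h' : ∀ i, y i ∈ S) : x ⬝ᵥ y ∈ S :=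
  sum_mem fun i _ => mul_mem (h i) (h' i)

theorem fib_dot {F ι : Type*} [Field F] [Fintype ι] (x y : ι → F⟦X⟧) :
    constantCoeff (x ⬝ᵥ y) = (fun i => constantCoeff (x i)) ⬝ᵥ fun i => constantCoeff (y i) := by
  simp [dotProduct]

theorem fib_step {F : Type*} [Field F] [CharZero F] {f : F⟦X⟧} {n : ℕ}
    (h0 : constantCoeff f = 0) (h : X ^ n ∣ d⁄dX F f) : X ^ (n + 1) ∣ f := by
  refine X_pow_dvd_iff.2 fun m hm => ?_
  rcases m with _ | m
  · simpa using h0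
  · have := X_pow_dvd_iff.1 h m (by omega)
    rw [coeff_derivative] at this
    exact (mul_eq_zero.1 this).resolve_right (Nat.cast_add_one_ne_zero m)

theorem fib_all {F : Type*} [Field F] {f : F⟦X⟧} (h : ∀ n, X ^ n ∣ f) : f = 0 :=
  PowerSeries.ext fun n => X_pow_dvd_iff.1 (h (n + 1)) n n.lt_succ_self

theorem fibreS {F ι : Type*} [Field F] [CharZero F] [Fintype ι] {S : Subalgebra F F⟦X⟧}
    (M : Submodule S (ι → F⟦X⟧)) (hM : ∀ x ∈ M, ∀ i, x i ∈ S) {T : F⟦X⟧} {B : Matrix ι ι F⟦X⟧}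
    (hD : ∀ x ∈ M, T • (fun i => d⁄dX F (x i)) + B *ᵥ x ∈ M) (hT : constantCoeff T ≠ 0)
    {v : ι → F} (hv : ∀ x ∈ M, (fun i => constantCoeff (x i)) ⬝ᵥ v = 0) :
    ∃ H : ι → F⟦X⟧, (∀ i, H i ∈ S) ∧ (∀ x ∈ M, x ⬝ᵥ H = 0) ∧ ∀ i, constantCoeff (H i) = v i := by
  classical
  obtain ⟨r, x, η, h1, h2⟩ := exists_frame fun (y : M) i => constantCoeff (y.1 i)
  have sm : ∀ a ∈ S, ∀ y ∈ M, a • y ∈ M := fun a ha y hy => M.smul_mem ⟨a, ha⟩ hy
  have hC : ∀ a : F, (C a : F⟦X⟧) ∈ S := fun a => S.algebraMap_mem a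
  obtain ⟨E, hE⟩ : ∃ E : Fin r → ι → F⟦X⟧, E = fun j i => C (η j i) := ⟨_, rfl⟩
  have hEc : ∀ y j, constantCoeff (y ⬝ᵥ E j) = (fun i => constantCoeff (y i)) ⬝ᵥ η j :=
    fun y j => by simp [fib_dot, hE]
  have hES : ∀ y ∈ M, ∀ j, y ⬝ᵥ E j ∈ S := fun y hy j =>
    sum_mem fun i _ => mul_mem (hM y hy i) (hE ▸ hC _)
  obtain ⟨N, hN0⟩ : ∃ N : Matrix (Fin r) (Fin r) F⟦X⟧, ∀ i j, N i j = (x i).1 ⬝ᵥ E j :=
    ⟨of fun i j => (x i).1 ⬝ᵥ E j, fun _ _ => rfl⟩
  have hNS : ∀ i j, N i j ∈ S := fun i j => hN0 i j ▸ hES _ (x i).2 j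
  have hN : (constantCoeff (R := F)).mapMatrix N = 1 := by
    ext i j; simp [hN0, hEc, h1, one_apply]
  have hd : constantCoeff N.det = 1 := by rw [RingHom.map_det, hN, det_one]
  obtain ⟨fl, hfl⟩ : ∃ fl : (ι → F⟦X⟧) → ι → F⟦X⟧, ∀ y, fl y =
      N.det • y - ∑ i, ((fun j => y ⬝ᵥ E j) ᵥ* N.adjugate) i • (x i).1 := ⟨_, fun _ => rfl⟩
  have fl1 : ∀ y ∈ M, fl y ∈ M := fun y hy => hfl y ▸
    M.sub_mem (sm _ (fib_det hNS) _ hy) (M.sum_mem fun i _ => sm _
      (fib_mem (hES y hy) fun j => fib_adj hNS j i) _ (x i).2)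
  have fl2 : ∀ y j, fl y ⬝ᵥ E j = 0 := fun y j => by
    have : ((fun j => y ⬝ᵥ E j) ᵥ* N.adjugate ᵥ* N) j = N.det * (y ⬝ᵥ E j) := by
      rw [vecMul_vecMul, adjugate_mul, vecMul_smul, vecMul_one]; rfl
    simp only [hfl, sub_dotProduct, smul_dotProduct, sum_dotProduct, smul_eq_mul]
    rw [← this, sub_eq_zero]
    simp only [← hN0]
    rfl
  have van : ∀ y ∈ M, (∀ j, y ⬝ᵥ E j = 0) → ∀ i, constantCoeff (y i) = 0 := fun y hy h i => by
    have := congrFun (h2 ⟨y, hy⟩) i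
    simp only [← hEc, h] at this
    simpa using this
  have key : ∀ n, ∀ y ∈ M, (∀ j, y ⬝ᵥ E j = 0) → ∀ i, X ^ n ∣ y i := by
    intro n
    induction n with
    | zero => simp
    | succ n ih =>
      intro y hy h i
      have hB : ∀ i, X ^ n ∣ (B *ᵥ y) i := fun i =>
        Finset.dvd_sum fun j _ => (ih y hy h j).mul_left _
      obtain ⟨z, hz⟩ : ∃ z, z = T • (fun i => d⁄dX F (y i)) + B *ᵥ y := ⟨_, rfl⟩
      have h3 : ∀ j, X ^ n ∣ z ⬝ᵥ E j := fun j => by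
        have : (fun i => d⁄dX F (y i)) ⬝ᵥ E j = d⁄dX F (y ⬝ᵥ E j) := by
          simp [dotProduct, hE, mul_comm]
        rw [hz, add_dotProduct, smul_dotProduct, this, h j, map_zero, smul_zero, zero_add]
        exact Finset.dvd_sum fun i _ => (hB i).mul_right _
      have h4 := ih _ (fl1 _ (hz ▸ hD y hy : z ∈ M)) (fl2 _) i
      have h5 : X ^ n ∣ N.det * T * d⁄dX F (y i) := by
        have e : N.det * T * d⁄dX F (y i) = fl z i - N.det * (B *ᵥ y) i +
            ∑ l, ((fun j => z ⬝ᵥ E j) ᵥ* N.adjugate) l * (x l).1 i := by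
          simp only [hfl, Pi.sub_apply, Pi.smul_apply, Finset.sum_apply, smul_eq_mul]
          simp only [hz, Pi.add_apply, Pi.smul_apply, smul_eq_mul]
          ring
        rw [e]
        refine dvd_add (dvd_sub h4 ((hB i).mul_left _)) (Finset.dvd_sum fun l _ => ?_)
        refine Dvd.dvd.mul_right ?_ _
        simp only [vecMul]
        rw [dotProduct]
        exact Finset.dvd_sum fun j _ => (h3 j).mul_right _
      refine fib_step (van y hy h i) ((isUnit_iff_constantCoeff.2 ?_).dvd_mul_left.1 h5)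
      rw [map_mul, hd, one_mul]
      exact hT.isUnit
  obtain ⟨Fc, hFc⟩ : ∃ Fc : ι → F⟦X⟧, Fc = fun i => C (v i) := ⟨_, rfl⟩
  have hFS : ∀ i, Fc i ∈ S := fun i => hFc ▸ hC _
  obtain ⟨w, hw⟩ : ∃ w : Fin r → F⟦X⟧, w = N.adjugate *ᵥ fun i => (x i).1 ⬝ᵥ Fc := ⟨_, rfl⟩
  have hx : ∀ i, (x i).1 ⬝ᵥ (N.det • Fc - ∑ j, w j • E j) = 0 := fun i => by
    have : (N *ᵥ w) i = N.det * ((x i).1 ⬝ᵥ Fc) := by
      rw [hw, mulVec_mulVec, mul_adjugate, smul_mulVec, one_mulVec]; rfl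
    simp only [dotProduct_sub, dotProduct_smul, dotProduct_sum, smul_eq_mul]
    rw [← this, sub_eq_zero]
    simp only [← hN0, mul_comm (w _)]
    rfl
  refine ⟨N.det • Fc - ∑ j, w j • E j, fun i => ?_, fun y hy => ?_, fun i => ?_⟩
  · simp only [Pi.sub_apply, Pi.smul_apply, Finset.sum_apply, smul_eq_mul]
    refine sub_mem (mul_mem (fib_det hNS) (hFS i)) (sum_mem fun j _ => mul_mem ?_ (hE ▸ hC _))
    rw [hw]
    exact fib_mem (fib_adj hNS j) fun l => fib_mem (hM _ (x l).2) hFS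
  · have h0 : fl y = 0 := funext fun i => fib_all fun n => key n _ (fl1 y hy) (fl2 y) i
    rw [hfl] at h0
    have := congrArg (· ⬝ᵥ (N.det • Fc - ∑ j, w j • E j)) (sub_eq_zero.1 h0)
    simp only [smul_dotProduct, sum_dotProduct, hx, smul_zero, Finset.sum_const_zero] at this
    exact (mul_eq_zero.1 this).resolve_left fun h => by simp [h] at hd
  · have hw0 : ∀ j, constantCoeff (w j) = 0 := fun j => by
      have : ∀ i, constantCoeff ((x i).1 ⬝ᵥ Fc) = 0 := fun i => by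
        rw [fib_dot, ← hv _ (x i).2]
        simp [hFc]
      simp only [hw, mulVec]
      rw [dotProduct]
      simp [this]
    simp [hd, hFc, hw0]

section

variable {F A : Type*} [Field F] [Fintype A] {S : Subalgebra F F⟦X⟧} {T : F⟦X⟧}

/-- vectors over `S` orthogonal to `N` -/
def fibP (S : Subalgebra F F⟦X⟧) (N : Set (A → F⟦X⟧)) : Submodule S (A → F⟦X⟧) where
  carrier := {x | (∀ a, x a ∈ S) ∧ ∀ l ∈ N, l ⬝ᵥ x = 0}
  add_mem' := fun h h' => ⟨fun a => add_mem (h.1 a) (h'.1 a), fun l hl => by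
    rw [dotProduct_add, h.2 l hl, h'.2 l hl, add_zero]⟩
  zero_mem' := ⟨fun _ => zero_mem _, fun _ _ => dotProduct_zero _⟩
  smul_mem' := fun c x h => ⟨fun a => mul_mem c.2 (h.1 a), fun l hl => by
    rw [dotProduct_smul, h.2 l hl, smul_zero]⟩

theorem fib_der (B : Matrix A A F⟦X⟧) (l x : A → F⟦X⟧) : T * d⁄dX F (l ⬝ᵥ x) =
    (T • (fun i => d⁄dX F (l i)) + B *ᵥ l) ⬝ᵥ x +
      l ⬝ᵥ (T • (fun i => d⁄dX F (x i)) + (-Bᵀ) *ᵥ x) := by
  rw [add_dotProduct, dotProduct_add, neg_mulVec, dotProduct_neg, mulVec_transpose,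
    dotProduct_comm l (x ᵥ* B), ← dotProduct_mulVec, dotProduct_comm x, smul_dotProduct,
    dotProduct_smul]
  simp only [dotProduct, map_sum, Derivation.leibniz, smul_eq_mul, sum_add_distrib,
    mul_comm (x _)]
  ring

theorem fib_st (hS : DS T S) {B : Matrix A A F⟦X⟧} (hB : ∀ i j, B i j ∈ S) {N : Set (A → F⟦X⟧)}
    (h : ∀ l ∈ N, T • (fun i => d⁄dX F (l i)) + B *ᵥ l ∈ insert 0 N) :
    ∀ x ∈ fibP S N, T • (fun i => d⁄dX F (x i)) + (-Bᵀ) *ᵥ x ∈ fibP S N := fun x hx => by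
  refine ⟨fun a => add_mem (hS _ (hx.1 a)) (sum_mem fun b _ => mul_mem (neg_mem (hB b a)) (hx.1 b)),
    fun l hl => ?_⟩
  have := fib_der (T := T) B l x
  rw [hx.2 l hl, map_zero, mul_zero] at this
  rcases h l hl with e | e
  · rw [e, zero_dotProduct, zero_add] at this
    exact this.symm
  · rw [hx.2 _ e, zero_add] at this
    exact this.symm

end

/-- simultaneous lifting -/
theorem sim_liftS {F A I : Type*} [Field F] [CharZero F] [Fintype A] [DecidableEq A] [Finite I]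
    {S : Subalgebra F F⟦X⟧} {T : F⟦X⟧} {B : Matrix A A F⟦X⟧} (hT : constantCoeff T ≠ 0)
    (hS : DS T S) (hB : ∀ i j, B i j ∈ S) {y : I → A → F⟦X⟧}
    (ode : ∀ j, T • (fun a => d⁄dX F (y j a)) = B *ᵥ y j) {b : A → F}
    (h : ∀ j, InRel S (y j) b) :
    ∃ l : A → F⟦X⟧, (∀ a, l a ∈ S) ∧ (∀ a, constantCoeff (l a) = b a) ∧ ∀ j, l ⬝ᵥ y j = 0 := by
  have o1 : ∀ j, T • (fun a => d⁄dX F (y j a)) + (-B) *ᵥ y j = 0 := fun j => by
    rw [ode, neg_mulVec, add_neg_cancel]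
  have hB' : ∀ i j, (-B) i j ∈ S := fun i j => neg_mem (hB i j)
  have s1 := fun j => fib_st hS hB' (N := {y j}) fun l hl => Or.inl (hl ▸ o1 j)
  simp only [transpose_neg, neg_neg] at s1
  have s2 := fun j => fib_st hS (B := Bᵀ) (fun i j => hB j i) (N := fibP S {y j})
    fun l hl => Or.inr (s1 j l hl)
  simp only [transpose_transpose] at s2
  have s3 := fun j => fib_st hS hB'
    (N := (fibP S (fibP S {y j} : Set (A → F⟦X⟧)) : Set (A → F⟦X⟧)))
    fun l hl => Or.inr (s2 j l hl)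
  obtain ⟨H, a1, a2, a3⟩ := fibreS (⨆ j, fibP S (fibP S {y j} : Set (A → F⟦X⟧))) (T := T) (B := -B) (v := b)
    (fun x hx => Submodule.iSup_induction _ (motive := fun x => ∀ i, x i ∈ S) hx
      (fun j x hx => hx.1) (fun _ => zero_mem _) fun x x' h h' i => add_mem (h i) (h' i))
    (fun x hx => Submodule.iSup_induction _ (motive := fun x => T • (fun i => d⁄dX F (x i)) +
      (-B) *ᵥ x ∈ ⨆ j, fibP S (fibP S {y j} : Set (A → F⟦X⟧))) hx
      (fun j x hx => Submodule.mem_iSup_of_mem j (s2 j x hx)) (by simp [← Pi.zero_def])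
      fun x x' h h' => by
        convert add_mem h h' using 1
        ext1 a
        simp only [Pi.add_apply, Pi.smul_apply, map_add, mulVec_add, smul_add]
        abel) hT
    fun x hx => Submodule.iSup_induction _
      (motive := fun x => (fun i => constantCoeff (x i)) ⬝ᵥ b = 0) hx (fun j x hx => by
        obtain ⟨l, l1, l2, l3⟩ := h j
        have := congrArg constantCoeff (hx.2 l ⟨l1, fun _ e => e ▸ (dotProduct_comm _ _).trans l3⟩)
        rwa [fib_dot, map_zero, funext l2, dotProduct_comm] at this)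
      (by simp [← Pi.zero_def]) fun x x' h h' => by
        simp only [Pi.add_apply, map_add]
        exact (add_dotProduct _ _ _).trans (by rw [h, h', add_zero])
  refine ⟨H, a1, a3, fun j => ?_⟩
  obtain ⟨x, b1, b2, b3⟩ := fibreS (fibP S {y j}) (fun x hx => hx.1) (s1 j) hT
    (v := fun a => constantCoeff (y j a)) fun l hl => by
      rw [← fib_dot, dotProduct_comm, hl.2 _ rfl, map_zero]
  have key : ∀ n, ∀ K ∈ fibP S (fibP S (fibP S {y j} : Set (A → F⟦X⟧)) : Set (A → F⟦X⟧)),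
      X ^ n ∣ y j ⬝ᵥ K := by
    intro n
    induction n with
    | zero => simp
    | succ n ih =>
      intro K hK
      refine fib_step ?_ ((isUnit_iff_constantCoeff.2 hT.isUnit).dvd_mul_left.1 ?_)
      · rw [fib_dot, ← funext b3, ← fib_dot, hK.2 x ⟨b1, b2⟩, map_zero]
      · rw [fib_der (-B), o1, zero_dotProduct, zero_add]
        exact ih _ (s3 j K hK)
  rw [dotProduct_comm]
  exact fib_all fun n => key n H ⟨a1, fun l hl => a2 l (Submodule.mem_iSup_of_mem j hl)⟩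

end

end Pool.Agent.Lib.MP_5591bc_ag.C
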