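import Pool.Agent.Lib.MP_5591bc_ag.C.Brg
import Pool.Agent.Lib.MP_5591bc_ag.C.Fib
import Pool.Agent.Lib.MP_5591bc_ag.W.DescA
import Pool.Agent.Lib.MP_5591bc_ag.D.Pi

/-! Descent of a relation from the centre of a disc to a point of the disc. -/

namespace Pool.Agent.Lib.MP_5591bc_ag.C

open Matrix Finset Filter Topology PowerSeries G R H Function
open D (repL repL_coeff repL_mul repL_poly)

noncomputable section

theorem descA_inj {F : Type*} [Field F] [Algebra F ℂ] : Injective (W.mpK F) :=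
  PowerSeries.map_injective _ (algebraMap F ℂ).injective

theorem descA_der {F : Type*} [Field F] [Algebra F ℂ] (f : F⟦X⟧) :
    W.mpK F (d⁄dX F f) = d⁄dX ℂ (W.mpK F f) := by
  ext n
  simp [coeff_derivative]

theorem descA_mem {F κ : Type*} [Field F] [Algebra F ℂ] (π : Module.Dual F ℂ) (x : F)
    (Ψ : κ → F⟦X⟧) (q : MvPolynomial κ (Polynomial ℂ)) :
    repL π (evS (algebraMap F ℂ x) (fun a => W.mpK F (Ψ a)) q) ∈ SR Ψ := by
  induction q using MvPolynomial.induction_on with
  | C p =>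
    obtain ⟨r, hr⟩ := repL_poly π x p
    rw [evS, MvPolynomial.eval₂Hom_C]
    exact (show tk x r = _ from hr) ▸ tk_mem_SR x Ψ r
  | add p q hp hq => rw [map_add, map_add]; exact add_mem hp hq
  | mul_X p a hp =>
    rw [map_mul, evS, MvPolynomial.eval₂Hom_X', repL_mul]
    exact mul_mem hp (Algebra.subset_adjoin (Or.inr ⟨a, rfl⟩))

theorem desc_absS {F A κ : Type*} [Field F] [Algebra F ℂ] [CharZero F] [Fintype A] [DecidableEq A]
    [Fintype κ] {T τ : Polynomial F} {B : Matrix A A (Polynomial F)}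
    {Bu : Matrix κ κ (Polynomial F)} {D : Set ℂ} (ho : IsOpen D) (hc : IsPreconnected D) {s : ℂ}
    (hs : s ∈ D) (hTs : Polynomial.aeval s T ≠ 0) {x : F} (hx : algebraMap F ℂ x ∈ D)
    (hTx : T.eval x ≠ 0) {g y : ℂ → A → ℂ} {u : ℂ → κ → ℂ}
    (hg : ∀ a, DifferentiableOn ℂ (g · a) D) (hy : ∀ a, DifferentiableOn ℂ (y · a) D)
    (hu : ∀ a, DifferentiableOn ℂ (u · a) D)
    (odeY : ∀ t ∈ D, ∀ a, Polynomial.aeval t T * deriv (y · a) t =
      ∑ b, Polynomial.aeval t (B a b) * y t b)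
    (odeU : ∀ t ∈ D, ∀ a, Polynomial.aeval t T * deriv (u · a) t =
      ∑ b, Polynomial.aeval t (Bu a b) * u t b)
    {Φ : A → F⟦X⟧} (hΦ : ∀ a, tay (g · a) (algebraMap F ℂ x) = W.mpK F (Φ a))
    (odeΦ : IsS (tk x) T (τ • 1 - Bᵀ) Φ) {Ψ : κ → F⟦X⟧}
    (hΨ : ∀ a, tay (u · a) (algebraMap F ℂ x) = W.mpK F (Ψ a))
    {q : A → MvPolynomial κ (Polynomial ℂ)}
    (hq : ∀ᶠ t in 𝓝 s, ∑ a, vl u (q a) t * g t a = 0) (hq0 : ∀ a, vl u (q a) s = y s a) :
    ∃ h : A → MvPolynomial κ (Polynomial F),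
      (∀ a, constantCoeff (evS x Ψ (h a)) = constantCoeff (Φ a)) ∧
      ∀ t ∈ D, ∑ a, vl u (h a) t * y t a = 0 := by
  have nx := ho.mem_nhds hx
  have ns := ho.mem_nhds hs
  have ua : ∀ a, AnalyticAt ℂ (u · a) (algebraMap F ℂ x) := fun a => (hu a).analyticAt nx
  have oΨ : IsS (tk x) T Bu Ψ := fun a => descA_inj (by
    have := tay_congr (p := algebraMap F ℂ x) (mem_of_superset nx fun t ht => odeU t ht a)
    rw [tay_mul (W.ser_pol _ _) (ua a).deriv, tay_deriv, W.ser_tay, hΨ,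
      tay_sum _ fun b _ => (W.ser_pol _ _).fun_mul (ua b)] at this
    rw [map_mul, descA_der, this, map_sum]
    exact sum_congr rfl fun b _ => by
      rw [tay_mul (W.ser_pol _ _) (ua b), W.ser_tay, hΨ, map_mul])
  have dS := DS_SR oΨ
  let M : Submodule (SR Ψ) (A → F⟦X⟧) :=
    { carrier := {ρ | (∀ a, ρ a ∈ SR Ψ) ∧ ρ ⬝ᵥ Φ = 0}
      add_mem' := fun {a b} ha hb => ⟨fun i => add_mem (ha.1 i) (hb.1 i), by
        rw [add_dotProduct, ha.2, hb.2, add_zero]⟩
      zero_mem' := ⟨fun _ => zero_mem _, zero_dotProduct _⟩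
      smul_mem' := fun c a ha => ⟨fun i => mul_mem c.2 (ha.1 i), by
        rw [smul_dotProduct, ha.2, smul_zero]⟩ }
  have dd : ∀ ρ H : A → F⟦X⟧, d⁄dX F (ρ ⬝ᵥ H) =
      (fun a => d⁄dX F (ρ a)) ⬝ᵥ H + ρ ⬝ᵥ fun a => d⁄dX F (H a) := fun ρ H => by
    simp only [dotProduct, map_sum, Derivation.leibniz, smul_eq_mul, ← sum_add_distrib]
    exact sum_congr rfl fun a _ => by ring
  have hM : ∀ ρ ∈ M, tk x T • (fun a => d⁄dX F (ρ a)) + (tk x τ • 1 - B.map (tk x)) *ᵥ ρ ∈ M :=
    fun ρ h => ⟨fun a => add_mem (dS _ (h.1 a)) (sum_mem fun b _ => mul_mem (by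
      beta_reduce
      rw [Matrix.sub_apply, Matrix.smul_apply, one_apply, map_apply]
      refine sub_mem (mul_mem (tk_mem_SR _ _ _) ?_) (tk_mem_SR _ _ _)
      split_ifs
      exacts [one_mem _, zero_mem _]) (h.1 b)), by
      have b1 : tk x T • (fun a => d⁄dX F (Φ a)) = Φ ᵥ* (tk x τ • 1 - B.map (tk x)) :=
        funext fun a => (odeΦ a).trans (sum_congr rfl fun b _ => by
          simp [one_apply, apply_ite, eq_comm, mul_comm])
      have b2 := congrArg (d⁄dX F) h.2
      rw [dd, map_zero] at b2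
      rw [add_dotProduct, dotProduct_comm (_ *ᵥ ρ), dotProduct_mulVec, ← b1, smul_dotProduct,
        smul_dotProduct, dotProduct_comm _ ρ, ← smul_add, b2, smul_zero]⟩
  obtain ⟨H, H1, H2, H3⟩ := fibreS M (fun ρ h => h.1) hM (by
      rwa [tk_apply, Polynomial.constantCoeff_coe, Polynomial.taylor_coeff_zero])
    (v := fun a => constantCoeff (Φ a)) fun ρ h => by
      simpa [dotProduct] using congrArg constantCoeff h.2
  choose h hh using fun a => (mem_SR x).1 (H1 a)
  refine ⟨h, fun a => by rw [hh, H3], ?_⟩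
  have dif : ∀ p : A → MvPolynomial κ (Polynomial F),
      DifferentiableOn ℂ (fun t => ∑ a, vl u (p a) t * y t a) D := fun p =>
    DifferentiableOn.fun_sum fun a _ => (vl_diff hu _).fun_mul (hy a)
  have idx : ∀ {f : ℂ → ℂ}, DifferentiableOn ℂ f D → tay f (algebraMap F ℂ x) = 0 →
      ∀ t ∈ D, f t = 0 := fun hf h0 => ident ho hc hf (differentiableOn_const 0) hx
    (eventually_zero_of_tay (hf.analyticAt nx) h0)
  have tq : ∀ a, tay (vl u (q a)) (algebraMap F ℂ x) =
      evS (algebraMap F ℂ x) (fun a => W.mpK F (Ψ a)) (q a) := fun a => by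
    simp only [(tay_vl ua _).2, hΨ]
  have a1 : ∑ a, tay (vl u (q a)) (algebraMap F ℂ x) * W.mpK F (Φ a) = 0 := by
    have b1 := ident ho hc (DifferentiableOn.fun_sum fun a _ => (vl_diff hu (q a)).fun_mul (hg a))
      (differentiableOn_const 0) hs hq
    have b3 := tay_congr (p := algebraMap F ℂ x) (mem_of_superset nx b1)
    rw [tay_const, map_zero, tay_sum _ fun a _ =>
      (tay_vl ua _).1.fun_mul ((hg a).analyticAt nx)] at b3
    rw [← b3]
    exact sum_congr rfl fun a _ => by rw [tay_mul (tay_vl ua _).1 ((hg a).analyticAt nx), hΦ]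
  have key := iov (p := s) (T := fun t => Polynomial.aeval t T)
    (F := (fun (h : A → MvPolynomial κ (Polynomial F)) t => ∑ a, vl u (h a) t * y t a) ''
      {h | ∀ ρ ∈ M, ρ ⬝ᵥ (fun a => evS x Ψ (h a)) = 0}) (W.ser_pol _ _) hTs ?_ ?_ ?_ _
      ⟨h, fun ρ hρ => by simpa only [hh] using H2 ρ hρ, rfl⟩
  · exact ident ho hc (dif h) (differentiableOn_const 0) hs key
  · rintro _ ⟨h, -, rfl⟩
    exact (dif h).analyticAt ns
  · rintro _ ⟨h, hh, rfl⟩
    have b1 := idx (DifferentiableOn.fun_sum fun a (_ : a ∈ univ) =>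
      (vl_diff hu (q a)).fun_mul (vl_diff hu (h a))) (by
        rw [tay_sum _ fun a _ => (tay_vl ua _).1.fun_mul ((vl_diff hu _).analyticAt nx)]
        ext n
        refine (Module.forall_dual_apply_eq_zero_iff F _).1 fun π => ?_
        have c1 := hh (fun a => repL π (tay (vl u (q a)) (algebraMap F ℂ x)))
          ⟨fun a => by simp only [tq]; exact descA_mem π x Ψ _, by
            simpa only [map_sum, repL_mul, map_zero, dotProduct] using congrArg (repL π) a1⟩
        rw [← repL_coeff, map_sum (repL π)]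
        refine (congrArg (coeff n) (Eq.trans (sum_congr rfl fun a _ => ?_) c1)).trans (map_zero _)
        rw [tay_mul (tay_vl ua _).1 ((vl_diff hu _).analyticAt nx), tay_vlK ua hΨ, repL_mul]) s hs
    simpa only [hq0, mul_comm] using b1
  · rintro _ ⟨h, hh, rfl⟩
    choose h' hh' using fun a => (mem_SR x).1 (dS _ ((mem_SR x).2 ⟨h a, rfl⟩))
    have e1 : ∀ a, ∀ t ∈ D, Polynomial.aeval t T * deriv (vl u (h a)) t - vl u (h' a) t = 0 :=
      fun a => idx ((T.differentiable_aeval.differentiableOn.fun_mul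
        ((vl_diff hu _).deriv ho)).fun_sub (vl_diff hu _)) (by
        have c1 := (vl_diff hu (h a)).analyticAt nx
        rw [tay_sub ((W.ser_pol _ _).fun_mul c1.deriv) ((vl_diff hu _).analyticAt nx),
          tay_mul (W.ser_pol _ _) c1.deriv, tay_deriv, W.ser_tay, tay_vlK ua hΨ, tay_vlK ua hΨ, hh',
          map_mul, descA_der, sub_self])
    refine ⟨_, ⟨fun a => h' a + ∑ b, h b * MvPolynomial.C (B b a), fun ρ hρ => ?_, rfl⟩, ?_⟩
    · have b1 := hh _ (hM ρ hρ)
      have b2 := congrArg (d⁄dX F) (hh ρ hρ)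
      rw [dd, map_zero] at b2
      have b3 : (fun a => evS x Ψ (h' a + ∑ b, h b * MvPolynomial.C (B b a))) =
          tk x T • (fun a => d⁄dX F (evS x Ψ (h a))) + (fun a => evS x Ψ (h a)) ᵥ* B.map (tk x) :=
        funext fun a => by
          rw [map_add, hh', map_sum]
          refine congrArg₂ _ rfl (sum_congr rfl fun b _ => ?_)
          rw [map_mul, evS, MvPolynomial.eval₂Hom_C]
          rfl
      rw [sub_mulVec, smul_mulVec, one_mulVec, add_dotProduct, sub_dotProduct, smul_dotProduct,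
        smul_dotProduct, hh ρ hρ, smul_zero, smul_eq_mul, dotProduct_comm (_ *ᵥ ρ),
        dotProduct_mulVec] at b1
      rw [b3, dotProduct_add, dotProduct_smul, smul_eq_mul, dotProduct_comm ρ (_ ᵥ* _)]
      linear_combination tk x T * b2 - b1
    · filter_upwards [ns] with t ht
      have n1 := ho.mem_nhds ht
      have b1 : ∀ a, DifferentiableAt ℂ (y · a) t := fun a => (hy a).differentiableAt n1
      have b0 : ∀ a, DifferentiableAt ℂ (vl u (h a)) t := fun a =>
        (vl_diff hu _).differentiableAt n1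
      have b2 : ∀ a, Polynomial.aeval t T * deriv (fun t => vl u (h a) t * y t a) t =
          vl u (h' a) t * y t a + ∑ b, vl u (h a) t * (Polynomial.aeval t (B a b) * y t b) :=
        fun a => by
        rw [deriv_fun_mul (b0 a) (b1 a), ← mul_sum, ← odeY t ht, ← sub_eq_zero.1 (e1 a t ht)]
        ring
      rw [deriv_fun_sum fun a _ => (b0 a).fun_mul (b1 a), mul_sum]
      simp only [b2]
      simp only [sum_add_distrib, vl, MvPolynomial.eval₂_add, MvPolynomial.eval₂_sum,
        MvPolynomial.eval₂_mul, MvPolynomial.eval₂_C, add_mul, sum_mul, mul_assoc]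
      rw [sum_comm]
      rfl

end

end Pool.Agent.Lib.MP_5591bc_ag.C
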