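import Pool.Agent.Lib.MP_5591bc_ag.C.Set

/-! Relations over a stable algebra and the generic point of the Galois group. -/

namespace Pool.Agent.Lib.MP_5591bc_ag.C

open Matrix Finset Filter Topology PowerSeries G R H Function
open scoped TensorProduct

noncomputable section

variable {n : Type*} [Fintype n] [DecidableEq n] {S : Subalgebra ℂ ℂ⟦X⟧} {T : ℂ⟦X⟧}
  {B Y : Matrix n n ℂ⟦X⟧}

omit [DecidableEq n] in
theorem galA_der (ode : T • Y.map (d⁄dX ℂ) = B * Y) (l : n → ℂ⟦X⟧) (u : n → ℂ) :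
    T * d⁄dX ℂ (l ⬝ᵥ (Y *ᵥ fun j => C (u j))) =
      (fun j => T * d⁄dX ℂ (l j) + (l ᵥ* B) j) ⬝ᵥ (Y *ᵥ fun j => C (u j)) := by
  have e1 : ∀ j, T * d⁄dX ℂ ((Y *ᵥ fun j => C (u j)) j) =
      (B *ᵥ (Y *ᵥ fun j => C (u j))) j := fun j => by
    rw [mulVec_mulVec, ← ode]
    simp [mulVec, dotProduct, Finset.mul_sum, mul_comm, mul_left_comm]
  rw [show (fun j => T * d⁄dX ℂ (l j) + (l ᵥ* B) j) =
    (fun j => T * d⁄dX ℂ (l j)) + l ᵥ* B from rfl, add_dotProduct, ← dotProduct_mulVec,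
    ← funext e1]
  simp only [dotProduct, map_sum, Finset.mul_sum, ← Finset.sum_add_distrib, Derivation.leibniz,
    smul_eq_mul]
  exact Finset.sum_congr rfl fun j _ => by ring

theorem galS_tay (hT : constantCoeff T ≠ 0) (hS : DS T S) (hB : ∀ i j, B i j ∈ S)
    (h0 : Y.map constantCoeff = 1) (ode : T • Y.map (d⁄dX ℂ) = B * Y) {y u : n → ℂ}
    (hu : ∀ b, InRel S (Y *ᵥ fun j => C (y j)) b → b ⬝ᵥ u = 0) {l : n → ℂ⟦X⟧} (hl : ∀ j, l j ∈ S)
    (h : l ⬝ᵥ (Y *ᵥ fun j => C (y j)) = 0) : l ⬝ᵥ (Y *ᵥ fun j => C (u j)) = 0 := by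
  refine V.gal_zero hT (S := (fun l : n → ℂ⟦X⟧ => l ⬝ᵥ (Y *ᵥ fun j => C (u j))) ''
      {l | (∀ j, l j ∈ S) ∧ l ⬝ᵥ (Y *ᵥ fun j => C (y j)) = 0}) ?_ ?_ _ ⟨l, ⟨hl, h⟩, rfl⟩
  · rintro _ ⟨l, hl, rfl⟩
    have e : ∀ i j, constantCoeff (Y i j) = (1 : Matrix n n ℂ) i j := fun i j => congrFun₂ h0 i j
    rw [← hu _ ⟨l, hl.1, fun _ => rfl, hl.2⟩]
    simp [dotProduct, mulVec, e, one_apply]
  · rintro _ ⟨l, hl, rfl⟩
    refine ⟨_, ⟨fun j => S.add_mem (hS _ (hl.1 j))
      (S.sum_mem fun i _ => S.mul_mem (hl.1 i) (hB i j)), ?_⟩, (galA_der ode l u).symm⟩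
    refine (galA_der ode l y).symm.trans ?_
    rw [hl.2, map_zero, mul_zero]

/-- relations over `S` of a vector of power series -/
def galARel (S : Subalgebra ℂ ℂ⟦X⟧) (y : n → ℂ⟦X⟧) : Submodule ℂ (n → S) where
  carrier := {l | (fun j => (l j : ℂ⟦X⟧)) ⬝ᵥ y = 0}
  add_mem' := fun {a b} ha hb => by
    simp only [Set.mem_ofPred_eq, dotProduct, Pi.add_apply, Subalgebra.coe_add, add_mul,
      Finset.sum_add_distrib] at *
    rw [ha, hb, add_zero]
  zero_mem' := by simp [dotProduct]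
  smul_mem' := fun c a ha => by
    simp only [Set.mem_ofPred_eq, dotProduct, Pi.smul_apply, Subalgebra.coe_smul, smul_mul_assoc,
      ← Finset.smul_sum] at *
    rw [ha, smul_zero]

/-- the value at the origin -/
def galAev (S : Subalgebra ℂ ℂ⟦X⟧) : S →ₗ[ℂ] ℂ where
  toFun p := constantCoeff (p : ℂ⟦X⟧)
  map_add' p q := by simp
  map_smul' c p := by simp

/-- a projector on the fibre of the module of relations, with lifted rows -/
theorem galA_proj (S : Subalgebra ℂ ℂ⟦X⟧) (y : n → ℂ⟦X⟧) : ∃ H : Matrix n n S,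
    (∀ i, H i ∈ galARel S y) ∧ ∀ b, InRel S y b → b ᵥ* H.map (galAev S) = b := by
  let ev : (n → S) →ₗ[ℂ] n → ℂ := LinearMap.pi fun j => (galAev S ∘ₗ LinearMap.proj j)
  obtain ⟨Q, hQ⟩ := ((galARel S y).map ev).exists_isCompl
  let π := Submodule.projectionOnto _ _ hQ
  choose H h1 h2 using fun i => (π (Pi.single i 1)).2
  refine ⟨of H, h1, fun b ⟨l, l1, l2, l3⟩ => ?_⟩
  have a1 : (π b : n → ℂ) = b := congrArg Subtype.val
    (Submodule.projectionOnto_apply_left hQ ⟨b, fun j => ⟨l j, l1 j⟩, l3, funext l2⟩)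
  refine Eq.trans ?_ a1
  conv_rhs => rw [pi_eq_sum_univ' b, map_sum, Submodule.coe_sum]
  ext j
  simp only [map_smul, Submodule.coe_smul, ← h2, vecMul, dotProduct, Finset.sum_apply]
  rfl

/-- elements of `S` in a `k`-algebra -/
def pkS (S : Subalgebra ℂ ℂ⟦X⟧) (k D : Type*) [Field k] [Algebra S k] [CommRing D] [Algebra k D] :
    S →+* D := (algebraMap k D).comp (algebraMap S k)

/-- constants in a `k`-algebra -/
def ckS (S : Subalgebra ℂ ℂ⟦X⟧) (k D : Type*) [Field k] [Algebra S k] [CommRing D] [Algebra k D] :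
    ℂ →+* D := (pkS S k D).comp (algebraMap ℂ S)

variable {k R L : Type*} [Field k] [Algebra S k] [CommRing R] [Algebra k R] [CommRing L]
  [Algebra k L] {ι : ℂ⟦X⟧ →+* L} {v : R →ₐ[k] L}

theorem galS_lift [IsFractionRing S k] [IsDomain L] (hι : Injective ι)
    (hc : ∀ p : S, ι p = pkS S k L p) (hT : constantCoeff T ≠ 0) (hS : DS T S)
    (hB : ∀ i j, B i j ∈ S) (h0 : Y.map constantCoeff = 1) (ode : T • Y.map (d⁄dX ℂ) = B * Y)
    {Yr Yi : Matrix n n R} (hY : Yr.map v = Y.map ι) (hi : Yi * Yr = 1) (y b : n → ℂ)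
    (h : (fun j => ckS S k (R ⊗[k] R) (b j)) ⬝ᵥ ((Yi.map Algebra.TensorProduct.includeLeftRingHom *
      Yr.map (Algebra.TensorProduct.includeRight (R := k) (A := R) (B := R))) *ᵥ
        fun j => ckS S k (R ⊗[k] R) (y j)) = 0) : InRel S (Y *ᵥ fun j => C (y j)) b := by
  obtain ⟨H, h1, h2⟩ := galA_proj S (Y *ᵥ fun j => C (y j))
  have cC : ∀ c : ℂ, ι (C c) = ckS S k L c := fun c => hc (algebraMap ℂ S c)
  have vC : ∀ c : ℂ, v (ckS S k R c) = ckS S k L c := fun c => v.commutes _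
  have vY : ∀ (u : n → ℂ) j, v ((Yr *ᵥ fun j => ckS S k R (u j)) j) =
      ι ((Y *ᵥ fun j => C (u j)) j) := fun u j => by
    simp only [mulVec, dotProduct, map_sum, map_mul, vC, cC]
    exact Finset.sum_congr rfl fun i _ => congrArg (· * _) (congrFun₂ hY j i)
  have key : ∀ u : n → ℂ, (∀ l, InRel S (Y *ᵥ fun j => C (y j)) l → l ⬝ᵥ u = 0) →
      b ⬝ᵥ u = 0 := fun u hu => by
    have a1 := V.gal_ext (k := k) v (a := (fun j => ckS S k R (b j)) ᵥ* Yi)
      (y := Yr *ᵥ fun j => ckS S k R (y j)) (z := fun j => ι ((Y *ᵥ fun j => C (u j)) j)) ?_ ?_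
    · have a2 : v (((fun j => ckS S k R (b j)) ᵥ* Yi) ⬝ᵥ (Yr *ᵥ fun j => ckS S k R (u j))) = 0 := by
        rw [← a1, dotProduct, map_sum]
        exact Finset.sum_congr rfl fun j _ => by rw [map_mul, vY]
      rw [← dotProduct_mulVec, mulVec_mulVec, hi, one_mulVec] at a2
      refine (map_eq_zero_iff (ckS S k L) (RingHom.injective _)).1 (Eq.trans ?_ a2)
      simp only [dotProduct, map_sum, map_mul, vC]
    · rw [← h, ← mulVec_mulVec, dotProduct_mulVec, dotProduct]
      refine Finset.sum_congr rfl fun j _ => ?_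
      rw [← mul_one (((fun j => ckS S k R (b j)) ᵥ* Yi) j), ← one_mul ((Yr *ᵥ _) j),
        ← Algebra.TensorProduct.tmul_mul_tmul]
      congr 1
      · simp only [vecMul, dotProduct, TensorProduct.sum_tmul]
        refine Finset.sum_congr rfl fun i _ => ?_
        rw [← mul_one (1 : R), ← Algebra.TensorProduct.tmul_mul_tmul]
        rfl
      · simp only [mulVec, dotProduct, TensorProduct.tmul_sum]
        refine Finset.sum_congr rfl fun i _ => ?_
        rw [← mul_one (1 : R), ← Algebra.TensorProduct.tmul_mul_tmul]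
        exact congrArg _ ((Algebra.TensorProduct.includeRight (R := k) (A := R) (B := R)).commutes _)
    · intro l hl
      obtain ⟨d, hd⟩ := IsLocalization.exist_integer_multiples_of_finite
        (nonZeroDivisors S) l
      choose p hp using hd
      have a3 : ∀ z : n → ℂ⟦X⟧, ι ((fun j => (p j : ℂ⟦X⟧)) ⬝ᵥ z) =
          algebraMap _ k (d : S) • ∑ j, l j • ι (z j) := fun z => by
        simp only [dotProduct, map_sum, map_mul, hc, Finset.smul_sum, smul_smul]
        refine Finset.sum_congr rfl fun j _ => ?_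
        rw [← Algebra.smul_def, ← hp, Algebra.smul_def]
        rfl
      have a4 : p ∈ galARel S (Y *ᵥ fun j => C (y j)) := hι (by
        have := congrArg v hl
        simp only [map_sum, map_smul, vY] at this
        rw [a3, this, map_zero, map_zero, smul_zero])
      have a5 := a3 (Y *ᵥ fun j => C (u j))
      rw [show _ ⬝ᵥ _ = _ from galS_tay hT hS hB h0 ode hu (fun j => (p j).2) a4, map_zero, eq_comm,
        smul_eq_zero] at a5
      exact a5.resolve_left (IsFractionRing.to_map_ne_zero_of_mem_nonZeroDivisors d.2)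
  have a6 : b ᵥ* (1 - H.map (galAev S)) = 0 := funext fun j => key
    (fun i => (1 - H.map (galAev S)) i j) fun l hl => by
      have := congrFun (vecMul_sub (1 : Matrix n n ℂ) (H.map (galAev S)) l) j
      rwa [h2 l hl, vecMul_one, sub_self] at this
  refine ⟨fun j => ((∑ i, b i • H i) j : S), fun j => Subtype.property _, fun j => ?_,
    (galARel S _).sum_mem fun i _ => Submodule.smul_mem _ _ (h1 i)⟩
  rw [vecMul_sub, vecMul_one, sub_eq_zero] at a6
  rw [congrFun a6 j]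
  change galAev S _ = _
  simp [vecMul, dotProduct]

theorem galS_conv [IsDomain (R ⊗[k] R)] (hι : Injective ι) (hv : Injective v)
    (hc : ∀ p : S, ι p = pkS S k L p) (hT : constantCoeff T ≠ 0) (hS : DS T S)
    (hB : ∀ i j, B i j ∈ S) (h0 : Y.map constantCoeff = 1) (ode : T • Y.map (d⁄dX ℂ) = B * Y)
    {Yr Yi : Matrix n n R} (hY : Yr.map v = Y.map ι) (hi : Yi * Yr = 1) (y b : n → ℂ)
    (h : InRel S (Y *ᵥ fun j => C (y j)) b) :
    (fun j => ckS S k (R ⊗[k] R) (b j)) ⬝ᵥ ((Yi.map Algebra.TensorProduct.includeLeftRingHom *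
      Yr.map (Algebra.TensorProduct.includeRight (R := k) (A := R) (B := R))) *ᵥ
        fun j => ckS S k (R ⊗[k] R) (y j)) = 0 := by
  obtain ⟨H, h1, h2⟩ := galA_proj S (Y *ᵥ fun j => C (y j))
  obtain ⟨E, hE⟩ : ∃ E, E = H.map (galAev S) := ⟨_, rfl⟩
  rw [← hE] at h2
  have cC : ∀ c : ℂ, ι (C c) = ckS S k L c := fun c => hc (algebraMap ℂ S c)
  have vC : ∀ c : ℂ, v (ckS S k R c) = ckS S k L c := fun c => v.commutes _
  have vP : ∀ p, v (pkS S k R p) = ι p := fun p => (v.commutes _).trans (hc p).symm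
  have a1 : (1 - E) * E = 0 := by
    rw [Matrix.sub_mul, Matrix.one_mul, sub_eq_zero]
    ext i j
    have := congrFun (h2 _ ⟨_, fun j => (H i j).2, fun _ => rfl, h1 i⟩) j
    rw [hE] at this ⊢
    exact this.symm
  have a2 : H.map (fun p => (p : ℂ⟦X⟧)) * Y * (1 - E).map C = 0 := by
    ext1 i j
    rw [Matrix.mul_assoc]
    refine galS_tay hT hS hB h0 ode (u := fun i => (1 - E) i j) (fun l hl => ?_)
      (fun j => (H i j).2) (h1 i)
    have := congrFun (vecMul_sub (1 : Matrix n n ℂ) E l) j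
    rwa [h2 l hl, vecMul_one, sub_self] at this
  obtain ⟨Z, hZ⟩ : ∃ Z, Z = H.map (fun p => (p : ℂ⟦X⟧)) * Y + (1 - E).map C := ⟨_, rfl⟩
  have a3 : Z * E.map C = H.map (fun p => (p : ℂ⟦X⟧)) * Y := by
    rw [hZ, Matrix.add_mul, ← Matrix.map_mul, a1, Matrix.map_zero _ (map_zero _), add_zero]
    rwa [Matrix.map_sub _ (map_sub _), Matrix.map_one _ (map_zero _) (map_one _), Matrix.mul_sub,
      Matrix.mul_one, sub_eq_zero, eq_comm] at a2
  have a4 : Z.det ≠ 0 := fun e => by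
    have b1 : Z.map constantCoeff = 1 := by
      rw [hZ, Matrix.map_add _ (map_add _), Matrix.map_mul, h0, Matrix.mul_one]
      ext i j
      have : galAev S (H i j) = constantCoeff (H i j : ℂ⟦X⟧) := rfl
      simp [hE, this]
    have := (constantCoeff (R := ℂ)).map_det Z
    rw [e, map_zero, RingHom.mapMatrix_apply, b1, det_one] at this
    exact zero_ne_one this
  obtain ⟨W, hW⟩ : ∃ W, W = H.map (pkS S k R) * Yr + (1 - E).map (ckS S k R) := ⟨_, rfl⟩
  have a5 : (H.map (pkS S k R) * Yr).map v = (H.map (fun p => (p : ℂ⟦X⟧)) * Y).map ι := by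
    rw [Matrix.map_mul, Matrix.map_mul, hY]
    exact congrArg (· * _) (Matrix.ext fun i j => vP _)
  have a6 : ∀ M : Matrix n n ℂ, (M.map (ckS S k R)).map v = (M.map C).map ι := fun M =>
    Matrix.ext fun i j => (vC _).trans (cC _).symm
  have a7 : W.map v = Z.map ι := by
    rw [hW, hZ, Matrix.map_add _ (map_add _), Matrix.map_add _ (map_add _), a5, a6]
  have a8 : W * E.map (ckS S k R) = H.map (pkS S k R) * Yr := Matrix.map_injective hv (by
    change Matrix.map _ v = Matrix.map _ v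
    rw [Matrix.map_mul, a7, a6, ← Matrix.map_mul, a3, a5])
  let il : R →+* R ⊗[k] R := Algebra.TensorProduct.includeLeftRingHom
  let ir : R →ₐ[k] R ⊗[k] R := Algebra.TensorProduct.includeRight
  have a9 : (W.map il).det ≠ 0 := fun e => a4 (hι (by
    have b1 := congrArg (Algebra.TensorProduct.lmul' k) ((il.map_det W).trans e)
    have b2 := v.toRingHom.map_det W
    rw [show Algebra.TensorProduct.lmul' k (il W.det) = W.det from mul_one _, map_zero] at b1
    rw [b1, map_zero] at b2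
    rw [ι.map_det, map_zero, b2]
    exact congrArg det a7.symm))
  have b3 : (H.map (pkS S k R) * Yr) *ᵥ (fun j => ckS S k R (y j)) = 0 := funext fun i => hv (by
    rw [Pi.zero_apply, map_zero, ← map_zero ι, ← show _ ⬝ᵥ _ = _ from h1 i]
    have : ∀ i j, v (Yr i j) = ι (Y i j) := congrFun₂ hY
    simp only [mulVec, dotProduct, map_sum, map_mul, this, vC, cC, vP, mul_apply, map_apply,
      Finset.sum_mul, Finset.mul_sum, mul_assoc]
    exact Finset.sum_comm)
  have b4 : E.map (ckS S k (R ⊗[k] R)) *ᵥ ((Yi.map il * Yr.map ir) *ᵥ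
      fun j => ckS S k (R ⊗[k] R) (y j)) = 0 := eq_zero_of_mulVec_eq_zero a9 (by
    have c1 : E.map (ckS S k (R ⊗[k] R)) = (E.map (ckS S k R)).map il := rfl
    have c2 : (H.map (pkS S k R)).map il = (H.map (pkS S k R)).map ir :=
      Matrix.ext fun i j => (ir.commutes _).symm
    rw [mulVec_mulVec, mulVec_mulVec, c1, ← Matrix.map_mul, a8, Matrix.map_mul, Matrix.mul_assoc,
      ← Matrix.mul_assoc (Yr.map il), ← Matrix.map_mul, mul_eq_one_comm.1 hi,
      Matrix.map_one _ (map_zero _) (map_one _), Matrix.one_mul, c2, ← Matrix.map_mul]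
    ext1 i
    rw [Pi.zero_apply, ← map_zero ir, ← show _ = (0 : R) from congrFun b3 i]
    simp only [mulVec, dotProduct, map_sum, map_mul, map_apply]
    exact Finset.sum_congr rfl fun j _ => congrArg _ (ir.commutes _).symm)
  have b5 : (fun j => ckS S k (R ⊗[k] R) (b j)) ᵥ* E.map (ckS S k (R ⊗[k] R)) =
      fun j => ckS S k (R ⊗[k] R) (b j) := funext fun j => by
    rw [← congrFun (h2 b h) j]
    simp [vecMul, dotProduct]
  rw [← b5, ← dotProduct_mulVec, b4, dotProduct_zero]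

end

end Pool.Agent.Lib.MP_5591bc_ag.C
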