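import Pool.Agent.Lib.MP_5591bc_ag.C.GalA

/-! The prime ideal of the Galois group over a stable algebra. -/

namespace Pool.Agent.Lib.MP_5591bc_ag.C

open Matrix Finset Filter Topology PowerSeries G R H Function

noncomputable section

section
open V
open scoped TensorProduct

variable {A : Type*} [Fintype A] [DecidableEq A] {S : Subalgebra ℂ ℂ⟦X⟧}

theorem galB_abs {k R L : Type} [Field k] [Algebra S k] [IsFractionRing S k] [CommRing R] [Algebra k R] [CommRing L] [Algebra k L]
    [IsDomain L] [IsDomain (R ⊗[k] R)] {ι : ℂ⟦X⟧ →+* L} {v : R →ₐ[k] L} (hι : Injective ι)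
    (hv : Injective v) (hc : ∀ p : S, ι p = pkS S k L p) {G : Matrix A A ℂ⟦X⟧}
    (h0 : G.map constantCoeff = 1) {Gr Gi : Matrix A A R} (hG : Gr.map v = G.map ι)
    (hi : Gi * Gr = 1) : ∃ I, GenS S G I := by
  let il : R →+* R ⊗[k] R := Algebra.TensorProduct.includeLeftRingHom
  let ir : R →ₐ[k] R ⊗[k] R := Algebra.TensorProduct.includeRight
  let μ : R ⊗[k] R →+* R := (Algebra.TensorProduct.lmul' k).toRingHom
  let σ : R ⊗[k] R →+* R ⊗[k] R := (Algebra.TensorProduct.comm k R R).toAlgHom.toRingHom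
  have cl : il.comp (ckS S k R) = ckS S k (R ⊗[k] R) := rfl
  have cr : ir.toRingHom.comp (ckS S k R) = ckS S k (R ⊗[k] R) := RingHom.ext fun c => ir.commutes _
  have cv : v.toRingHom.comp (ckS S k R) = ι.comp C := RingHom.ext fun c =>
    (v.commutes _).trans (hc _).symm
  have one : ∀ {D : Type} [CommRing D] (κ : ℂ →+* D) (p : MvPolynomial (A × A) ℂ),
      evm κ 1 p = κ (evm (RingHom.id ℂ) 1 p) := fun κ p => by
    rw [map_evm, Matrix.map_one _ (map_zero _) (map_one _), RingHom.comp_id]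
  refine ⟨RingHom.ker (evm (ckS S k (R ⊗[k] R)) (Gi.map il * Gr.map ir)), RingHom.ker_isPrime _,
    fun p hp => ?_, fun p hp q N hq => ?_, fun n _ _ ρ hρ T B hT hS hB ode y b => ?_⟩
  · have a1 := congrArg μ (RingHom.mem_ker.1 hp)
    have a2 : μ.comp (ckS S k (R ⊗[k] R)) = ckS S k R :=
      RingHom.ext fun c => (Algebra.TensorProduct.lmul' k).commutes _
    have a3 : (Gi.map il * Gr.map ir).map μ = 1 := by
      rw [Matrix.map_mul, ← hi]
      congr 1 <;> ext i j
      exacts [mul_one _, one_mul _]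
    have : Nontrivial R := v.toRingHom.domain_nontrivial
    rw [map_evm, a2, a3, one, map_zero] at a1
    exact (map_eq_zero_iff _ (RingHom.injective _)).1 a1
  · have a1 := congrArg σ (RingHom.mem_ker.1 hp)
    have a2 : σ.comp (ckS S k (R ⊗[k] R)) = ckS S k (R ⊗[k] R) :=
      RingHom.ext fun c => (Algebra.TensorProduct.comm k R R).commutes _
    have a3 : (Gi.map il * Gr.map ir).map σ = Gi.map ir * Gr.map il := by
      rw [Matrix.map_mul]
      rfl
    rw [map_evm, a2, a3, map_zero] at a1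
    rw [RingHom.mem_ker, hq _ _ _ (Gi.map ir * Gr.map il), a1, mul_zero]
    rw [Matrix.mul_assoc, ← Matrix.mul_assoc (Gr.map il), ← Matrix.map_mul, mul_eq_one_comm.1 hi,
      Matrix.map_one _ (map_zero _) (map_one _), Matrix.one_mul, ← Matrix.map_mul, hi,
      Matrix.map_one _ (map_zero _) (map_one _)]
  · have a1 : (ρ.map (evm C G)).map constantCoeff = 1 := by
      rw [← hρ.one, ← h0]
      ext i j
      exact (map_evm (constantCoeff (R := ℂ)) C G (ρ i j)).trans (by rw [constantCoeff_comp_C]; rfl)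
    have a2 : (ρ.map (evm (ckS S k R) Gr)).map v = (ρ.map (evm C G)).map ι := by
      ext i j
      refine (map_evm v.toRingHom _ _ _).trans (Eq.trans ?_ (map_evm ι _ _ _).symm)
      rw [cv, ← hG]
      rfl
    have a3 : ρ.map (evm (ckS S k R) Gi) * ρ.map (evm (ckS S k R) Gr) = 1 := by
      rw [← hρ.mul, hi]
      ext i j
      rw [map_apply, one, show evm _ 1 (ρ i j) = _ from congrFun₂ hρ.one i j]
      exact congrFun₂ (Matrix.map_one (ckS S k R) (map_zero _) (map_one _)) i j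
    have a4 : ρ.map (evm (ckS S k (R ⊗[k] R)) (Gi.map il * Gr.map ir)) =
        (ρ.map (evm (ckS S k R) Gi)).map il * (ρ.map (evm (ckS S k R) Gr)).map ir := by
      rw [hρ.mul]
      congr 1 <;> ext i j
      · exact (map_evm il (ckS S k R) Gi (ρ i j)).symm
      · exact Eq.trans (by rw [cr]; rfl) (map_evm ir.toRingHom (ckS S k R) Gr (ρ i j)).symm
    have a5 : evm (ckS S k (R ⊗[k] R)) (Gi.map il * Gr.map ir)
        ((fun j => MvPolynomial.C (b j)) ⬝ᵥ (ρ *ᵥ fun j => MvPolynomial.C (y j))) =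
        (fun j => ckS S k (R ⊗[k] R) (b j)) ⬝ᵥ (((ρ.map (evm (ckS S k R) Gi)).map il *
          (ρ.map (evm (ckS S k R) Gr)).map ir) *ᵥ fun j => ckS S k (R ⊗[k] R) (y j)) := by
      rw [← a4]
      simp only [dotProduct, mulVec, map_sum, map_mul, evm_C, map_apply]
    rw [RingHom.mem_ker, a5]
    exact ⟨galS_lift hι hc hT hS hB a1 ode a2 a3 y b, galS_conv hι hv hc hT hS hB a1 ode a2 a3 y b⟩

theorem galB_fld (k L : Type) [Field k] [Algebra S k] [IsFractionRing S k] [Field L] [Algebra k L]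
    {ι : ℂ⟦X⟧ →+* L} (hι : Injective ι) (hc : ∀ p : S, ι p = pkS S k L p)
    {G : Matrix A A ℂ⟦X⟧} (h0 : G.map constantCoeff = 1) (h : ConnT S (AG S G)) :
    ∃ I, GenS S G I := by
  have : CharZero k := RingHom.charZero_iff (ckS S k k).injective |>.1 inferInstance
  let E := IntermediateField.adjoin k (Set.range fun x : A × A => ι (G x.1 x.2))
  have m : ∀ p : S, (p : ℂ⟦X⟧) ∈ AG S G := fun p => (AG S G).algebraMap_mem p
  have a1 : ∀ r ∈ Algebra.adjoin k (Set.range fun x : A × A => ι (G x.1 x.2)),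
      ∃ d : S, d ≠ 0 ∧ ∃ u ∈ AG S G, ι u = ι d * r := fun r hr => by
    induction hr using Algebra.adjoin_induction with
    | mem x hx =>
      obtain ⟨x, rfl⟩ := hx
      exact ⟨1, one_ne_zero, _, Algebra.subset_adjoin ⟨x, rfl⟩, by simp⟩
    | algebraMap r =>
      obtain ⟨a, d, hd, rfl⟩ := IsFractionRing.div_surjective (A := S) r
      refine ⟨d, nonZeroDivisors.ne_zero hd, a, m _, ?_⟩
      rw [hc, hc, pkS, RingHom.comp_apply, RingHom.comp_apply, ← map_mul,
        mul_div_cancel₀ _ (IsFractionRing.to_map_ne_zero_of_mem_nonZeroDivisors hd)]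
    | add x y _ _ hx hy =>
      obtain ⟨d, d0, u, hu, e⟩ := hx
      obtain ⟨d', d0', u', hu', e'⟩ := hy
      refine ⟨d * d', mul_ne_zero d0 d0', d' * u + d * u',
        add_mem (mul_mem (m _) hu) (mul_mem (m _) hu'), ?_⟩
      simp only [map_add, map_mul, e, e', MulMemClass.coe_mul]
      ring
    | mul x y _ _ hx hy =>
      obtain ⟨d, d0, u, hu, e⟩ := hx
      obtain ⟨d', d0', u', hu', e'⟩ := hy
      refine ⟨d * d', mul_ne_zero d0 d0', u * u', mul_mem hu hu', ?_⟩
      simp only [map_mul, e, e', MulMemClass.coe_mul]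
      ring
  have n0 : ∀ d : S, d ≠ 0 → ι d ≠ 0 := fun d d0 =>
    (map_ne_zero_iff ι hι).2 fun e => d0 (Subtype.ext e)
  have : IsDomain (E ⊗[k] E) := reg_field (L := E) (fun z hz => by
    obtain ⟨r, hr, s, hs, e⟩ := IntermediateField.mem_adjoin_iff_div.1 z.2
    by_cases s0 : s = 0
    · exact ⟨0, Subtype.ext (by rw [e, s0, div_zero, map_zero]; rfl)⟩
    obtain ⟨d, d0, u, hu, e3⟩ := a1 r hr
    obtain ⟨d', d0', u', hu', e4⟩ := a1 s hs
    obtain ⟨P, P1, hP⟩ := hz.map E.val
    obtain ⟨Q, hQ⟩ : ∃ Q, Q = IsLocalization.integerNormalization (nonZeroDivisors S) P := ⟨_, rfl⟩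
    have q0 : Q ≠ 0 := hQ ▸ mt IsFractionRing.integerNormalization_eq_zero_iff.1 P1.ne_zero
    have q1 := IsLocalization.integerNormalization_eval₂_eq_zero (nonZeroDivisors S) _ P hP
    rw [← hQ, Polynomial.eval₂_eq_sum_range] at q1
    have v0 : ι (d * u') ≠ 0 := by
      rw [map_mul, e4]
      exact mul_ne_zero (n0 d d0) (mul_ne_zero (n0 d' d0') s0)
    have e5 : ι (d' * u) = z * ι (d * u') := by
      simp only [map_mul, e, e3, e4]
      field_simp
    obtain ⟨p, hp, b, hb, b0, e6⟩ := h (d' * u) (mul_mem (m _) hu) (d * u') (mul_mem (m _) hu')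
      Q.natDegree (fun j => Q.coeff j) (fun j => (Q.coeff j).2) (fun e => v0 (by rw [e, map_zero]))
      ⟨_, le_rfl, fun e => Polynomial.leadingCoeff_ne_zero.2 q0 (Subtype.ext e)⟩ (hι (by
        rw [map_zero, ← zero_mul (ι (d * u') ^ Q.natDegree), ← q1, sum_mul, map_sum]
        refine sum_congr rfl fun j hj => ?_
        rw [map_mul, map_mul, map_pow, map_pow, e5, mul_pow, mul_assoc, mul_assoc, mul_assoc,
          ← pow_add, Nat.add_sub_cancel' (Nat.lt_succ_iff.1 (mem_range.1 hj)), hc]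
        rfl))
    refine ⟨algebraMap S _ ⟨p, hp⟩ / algebraMap S _ ⟨b, hb⟩, Subtype.ext ?_⟩
    change algebraMap k L _ = _
    rw [map_div₀]
    change pkS S k L _ / pkS S k L _ = _
    have e7 := congrArg ι e6
    rw [map_mul, map_mul ι p, e5, ← mul_assoc] at e7
    rw [← hc, ← hc, div_eq_iff ((map_ne_zero_iff ι hι).2 b0), ← mul_right_cancel₀ v0 e7, mul_comm])
    E
  let Gr : Matrix A A E := of fun i j =>
    ⟨ι (G i j), IntermediateField.subset_adjoin _ _ ⟨(i, j), rfl⟩⟩
  refine galB_abs (v := E.val) hι Subtype.val_injective hc h0 (Gr := Gr) rfl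
    (nonsing_inv_mul _ (Ne.isUnit fun e => ?_))
  have b1 := E.val.toRingHom.map_det Gr
  have b2 := (constantCoeff (R := ℂ)).map_det G
  rw [e, map_zero] at b1
  rw [hι ((ι.map_det G).trans (b1.symm.trans (map_zero ι).symm)), map_zero,
    RingHom.mapMatrix_apply, h0, det_one] at b2
  exact zero_ne_one b2

end

theorem gen_ofS {A : Type*} [Fintype A] [DecidableEq A] {S : Subalgebra ℂ ℂ⟦X⟧}
    {G : Matrix A A ℂ⟦X⟧} (h0 : G.map constantCoeff = 1) (h : ConnT S (AG S G)) :
    ∃ I, GenS S G I := by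
  have hι := IsFractionRing.injective ℂ⟦X⟧ (FractionRing ℂ⟦X⟧)
  have hg : Injective ((algebraMap ℂ⟦X⟧ (FractionRing ℂ⟦X⟧)).comp S.val.toRingHom) :=
    hι.comp Subtype.val_injective
  let := (IsFractionRing.lift (K := FractionRing S) hg).toAlgebra
  exact galB_fld (FractionRing S) _ hι (fun p => (IsFractionRing.lift_algebraMap hg p).symm) h0 h

end

end Pool.Agent.Lib.MP_5591bc_ag.C
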