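import Pool.Agent.Lib.MP_5591bc_ag.C.GalB
import Pool.Agent.Lib.MP_5591bc_ag.V.Orb

/-! The Galois group over a stable algebra. -/

namespace Pool.Agent.Lib.MP_5591bc_ag.C

open Matrix Finset Filter Topology PowerSeries G R H Function

noncomputable section

variable {A : Type*} [Fintype A] [DecidableEq A] {S : Subalgebra ℂ ℂ⟦X⟧} {T : ℂ⟦X⟧}
  {B G : Matrix A A ℂ⟦X⟧}

theorem GenS.mon {I : Ideal (MvPolynomial (A × A) ℂ)} (h : GenS S G I) (hT : constantCoeff T ≠ 0)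
    (hS : DS T S) (hB : ∀ i j, B i j ∈ S) (ode : T • G.map (d⁄dX ℂ) = B * G) (k : ℕ)
    (b : V.Mo A k → ℂ) :
    (fun μ => MvPolynomial.C (b μ)) ⬝ᵥ V.vk k (V.Xm A) ∈ I ↔ InRel S (V.vk k G) b := by
  have e2 : (piM fun _ : Fin k => exg 1 (V.Xm A)).map (V.evm C G) = piM fun _ => exg 1 G := by
    rw [piM_map, exg_map _ (map_zero _), map_one, V.Xm_map]
  have := h.rep _ _ (V.rep_exg.piM (Fin k)) T (tB (Fin k) (exg 0 B)) hT hS (fun μ μ' => by
    rw [tB, Matrix.sum_apply]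
    refine sum_mem fun l _ => ?_
    rw [piM, of_apply]
    refine prod_mem fun j _ => ?_
    by_cases e : j = l
    · rw [e, update_self]
      rcases μ l with _ | a <;> rcases μ' l with _ | c <;>
        simp only [exg, of_apply, Option.elim_some, Option.elim_none]
      exacts [zero_mem _, zero_mem _, zero_mem _, by split_ifs; exacts [hB _ _, zero_mem _]]
    · rw [update_of_ne e, one_apply]
      split_ifs
      exacts [one_mem _, zero_mem _]) (by
    rw [e2]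
    refine V.gal_piM ?_
    rw [exg_map _ (map_zero _), exg_smul, exg_mul, ode]
    simp) (tens fun _ => hatg 1) b
  rwa [e2, V.gal_tens, V.gal_tens] at this

theorem GenS.mem_iff {I : Ideal (MvPolynomial (A × A) ℂ)} (h : GenS S G I)
    {p : MvPolynomial (A × A) ℂ} : p ∈ I ↔ ∀ γ ∈ V.pts I, IsUnit γ.det →
      V.evm (RingHom.id ℂ) γ p = 0 := by
  refine ⟨fun hp γ hγ _ => hγ p hp, fun hp => (h.prime.mem_or_mem (x := (V.Xm A).det) ?_).resolve_left
    fun e => ?_⟩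
  · rw [← h.prime.radical, ← MvPolynomial.vanishingIdeal_zeroLocus_eq_radical (K := ℂ),
      MvPolynomial.mem_vanishingIdeal_iff]
    intro x hx
    change V.evm (RingHom.id ℂ) (of fun i j => x (i, j)) _ = 0
    rw [map_mul, V.gal_det]
    by_cases e : (of fun i j => x (i, j)).det = 0
    · rw [e, zero_mul]
    · rw [hp (of fun i j => x (i, j)) hx (Ne.isUnit e), mul_zero]
  · have := h.one _ e
    rw [V.gal_det, det_one] at this
    exact one_ne_zero this

theorem exists_orbS (hT : constantCoeff T ≠ 0) (hS : DS T S) (hB : ∀ i j, B i j ∈ S)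
    (h1 : G.map constantCoeff = 1) (ode : T • G.map (d⁄dX ℂ) = B * G) (hc : ConnT S (AG S G)) :
    ∃ Γ, OrbS S G Γ := by
  obtain ⟨I, h⟩ := gen_ofS h1 hc
  refine ⟨{γ | γ ∈ V.pts I ∧ IsUnit γ.det}, ⟨h.one, by simp⟩, fun γ hγ => hγ.2,
    fun γ hγ => ⟨fun p hp => ?_, isUnit_nonsing_inv_det _ hγ.2⟩, fun p q hp hq => ?_,
    fun k b => ?_, fun φ b => ?_⟩
  · obtain ⟨q, N, hq⟩ := V.gal_inv p
    have := hγ.1 q (h.swap p hp q N hq)
    rw [hq _ _ _ _ (nonsing_inv_mul _ hγ.2)] at this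
    exact (mul_eq_zero.1 this).resolve_left (pow_ne_zero _ hγ.2.ne_zero)
  · by_contra hn
    rcases h.prime.mem_or_mem ((h.mem_iff (p := p * q)).2 fun γ h2 h3 => by_contra fun e =>
      hn ⟨γ, ⟨h2, h3⟩, mul_ne_zero_iff.1 (by rwa [map_mul] at e)⟩) with e | e
    · obtain ⟨γ, h2, h3⟩ := hp
      exact h3 (h2.1 p e)
    · obtain ⟨γ, h2, h3⟩ := hq
      exact h3 (h2.1 q e)
  · have e : ∀ γ : Matrix A A ℂ, V.evm (RingHom.id ℂ) γ ((fun μ => MvPolynomial.C (b μ)) ⬝ᵥ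
        V.vk k (V.Xm A)) = b ⬝ᵥ V.vk k γ := fun γ => V.rep_eval b (RingHom.id ℂ) γ
    rw [← h.mon hT hS hB ode, h.mem_iff]
    simp only [e, Set.mem_ofPred_eq, and_imp]
  · have := h.rep _ _ V.rep_X T B hT hS hB (by rwa [V.Xm_map]) φ b
    rw [V.Xm_map] at this
    rw [← this, h.mem_iff]
    simp only [V.gal_ev, Set.mem_ofPred_eq, and_imp]
    rfl

end

end Pool.Agent.Lib.MP_5591bc_ag.C
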