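import Pool.Agent.Lib.MP_5591bc_ag.C.Brg
import Pool.Agent.Lib.MP_5591bc_ag.C.Orb
import Pool.Agent.Lib.MP_5591bc_ag.W.Spec
import Pool.Agent.Lib.MP_5591bc_ag.W.IrrC
import Pool.Agent.Lib.MP_5591bc_ag.W.SerO

/-! The coordinate ring of the Galois group. -/

namespace Pool.Agent.Lib.MP_5591bc_ag.C

open Matrix Finset Filter Topology PowerSeries G R H Function

noncomputable section

section
variable {ν : Type} [Fintype ν] [DecidableEq ν]

theorem ring_map {D : Type*} [CommRing D] (κ : ℂ →+* D) (Z : Matrix ν ν D) (δ : ℕ) :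
    (W.Adj δ (V.Xm ν))ᵀ.map (V.evm κ Z) = (W.Adj δ Z)ᵀ := by
  rw [transpose_map, W.Adj_map, V.Xm_map]

theorem ring_rep (δ : ℕ) : V.IsRep (W.Adj δ (V.Xm ν))ᵀ :=
  ⟨by rw [ring_map, W.Adj_one, transpose_one], fun _ _ _ _ _ => by
    simp only [ring_map, W.Adj_mul, transpose_mul]⟩

theorem ring_ode {τ : Polynomial ℂ →+* ℂ⟦X⟧} {t : ℂ⟦X⟧} {b : Matrix ν ν (Polynomial ℂ)}
    {G : Matrix ν ν ℂ⟦X⟧} (h : t • G.map (d⁄dX ℂ) = b.map τ * G) (h0 : G.map constantCoeff = 1)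
    (δ : ℕ) : t • (W.Adj δ G)ᵀ.map (d⁄dX ℂ) =
      (tB (Fin δ) (exg b.trace (b.trace • 1 - b))ᵀ).map τ * (W.Adj δ G)ᵀ := by
  have hG : IsUnit G.det := by
    rw [isUnit_iff_constantCoeff, RingHom.map_det, RingHom.mapMatrix_apply, h0, det_one]
    exact isUnit_one
  have e : (exg b.trace (b.trace • 1 - b)).map τ =
      exg (b.map τ).trace ((b.map τ).trace • 1 - b.map τ) := by
    have e1 : τ b.trace = (b.map τ).trace := by simp [trace]
    rw [exg_map _ (map_zero _), ← e1]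
    congr 1
    ext1 i j
    simp [one_apply, apply_ite τ]
  rw [tB_map, transpose_map (M := exg _ _), e]
  refine V.gal_piM (M := (exg G.det G.adjugate)ᵀ) ?_
  rw [← transpose_mul, ← W.sero_exg h hG]
  rfl

/-- an element of the fibre ideal comes from a linear relation between monomials -/
theorem ring_fib {Y : ℂ → Matrix ν ν ℂ} {s : ℂ} (hY : ∀ i j, AnalyticAt ℂ (Y · i j) s)
    {Q : MvPolynomial (ν × ν) ℂ} (h : W.InFib Y s Q) : ∃ (k : ℕ) (l : V.Mo ν k → Polynomial ℂ),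
      (fun μ => V.τc s (l μ)) ⬝ᵥ V.vk k (of fun i j => tay (Y · i j) s) = 0 ∧
      Q = (fun μ => MvPolynomial.C ((l μ).eval s)) ⬝ᵥ V.vk k (V.Xm ν) := by
  obtain ⟨H, h1, rfl⟩ := h
  obtain ⟨q, hq⟩ : ∃ q : MvPolynomial (ν × ν) (Polynomial ℂ), ∀ (t : ℂ) (Z : ν × ν → ℂ),
      MvPolynomial.eval₂ (Polynomial.evalRingHom t) Z q =
        MvPolynomial.aeval (fun o => Option.elim o t Z) H := by
    clear h1
    induction H using MvPolynomial.induction_on with
    | C a => exact ⟨MvPolynomial.C (Polynomial.C a), by simp⟩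
    | add p q hp hq =>
      obtain ⟨p', hp⟩ := hp
      obtain ⟨q', hq⟩ := hq
      exact ⟨p' + q', fun t Z => by rw [MvPolynomial.eval₂_add, hp, hq, map_add]⟩
    | mul_X p i hp =>
      obtain ⟨p', hp⟩ := hp
      refine ⟨p' * i.elim (MvPolynomial.C Polynomial.X) MvPolynomial.X, fun t Z => ?_⟩
      rw [MvPolynomial.eval₂_mul, hp, map_mul]
      cases i <;> simp
  obtain ⟨l, hl⟩ := V.rep (p := q) le_rfl
  have e : V.evG s (of fun i j => tay (Y · i j) s) q = 0 :=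
    (V.brg_val hY q).2.symm.trans (((tay_congr (h := fun _ => 0)
      (h1.mono fun t ht => (hq t _).trans ht)).trans (tay_const 0)).trans (map_zero _))
  refine ⟨_, l, ?_, MvPolynomial.funext fun Z => ?_⟩
  · rw [hl] at e
    exact (V.rep_eval l (V.τc s) _).symm.trans e
  · have e1 := hq s Z
    rw [hl] at e1
    refine Eq.trans ?_ ((e1.symm.trans (V.rep_eval l _ (of fun i j => Z (i, j)))).trans
      (V.rep_eval (fun μ => (l μ).eval s) (RingHom.id ℂ) (of fun i j => Z (i, j))).symm)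
    rw [← MvPolynomial.aeval_eq_eval, ← AlgHom.comp_apply, MvPolynomial.comp_aeval]
    congr 2
    ext (_ | a) <;> simp

end

theorem fib_ringR {K : Type*} {ν : Type} [Field K] [Algebra K ℂ] [Fintype ν] [DecidableEq ν]
    {T : Polynomial K} {B : Matrix ν ν (Polynomial K)} {U : Set ℂ} {P : ℂ → Matrix ν ν ℂ}
    (ho : IsOpen U) (hc : IsPreconnected U) (hP : W.Fd T B U P) {C1 : Matrix ν ν ℂ}
    (hC : ConnR U P fun t => P t * C1) {s : ℂ} (hs : s ∈ U) :
    ∃ (R : Type) (_ : CommRing R) (_ : IsDomain R) (_ : Algebra ℂ R)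
      (π : MvPolynomial (ν × ν) ℂ →ₐ[ℂ] R) (ev : R →ₐ[ℂ] ℂ),
      (∀ Q, W.InFib (fun t => P t * (P s)⁻¹) s Q → π Q = 0) ∧
      (∀ (δ : ℕ) (u : W.Mo δ ν → ℂ) (μ : W.Mo δ ν), ev (π (W.pX δ u μ)) = u μ) ∧
      ∀ (δ : ℕ) (u m : W.Mo δ ν → ℂ),
        π (W.pX δ u ⬝ᵥ fun μ => MvPolynomial.C (m μ)) = 0 → LiftR P C1 δ s u m := by
  have hol : Hol U P := hol_of_msol fun t ht => (hP t ht).2.2
  have a1 : ∀ i j, AnalyticAt ℂ (P · i j) s := fun i j => (hol i j).analyticAt (ho.mem_nhds hs)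
  have an := fun M => W.ser_ana ho hP M hs
  have od := fun M : Matrix ν ν ℂ => W.irrc_ode (T := T) (B := B) (Y := fun t => P t * M) ho hs
    fun t ht => ⟨(hP t ht).1, (hP t ht).2.2.mul_const M⟩
  obtain ⟨G, hG⟩ : ∃ G, G = of fun i j => tay (fun t => (P t * (P s)⁻¹) i j) s := ⟨_, rfl⟩
  have h0 : G.map constantCoeff = 1 := by
    ext1 i j
    rw [hG, map_apply, of_apply, constantCoeff_tay, mul_nonsing_inv _ (hP s hs).2.1.isUnit]
  have ode := od (P s)⁻¹
  rw [← hG] at ode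
  have hT : constantCoeff (V.τc s (T.map (algebraMap K ℂ))) ≠ 0 := by
    rw [V.τc_const, Polynomial.eval_map_algebraMap]
    exact (hP s hs).1
  have hS : DS (V.τc s (T.map (algebraMap K ℂ))) (SR fun a => tay (uu P C1 · a) s) :=
    DS_SR (x := s) (B := of fun a b : ν × ν =>
      if a.2 = b.2 then (B a.1 b.1).map (algebraMap K ℂ) else 0) fun a => by
        refine (congrFun₂ (od C1) a.1 a.2).trans ?_
        simp only [mul_apply, Fintype.sum_prod_type, of_apply, apply_ite (tk s), map_zero, ite_mul,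
          zero_mul, sum_ite_eq, mem_univ, if_true]
        rfl
  obtain ⟨I, h⟩ := gen_ofS h0 (connT_of ho hc hol hC hs (G := G) fun i j => by
    refine ⟨∑ k, MvPolynomial.X (i, k) * MvPolynomial.C (Polynomial.C ((P s)⁻¹ k j)), ?_⟩
    simp only [hG, mul_apply, of_apply]
    rw [tay_sum _ fun k _ => (a1 i k).fun_mul analyticAt_const, map_sum]
    refine Finset.sum_congr rfl fun k _ => ?_
    rw [tay_mul (a1 i k) analyticAt_const, tay_const]
    simp [V.evG, V.τc_C])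
  have hp := h.prime
  refine ⟨_ ⧸ I, inferInstance, inferInstance, inferInstance, Ideal.Quotient.mkₐ ℂ I,
    Ideal.Quotient.liftₐ I (MvPolynomial.aeval fun a : ν × ν => (1 : Matrix ν ν ℂ) a.1 a.2) h.one,
    fun Q hQ => Ideal.Quotient.eq_zero_iff_mem.2 ?_, fun δ u μ => ?_, fun δ u m hm => ?_⟩
  · obtain ⟨k, l, l1, rfl⟩ := ring_fib (an _) hQ
    rw [← hG] at l1
    exact (h.mon hT hS (fun i j => tk_mem_SR s _ _) ode k _).2
      ⟨_, fun μ => tk_mem_SR s _ _, fun μ => V.τc_const s _, l1⟩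
  · refine (W.spc_pX (MvPolynomial.aeval fun a : ν × ν => (1 : Matrix ν ν ℂ) a.1 a.2) δ u μ).trans ?_
    simp only [MvPolynomial.aeval_X]
    rw [show (of fun i j => (1 : Matrix ν ν ℂ) i j) = 1 from rfl, W.Adj_one, vecMul_one]
    rfl
  · obtain ⟨l, l1, l2, l3⟩ := (h.rep _ _ (ring_rep δ) _ _ hT hS (fun i j => tk_mem_SR s _ _)
      (by rw [ring_map]; exact ring_ode ode h0 δ) u m).1 (by
        rw [mulVec_transpose, dotProduct_comm]
        exact Ideal.Quotient.eq_zero_iff_mem.1 hm)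
    choose q hq using fun μ => (mem_SR s).1 (l1 μ)
    have b1 := fun μ => tay_vl (u := uu P C1) (fun a => an C1 a.1 a.2) (q μ)
    have b2 := W.ser_adj (Y := fun t => P t * (P s)⁻¹) (an _) δ
    have b3 : ∀ μ, AnalyticAt ℂ (fun t => ∑ β, u β * W.Adj δ (P t * (P s)⁻¹) β μ) s := fun μ =>
      Finset.analyticAt_fun_sum _ fun β _ => analyticAt_const.fun_mul (b2 β μ).1
    refine ⟨q, fun μ => by rw [← l2, ← hq, ← (b1 μ).2, constantCoeff_tay],
      eventually_zero_of_tay (Finset.analyticAt_fun_sum _ fun μ _ => (b1 μ).1.fun_mul (b3 μ)) ?_⟩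
    rw [ring_map, mulVec_transpose] at l3
    refine (tay_sum _ fun μ _ => (b1 μ).1.fun_mul (b3 μ)).trans (Eq.trans ?_ l3)
    refine Finset.sum_congr rfl fun μ _ => ?_
    rw [tay_mul (b1 μ).1 (b3 μ), (b1 μ).2, hq,
      tay_sum _ fun β _ => analyticAt_const.fun_mul (b2 β μ).1]
    refine congrArg _ (Finset.sum_congr rfl fun β _ => ?_)
    rw [tay_mul analyticAt_const (b2 β μ).1, tay_const, (b2 β μ).2, hG]

end

end Pool.Agent.Lib.MP_5591bc_ag.C
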