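import Pool.Agent.Lib.MP_5591bc_ag.C.MainU

/-! The case of the line is contained in the case of curves. -/

namespace Pool.Agent.Lib.MP_5591bc_ag.C

open Matrix Filter Topology G R H V W Polynomial

noncomputable section

theorem line_val {ν : Type*} [Fintype ν] (P : ℂ → Matrix ν ν ℂ) (q : MvPolynomial (ν × ν) ℂ[X])
    (t : ℂ) : val (fun t => P t * (0 : Matrix ν ν ℂ)) q t =
      (MvPolynomial.constantCoeff q).eval t := by
  simp only [val, Matrix.mul_zero, Matrix.zero_apply]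
  exact MvPolynomial.eval₂Hom_zero'_apply _ q

theorem line_conn {ν : Type*} [Fintype ν] {U : Set ℂ} (ho : IsOpen U) {P : ℂ → Matrix ν ν ℂ}
    (h : Conn U P) : ConnR U P fun t => P t * (0 : Matrix ν ν ℂ) := by
  intro u v n p hv ⟨j, hj, t, _, hp⟩ e
  simp only [line_val] at hp e ⊢
  obtain ⟨a, b, b0, hb⟩ := h u v n (fun j => MvPolynomial.constantCoeff (p j)) hv
    ⟨j, hj, fun z => hp (by rw [z, eval_zero])⟩ e
  refine ⟨MvPolynomial.C a, MvPolynomial.C b, ?_, by simpa using hb⟩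
  by_contra hc
  push Not at hc
  obtain ⟨s, hs, -⟩ := hv
  exact b0 (eq_zero_of_infinite_isRoot b ((infinite_of_mem_nhds s (ho.mem_nhds hs)).mono
    fun t ht => by simpa using hc t ht))

theorem line_good {K : Type*} [Field K] [Algebra K ℂ] {n δ : ℕ} {U : Set ℂ}
    {P : ℂ → Matrix (Fin n) (Fin n) ℂ} {s : K} (h : GoodR U P 0 1 δ s 0) : GoodM U P δ s := by
  intro F hF h0
  obtain ⟨H, h1, h2⟩ := h F hF (by simpa using h0)
  refine ⟨MvPolynomial.aeval (fun o => o.elim (MvPolynomial.X none)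
    (Sum.elim (fun _ => 0) fun a => MvPolynomial.X (some a))) H, fun U' P' hc t ht => ?_, ?_⟩
  · rw [← h1 U' P' hc t ht, ← AlgHom.comp_apply, MvPolynomial.comp_aeval]
    congr 2
    ext (_ | _ | _) <;> simp
  · rw [← h2, ← AlgHom.comp_apply, MvPolynomial.comp_aeval]
    congr 2
    ext1 (_ | _ | _) <;> simp

/-- the count on the line from the count on curves -/
theorem line_count {K : Type} [Field K] [NumberField K] [Algebra K ℂ] {n : ℕ} {T : K[X]}
    {B : Matrix (Fin n) (Fin n) K[X]} (T0 : T ≠ 0) (h : GalK T B) : ∃ C : ℕ, ∀ (δ : ℕ)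
    (U : Set ℂ) (P : ℂ → Matrix (Fin n) (Fin n) ℂ), IsOpen U → Convex ℝ U → FundK T B U P →
      Conn U P → ∀ (d : ℕ) (H : ℝ), 2 ≤ H → ∀ S : Set ℂ, S = {t ∈ U |
        (∃ q : ℤ[X], q ≠ 0 ∧ q.natDegree ≤ d ∧ (∀ i, |(q.coeff i : ℝ)| ≤ H) ∧ aeval t q = 0) ∧
        ∃ (E : IntermediateField K ℂ) (ht : t ∈ E), FiniteDimensional ℚ E ∧
          Module.finrank ℚ E ≤ d ∧ ¬ GoodM U P δ (⟨t, ht⟩ : E)} →
        S.Finite ∧ (S.ncard : ℝ) ≤ (C * (δ + 1) * d * Real.log H) ^ (C * (δ + 1) ^ n ^ 2) := by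
  obtain ⟨C, hC⟩ := countRU T0 h
  refine ⟨C, fun δ U P ho hU hP hc d H H2 S hS => ?_⟩
  obtain ⟨a, b⟩ := hC δ U P 0 1 ho hU hP (line_conn ho hc) d H H2 _ rfl
  have e := hS.le.trans fun t ⟨h1, h2, E, ht, h3, h4, h5⟩ => a.mem_toFinset.1 (a.mem_toFinset.2
    ⟨h1, h2, E, ht, 0, h3, h4, by simp, mt line_good h5⟩)
  exact ⟨a.subset e, (Nat.cast_le.2 (Set.ncard_le_ncard e a)).trans b⟩

end

end Pool.Agent.Lib.MP_5591bc_ag.C
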