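import Pool.Agent.Lib.MP_5591bc_ag.C.GapU
import Pool.Agent.Lib.MP_5591bc_ag.C.Good
import Pool.Agent.Lib.MP_5591bc_ag.W.MainU

/-! The number of exceptional points on a curve, uniformly in the degree of the relations. -/

namespace Pool.Agent.Lib.MP_5591bc_ag.C

open Matrix Filter Topology G R H V W Metric NumberField Polynomial

noncomputable section

variable {K : Type} [Field K] [NumberField K] [Algebra K ℂ] {n : ℕ} {T : K[X]}
  {B : Matrix (Fin n) (Fin n) K[X]}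

theorem count_natRU (T0 : T ≠ 0) (h : GalK T B) : ∃ C : ℕ, 0 < C ∧ ∀ (δ : ℕ)
    (U : Set ℂ) (P : ℂ → Matrix (Fin n) (Fin n) ℂ) (C1 C0 : Matrix (Fin n) (Fin n) ℂ), IsOpen U →
      Convex ℝ U → FundK T B U P → (ConnR U P fun t => P t * C1) →
      ∀ d L : ℕ, 0 < d → 0 < L → ∀ S : Finset ℂ, (∀ t ∈ S, t ∈ U ∧
        (∃ q : ℤ[X], q ≠ 0 ∧ q.natDegree ≤ d ∧ (∀ i, |(q.coeff i : ℝ)| ≤ 2 ^ L) ∧ aeval t q = 0) ∧
        ∃ (E : IntermediateField K ℂ) (ht : t ∈ E) (z : Matrix (Fin n) (Fin n) E),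
          FiniteDimensional ℚ E ∧ Module.finrank ℚ E ≤ d ∧ z.map (algebraMap E ℂ) = P t * C1 ∧
          ¬ GoodR U P C1 C0 δ (⟨t, ht⟩ : E) z) →
        S.card ≤ (C * (δ + 1) * (d * L)) ^ (C * (δ + 1) ^ n ^ 2) := by
  classical
  obtain ⟨c₀, e, hg⟩ := gapRU h
  have hZ : ∀ a : ℂ, a ∈ (T.aroots ℂ).toFinset ↔ aeval a T = 0 := fun a => by
    simp [T0]
  obtain ⟨c', c0, hc⟩ := cov_all (T.aroots ℂ).toFinset fun a ha =>
    IsAlgebraic.restrictScalars ℚ (S := K) ⟨T, T0, (hZ a).1 ha⟩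
  obtain ⟨C, Cp, he⟩ := mu_num T.natDegree c₀ c' e (n ^ 2)
  refine ⟨C, Cp, fun δ U P C1 C0 ho hU hP hC d L d0 L0 S hS => ?_⟩
  refine le_trans ?_ (he δ (d * L) (Nat.mul_pos d0 L0))
  obtain ⟨N, hN⟩ : ∃ N, N = (δ + 1) ^ n ^ 2 := ⟨_, rfl⟩
  replace hg := hg δ N (by simp [hN, sq])
  rw [← hN]
  generalize c₀ * δ = c at hg ⊢
  have x1 : d ≤ d * L := Nat.le_mul_of_pos_right _ L0
  have x2 : L ≤ d * L := Nat.le_mul_of_pos_left _ d0
  have x3 : d * L ≤ (d * L) ^ 2 := Nat.le_self_pow two_ne_zero _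
  have x4 : d * d ≤ (d * L) ^ 2 := by rw [sq]; exact Nat.mul_le_mul x1 x1
  have x5 : (L + 1) * d ≤ 2 * (d * L) ^ 2 := by rw [add_mul, mul_comm L, one_mul]; omega
  have x6 := Nat.mul_le_mul_left c x5
  have x7 := Nat.mul_le_mul_left c' (show d + L + 1 ≤ 3 * (d * L) ^ 2 by omega)
  obtain ⟨Λ, hΛ⟩ : ∃ Λ, Λ = (2 * c + 3 * c' + 8) * (d * L) ^ 2 := ⟨_, rfl⟩
  have eΛ : Λ = c * (2 * (d * L) ^ 2) + c' * (3 * (d * L) ^ 2) + 8 * (d * L) ^ 2 := by
    rw [hΛ]; ring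
  have hH := cov_hol hP
  have key := hc id d L ((Λ + N + 2) ^ (e * (N + 1))) (1 / 32)
    (S.filter fun t => t ∉ (T.aroots ℂ).toFinset) (by norm_num)
    (fun x hx => ⟨(Finset.mem_filter.1 hx).2, (hS x (Finset.mem_filter.1 hx).1).2.1⟩)
    fun s hs r r1 r2 hr S' hS' hn => ?_
  · have k1 : (S.filter fun t => t ∈ (T.aroots ℂ).toFinset).card ≤ T.natDegree :=
      (Finset.card_le_card fun t ht => (Finset.mem_filter.1 ht).2).trans
        ((Multiset.toFinset_card_le _).trans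
          ((card_roots' _).trans (natDegree_map_le (f := algebraMap K ℂ))))
    have k2 : (S.filter fun t => t ∉ (T.aroots ℂ).toFinset).card ≤
        c' * (d + L + 1) * ((Λ + N + 2) ^ (e * (N + 1)) * 515 ^ 2) := by
      rw [show (16 / (1 / 32) + 3 : ℝ) = 515 by norm_num] at key
      exact_mod_cast key
    rw [← Finset.card_filter_add_card_filter_not (fun t => t ∈ (T.aroots ℂ).toFinset)]
    rw [← hΛ]
    refine Nat.add_le_add k1 (k2.trans ?_)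
    gcongr
    omega
  simp only [id] at hr hn
  have r0 : 0 < r := lt_of_lt_of_le (by positivity) r1
  have sS := (Finset.mem_filter.1 hs).1
  have sU := (hS s sS).1
  obtain ⟨Q, hQ, eQ⟩ := cov_disc hU ho hP sU r0 fun a ha => by linarith [hr a ((hZ a).2 ha)]
  have ev : ∀ x ∈ U, x ∈ ball s r → Q =ᶠ[𝓝 x] P := fun x h1 h2 =>
    eventually_of_mem ((ho.inter isOpen_ball).mem_nhds ⟨h1, h2⟩) eQ
  have cb := (convex_ball s r).isPreconnected
  have hI := cov_connR ho hU.isPreconnected isOpen_ball cb hH (cov_hol (cov_fund hQ)) sU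
    (mem_ball_self r0) (ev s sU (mem_ball_self r0)) C1 hC
  have e2 : 2 * (r / 2) = r := by ring
  refine (Finset.card_le_card (Finset.subset_insert s S')).trans
    (hg ((L + 1) * d) d Λ s (r / 2) Q C1 C0 (by omega) (by omega) (by omega) ?_ ?_ (by rwa [e2])
      (by rwa [e2]) _ (Finset.mem_insert_self _ _) fun x hx => ?_)
  · refine le_trans ?_ (div_le_div_of_nonneg_right r1 two_pos.le)
    rw [div_eq_mul_inv, ← mul_inv, ← pow_succ]
    exact inv_anti₀ (by positivity) (pow_le_pow_right₀ one_le_two (by omega))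
  · have : (2 : ℝ) ^ L ≤ 2 ^ Λ := pow_le_pow_right₀ one_le_two (by omega)
    rw [pow_succ] at r2
    linarith
  have hx' : x ∈ S ∧ ‖x - s‖ ≤ r / 2 / 16 := by
    rcases Finset.mem_insert.1 hx with rfl | hx
    · exact ⟨sS, by rw [sub_self, norm_zero]; positivity⟩
    · exact ⟨(Finset.mem_filter.1 (hS' hx)).1, by linarith [hn x hx]⟩
  refine ⟨hx'.2, ?_⟩
  obtain ⟨xU, ⟨q, q0, -, hq, qx⟩, E, hE, z, hf, hd, hz, hb⟩ := hS x hx'.1
  have xb : x ∈ ball s r := by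
    rw [mem_ball, dist_eq_norm]
    linarith [hx'.2]
  have : NumberField E := {}
  have := mt (goodR_of (δ := δ) (x := (⟨x, hE⟩ : E)) ho hU.isPreconnected hH xU) hb
  push Not at this
  obtain ⟨F, hF, hn⟩ := this
  have qy : aeval (⟨x, hE⟩ : E) q = 0 := (algebraMap E ℂ).injective (by
    rw [map_zero, ← qx]
    exact (aeval_algHom_apply (algebraMap E ℂ).toIntAlgHom _ q).symm)
  have eq : Q (algebraMap E ℂ ⟨x, hE⟩) = P (algebraMap E ℂ ⟨x, hE⟩) := eQ x ⟨xU, xb⟩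
  refine ⟨E, inferInstance, ⟨x, hE⟩, z, F, rfl, hd, ⟨2 * 2 ^ L, ?_, Ht_of_poly q0 hq qy, ?_⟩,
    eq ▸ hz, eq ▸ hF, ?_⟩
  · linarith [one_le_pow₀ (one_le_two (α := ℝ)) (n := L)]
  · rw [← pow_succ', ← pow_mul]
    exact pow_le_pow_right₀ one_le_two (Nat.mul_le_mul_left _ hd)
  · rw [e2]
    rintro ⟨k, k1, k2⟩
    refine hn k k1 ?_
    filter_upwards [(ho.inter isOpen_ball).mem_nhds (⟨xU, xb⟩ : x ∈ U ∩ ball s r)] with t ht
    have := k2 t ht.2
    simp only [vl, show uu Q C1 t = uu P C1 t from funext fun a => by rw [uu, uu, eQ t ht],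
      eQ t ht] at this
    exact not_not.2 this

theorem countRU (T0 : T ≠ 0) (h : GalK T B) : ∃ C : ℕ, ∀ (δ : ℕ)
    (U : Set ℂ) (P : ℂ → Matrix (Fin n) (Fin n) ℂ) (C1 C0 : Matrix (Fin n) (Fin n) ℂ), IsOpen U →
      Convex ℝ U → FundK T B U P → (ConnR U P fun t => P t * C1) →
      ∀ (d : ℕ) (H : ℝ), 2 ≤ H → ∀ S : Set ℂ, S = {t ∈ U |
        (∃ q : ℤ[X], q ≠ 0 ∧ q.natDegree ≤ d ∧ (∀ i, |(q.coeff i : ℝ)| ≤ H) ∧ aeval t q = 0) ∧
        ∃ (E : IntermediateField K ℂ) (ht : t ∈ E) (z : Matrix (Fin n) (Fin n) E),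
          FiniteDimensional ℚ E ∧ Module.finrank ℚ E ≤ d ∧ z.map (algebraMap E ℂ) = P t * C1 ∧
          ¬ GoodR U P C1 C0 δ (⟨t, ht⟩ : E) z} →
        S.Finite ∧ (S.ncard : ℝ) ≤ (C * (δ + 1) * d * Real.log H) ^ (C * (δ + 1) ^ n ^ 2) := by
  obtain ⟨C, Cp, hg⟩ := count_natRU T0 h
  refine ⟨4 * C, fun δ U P C1 C0 ho hU hP hC d H H2 S hS => ?_⟩
  have l2 : Real.log 2 ≤ Real.log H := Real.log_le_log two_pos H2
  have l0 := Real.log_two_gt_d9
  rcases Nat.eq_zero_or_pos d with rfl | d0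
  · have : S = ∅ := by
      rw [hS]
      refine Set.eq_empty_of_forall_notMem fun t ⟨_, _, E, _, _, _, hd, _⟩ => ?_
      exact absurd Module.finrank_pos (not_lt.2 hd)
    rw [this, Set.ncard_empty]
    have := l0.le.trans l2
    exact ⟨Set.finite_empty, Nat.cast_zero.trans_le (pow_nonneg (by simp) _)⟩
  obtain ⟨L, L0, L1, L2⟩ : ∃ L : ℕ, 0 < L ∧ H ≤ 2 ^ L ∧ (L : ℝ) ≤ 4 * Real.log H := by
    refine ⟨⌈2 * Real.log H⌉₊, Nat.ceil_pos.2 (by linarith), ?_, ?_⟩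
    · rw [← Real.log_le_log_iff (by linarith) (by positivity), Real.log_pow]
      nlinarith [Nat.le_ceil (2 * Real.log H)]
    · linarith [Nat.ceil_lt_add_one (show 0 ≤ 2 * Real.log H by linarith)]
  have k : ∀ S' : Finset ℂ, (S' : Set ℂ) ⊆ S →
      S'.card ≤ (C * (δ + 1) * (d * L)) ^ (C * (δ + 1) ^ n ^ 2) := fun S' e =>
    hg δ U P C1 C0 ho hU hP hC d L d0 L0 S' fun t ht => by
      obtain ⟨a, ⟨q, q0, q1, q2, q3⟩, b⟩ := hS ▸ e ht
      exact ⟨a, ⟨q, q0, q1, fun i => (q2 i).trans L1, q3⟩, b⟩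
  have fin : S.Finite := by
    by_contra hi
    obtain ⟨S', a, b⟩ := Set.Infinite.exists_subset_card_eq hi (_ + 1)
    exact absurd (b ▸ k S' a) (Nat.not_succ_le_self _)
  refine ⟨fin, ?_⟩
  have k1 : S.ncard ≤ (C * (δ + 1) * (d * L)) ^ (4 * C * (δ + 1) ^ n ^ 2) := by
    rw [Set.ncard_eq_toFinset_card S fin]
    exact (k _ (by simp)).trans (Nat.pow_le_pow_right (by positivity) (by gcongr; omega))
  refine (Nat.cast_le.2 k1).trans ?_
  push_cast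
  refine pow_le_pow_left₀ (by positivity) ?_ _
  calc _ ≤ (C * (δ + 1) * (d * (4 * Real.log H)) : ℝ) := by gcongr
    _ = _ := by ring

end

end Pool.Agent.Lib.MP_5591bc_ag.C
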