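import Pool.Agent.Lib.MP_5591bc_ag.C.NDefs
import Pool.Agent.Lib.MP_5591bc_ag.C.Brg

/-! Bounded degree in algebraic functions. -/

namespace Pool.Agent.Lib.MP_5591bc_ag.C

open Matrix Finset Filter Topology PowerSeries G R V D Function
open W (GK mpK)

noncomputable section

section
variable {κ : Type*} {x : ℂ} {Ψ : κ → ℂ⟦X⟧} {e : ℕ}

theorem nAlg_C (p : Polynomial ℂ) : evS x Ψ (MvPolynomial.C p) = τc x p :=
  MvPolynomial.eval₂Hom_C _ _ p

theorem nAlg_X (a : κ) : evS x Ψ (MvPolynomial.X a) = Ψ a := MvPolynomial.eval₂Hom_X' _ _ a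

theorem nAlg_deg (p : Polynomial ℂ) {q : MvPolynomial κ (Polynomial ℂ)} (h : q.totalDegree ≤ e) :
    (MvPolynomial.C p * q).totalDegree ≤ e :=
  (MvPolynomial.totalDegree_mul _ _).trans (by rwa [MvPolynomial.totalDegree_C, zero_add])

/-- the series of degree at most `e` in `Ψ`, up to a polynomial with value one -/
def nAlg_V (x : ℂ) (Ψ : κ → ℂ⟦X⟧) (e : ℕ) : AddSubmonoid ℂ⟦X⟧ where
  carrier := {w | ∃ (c : Polynomial ℂ) (q : MvPolynomial κ (Polynomial ℂ)), c.eval x = 1 ∧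
    q.totalDegree ≤ e ∧ evS x Ψ q = τc x c * w}
  zero_mem' := ⟨1, 0, by simp, by simp, by simp⟩
  add_mem' := by
    rintro _ _ ⟨c, q, h1, h2, h3⟩ ⟨c', q', h1', h2', h3'⟩
    refine ⟨c * c', MvPolynomial.C c' * q + MvPolynomial.C c * q', by simp [h1, h1'],
      (MvPolynomial.totalDegree_add _ _).trans (max_le (nAlg_deg _ h2) (nAlg_deg _ h2')), ?_⟩
    rw [map_add, map_mul, map_mul, map_mul, nAlg_C, nAlg_C, h3, h3']
    ring

theorem nAlg_mul (p : Polynomial ℂ) {w : ℂ⟦X⟧} (h : w ∈ nAlg_V x Ψ e) :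
    τc x p * w ∈ nAlg_V x Ψ e := by
  obtain ⟨c, q, h1, h2, h3⟩ := h
  refine ⟨c, MvPolynomial.C p * q, h1, nAlg_deg _ h2, ?_⟩
  rw [map_mul, nAlg_C, h3]
  ring

theorem nAlg_div {p : Polynomial ℂ} (hp : p.eval x ≠ 0) {w : ℂ⟦X⟧}
    (h : τc x p * w ∈ nAlg_V x Ψ e) : w ∈ nAlg_V x Ψ e := by
  obtain ⟨c, q, h1, h2, h3⟩ := nAlg_mul (Polynomial.C (p.eval x)⁻¹) h
  refine ⟨c * (Polynomial.C (p.eval x)⁻¹ * p), q, by simp [h1, hp], h2, ?_⟩
  rw [h3, map_mul, map_mul]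
  ring

theorem nAlg_mono [Fintype κ] {q : κ → Polynomial (Polynomial ℂ)}
    (h0 : ∀ a, (q a).eval₂ (τc x) (Ψ a) = 0) (hl : ∀ a, (q a).leadingCoeff.eval x ≠ 0) (n : ℕ) :
    ∀ m : κ →₀ ℕ, ∑ a, m a = n →
      evS x Ψ (MvPolynomial.monomial m 1) ∈ nAlg_V x Ψ (∑ a, (q a).natDegree) := by
  classical
  induction n using Nat.strong_induction_on with
  | _ n ih =>
  intro m hm
  by_cases h : ∀ a, m a ≤ (q a).natDegree
  · refine ⟨1, _, by simp, (MvPolynomial.totalDegree_monomial_le m 1).trans ?_, by simp⟩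
    rw [Finsupp.sum_fintype _ _ fun _ => rfl]
    exact sum_le_sum fun a _ => h a
  obtain ⟨a, ha⟩ := not_forall.1 h
  obtain ⟨m', rfl⟩ : ∃ m', m = m' + Finsupp.single a (q a).natDegree :=
    ⟨_, (tsub_add_cancel_of_le (Finsupp.single_le_iff.2 (not_le.1 ha).le)).symm⟩
  have hs : ∀ j, ∑ b, (m' + Finsupp.single a j) b = ∑ b, m' b + j := fun j => by
    simp [sum_add_distrib, Finsupp.single_apply]
  have he : ∀ j, evS x Ψ (MvPolynomial.monomial (m' + Finsupp.single a j) 1) =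
      evS x Ψ (MvPolynomial.monomial m' 1) * Ψ a ^ j := fun j => by
    rw [MvPolynomial.monomial_add_single, map_mul, map_pow, nAlg_X]
  have e0 := h0 a
  rw [Polynomial.eval₂_eq_sum_range, sum_range_succ, add_comm, add_eq_zero_iff_eq_neg] at e0
  refine nAlg_div (hl a) ?_
  rw [he, mul_left_comm, Polynomial.leadingCoeff, e0, ← sum_neg_distrib, mul_sum]
  refine sum_mem fun j hj => ?_
  have := nAlg_mul (-(q a).coeff j) (ih _ (by
    rw [← hm, hs, hs]; exact Nat.add_lt_add_left (mem_range.1 hj) _) (m' + Finsupp.single a j) rfl)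
  rw [he, map_neg] at this
  convert this using 1
  ring

end

theorem exists_bnd {κ : Type*} [Fintype κ] {U : Set ℂ} (ho : IsOpen U) {u : ℂ → κ → ℂ}
    (hu : ∀ a, DifferentiableOn ℂ (u · a) U) (alg : ∀ a, ∃ q : Polynomial (Polynomial ℂ), q ≠ 0 ∧
      ∀ t ∈ U, q.eval₂ (Polynomial.evalRingHom t) (u t a) = 0) :
    ∃ (p : Polynomial ℂ) (e : ℕ), p ≠ 0 ∧ ∀ x ∈ U, p.eval x ≠ 0 →
      Bnd x (fun a => tay (u · a) x) e := by
  choose q q0 hq using alg
  refine ⟨∏ a, (q a).leadingCoeff, ∑ a, (q a).natDegree,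
    prod_ne_zero_iff.2 fun a _ => Polynomial.leadingCoeff_ne_zero.2 (q0 a), fun x hx hp w hw => ?_⟩
  rw [Polynomial.eval_prod, prod_ne_zero_iff] at hp
  have h0 : ∀ a, (q a).eval₂ (τc x) (tay (u · a) x) = 0 := fun a => by
    have e1 := (tay_vl (fun a => (hu a).analyticAt (ho.mem_nhds hx))
      ((q a).eval₂ MvPolynomial.C (MvPolynomial.X a))).2
    rw [Polynomial.hom_eval₂, nAlg_X, RingHom.ext (f := (evS x _).comp MvPolynomial.C) nAlg_C] at e1
    rw [← e1, tay_congr (h := fun _ => 0), tay_const, map_zero]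
    filter_upwards [ho.mem_nhds hx] with t ht
    rw [← hq a t ht, vl, ← MvPolynomial.coe_eval₂Hom, Polynomial.hom_eval₂,
      MvPolynomial.eval₂Hom_X']
    congr 1
    exact RingHom.ext fun p => by simp
  obtain ⟨r, rfl⟩ := (mem_SR x).1 hw
  change _ ∈ nAlg_V x (fun a => tay (u · a) x) _
  rw [r.as_sum, map_sum]
  refine sum_mem fun m _ => ?_
  rw [← mul_one (MvPolynomial.coeff m r), ← MvPolynomial.C_mul_monomial, map_mul, nAlg_C]
  exact nAlg_mul _ (nAlg_mono h0 (fun a => hp a (mem_univ a)) _ m rfl)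

end

end Pool.Agent.Lib.MP_5591bc_ag.C
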