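import Pool.Agent.Lib.MP_5591bc_ag.C.NPi
import Pool.Agent.Lib.MP_5591bc_ag.D.Bas

/-! Monomial bases on the Galois group. -/

namespace Pool.Agent.Lib.MP_5591bc_ag.C

open Matrix Finset Filter Topology PowerSeries G R V D Function
open W (GK mpK)

noncomputable section

/-- one multiplier for finitely many elements of `SR Ψ` -/
theorem nbas_vec {κ n : Type*} [Fintype n] {x : ℂ} {Ψ : κ → ℂ⟦X⟧} {e : ℕ} (hb : Bnd x Ψ e)
    {l : n → ℂ⟦X⟧} (hl : ∀ j, l j ∈ SR Ψ) : ∃ (c : Polynomial ℂ)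
      (q : n → MvPolynomial κ (Polynomial ℂ)), c.eval x = 1 ∧ (∀ j, (q j).totalDegree ≤ e) ∧
      ∀ j, evS x Ψ (q j) = τc x c * l j := by
  classical
  choose c q h1 h2 h3 using fun j => hb (l j) (hl j)
  refine ⟨∏ j, c j, fun j => MvPolynomial.C (∏ i ∈ univ.erase j, c i) * q j, ?_, fun j => ?_,
    fun j => ?_⟩
  · rw [Polynomial.eval_prod]; exact prod_eq_one fun j _ => h1 j
  · refine (MvPolynomial.totalDegree_mul _ _).trans ?_
    rw [MvPolynomial.totalDegree_C, zero_add]; exact h2 j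
  · rw [map_mul, h3, ← mul_assoc, ← prod_erase_mul _ _ (mem_univ j), map_mul]
    congr 2
    exact MvPolynomial.eval₂Hom_C _ _ _

theorem exists_basS {A κ L : Type*} [Fintype A] [DecidableEq A] [Field L] [Algebra L ℂ] {x : L}
    {G0 : Matrix A A L⟦X⟧} {Ψ0 : κ → L⟦X⟧} {e : ℕ} {Γ : Set (Matrix A A ℂ)}
    (h : OrbS (SR fun a => mpK L (Ψ0 a)) (G0.map (mpK L)) Γ)
    (hb : Bnd (algebraMap L ℂ x) (fun a => mpK L (Ψ0 a)) e) (k : ℕ) :
    ∃ M, BasS L (algebraMap L ℂ x) (fun a => mpK L (Ψ0 a)) e (G0.map (mpK L)) Γ k M := by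
  classical
  obtain ⟨b, -, -, h1, h2⟩ := exists_linearIndepOn_extension (K := ℂ)
    (v := fun (μ : Mo A k) (γ : Γ) => vk k γ.1 μ) (linearIndepOn_empty ℂ _)
    (Set.empty_subset Set.univ)
  obtain ⟨M, rfl⟩ : ∃ M : Finset (Mo A k), (M : Set _) = b := ⟨b.toFinset, Set.coe_toFinset b⟩
  have indC : ∀ c : Mo A k → ℂ, (∀ μ ∉ M, c μ = 0) → (∀ γ ∈ Γ, c ⬝ᵥ vk k γ = 0) → c = 0 := by
    intro c hc h0
    ext μ
    by_cases hμ : μ ∈ M
    · refine linearIndepOn_finset_iff.1 h2 c (funext fun γ => ?_) μ hμ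
      rw [Finset.sum_apply, Pi.zero_apply, ← h0 γ γ.2]
      exact sum_subset (subset_univ _) fun ν _ hν => by simp [hc ν hν]
    · exact hc μ hμ
  have gen : ∀ μ, ∃ c : Mo A k → ℂ, (∀ ν ∉ M, c ν = 0) ∧ ∀ γ ∈ Γ, c ⬝ᵥ vk k γ = vk k γ μ := by
    intro μ
    obtain ⟨c, hc⟩ := (Submodule.mem_span_image_finset_iff_exists_fun' ℂ).1
      (h1 ⟨μ, Set.mem_univ _, rfl⟩)
    refine ⟨fun ν => if ν ∈ M then c ν else 0, fun ν hν => if_neg hν, fun γ hγ => ?_⟩
    have := congrFun hc ⟨γ, hγ⟩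
    rw [Finset.sum_apply] at this
    simp only [dotProduct, ite_mul, zero_mul, sum_ite_mem, univ_inter]
    exact this
  refine ⟨M, ?_, ?_, indC, fun l hl h0 => ?_, ?_⟩
  · refine card_pos.2 (nonempty_iff_ne_empty.2 ?_)
    rintro rfl
    obtain ⟨c, hc, e⟩ := gen fun _ => none
    have := e 1 h.one
    simp [dotProduct, hc, vk, tens, hatg] at this
  · refine le_trans (card_le_card_of_injOn (t := (univ : Finset (A × A → Fin (k + 1))))
      (fun μ a => ⟨#{l | μ l = some a}, Nat.lt_succ_of_le ((card_le_univ _).trans (by simp))⟩)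
      (fun _ _ => mem_univ _) fun μ hμ ν hν e => h2.injOn hμ hν (funext fun γ => ?_)) (by simp)
    simp only [bas_cnt]
    exact prod_congr rfl fun a _ => congrArg _ (congrArg Fin.val (congrFun e a))
  · by_contra hn
    obtain ⟨ψ, ⟨p1, p2⟩, j, hj⟩ := basD_div (algebraMap L ℂ x)
      (fun l => (∀ μ ∉ M, l μ = 0) ∧
        (fun μ => τc (algebraMap L ℂ x) (l μ)) ⬝ᵥ vk k (G0.map (mpK L)) = 0) (fun φ hφ =>
        ⟨fun μ hμ => (mul_eq_zero.1 (hφ.1 μ hμ)).resolve_left (Polynomial.X_sub_C_ne_zero _), by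
          have e : τc (algebraMap L ℂ x) (Polynomial.X - Polynomial.C (algebraMap L ℂ x)) = X := by
            simp [τc]
          have := hφ.2
          simp only [map_mul, e, dotProduct, mul_assoc, ← mul_sum] at this
          exact (mul_eq_zero.1 this).resolve_left X_ne_zero⟩) hn ⟨hl, h0⟩
    have := indC (fun μ => (ψ μ).eval (algebraMap L ℂ x)) (fun μ hμ => by simp [p1 μ hμ])
      ((h.lift1 k _).2 ⟨_, fun μ => tk_mem_SR (algebraMap L ℂ x) _ (ψ μ),
        fun μ => τc_const _ _, p2⟩)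
    exact hj (congrFun this j)
  · obtain ⟨π, hπ⟩ := Module.Projective.exists_dual_eq_one L (one_ne_zero (α := ℂ))
    have ev : vk k (G0.map (mpK L)) = fun μ => mpK L (vk k G0 μ) :=
      funext fun μ => (map_vk _ _ _).symm
    have key : ∀ μ, ∃ l : Mo A k → MvPolynomial κ (Polynomial L), (∀ ν, (l ν).totalDegree ≤ e) ∧
        (fun ν => evK L (algebraMap L ℂ x) (fun a => mpK L (Ψ0 a)) (l ν)) ⬝ᵥ
          vk k (G0.map (mpK L)) = 0 ∧
        ∀ ν ∉ M, constantCoeff (evK L (algebraMap L ℂ x) (fun a => mpK L (Ψ0 a)) (l ν)) =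
          if μ = ν then 1 else 0 := by
      intro μ
      obtain ⟨c, hc, e⟩ := gen μ
      obtain ⟨l, l0, l1, l2⟩ := (h.lift1 k (Pi.single μ 1 - c)).1 fun γ hγ => by
        rw [sub_dotProduct, e γ hγ, single_dotProduct, one_mul, sub_self]
      obtain ⟨d, q, d1, q1, q2⟩ := nbas_vec hb l0
      obtain ⟨l', l5, l3, l4⟩ := pi_relS (x := x) (Ψ := Ψ0) (l := q)
        (y := fun _ : Unit => vk k G0) (fun _ => by
          rw [← ev]
          simp only [q2, dotProduct, mul_assoc, ← mul_sum]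
          exact mul_eq_zero_of_right _ l2) π
      refine ⟨l', fun ν => (l5 ν).trans (q1 ν), ev ▸ l4 (), fun ν hν => ?_⟩
      rw [l3, q2, map_mul, τc_const, d1, one_mul, l1, Pi.sub_apply, hc ν hν, sub_zero]
      split_ifs with c
      · rw [c, Pi.single_eq_same, hπ, map_one]
      · rw [Pi.single_eq_of_ne' c, map_zero, map_zero]
    choose l l0 l1 l2 using key
    refine ⟨1 - of l, fun μ ν => ?_, ?_, fun μ ν hν => ?_, fun γ hγ => ?_⟩
    · rw [Matrix.sub_apply, of_apply, Matrix.one_apply]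
      refine (MvPolynomial.totalDegree_sub _ _).trans (max_le ?_ (l0 μ ν))
      split_ifs <;> simp
    · rw [Matrix.map_sub _ (map_sub _), Matrix.map_one _ (map_zero _) (map_one _), sub_mulVec,
        one_mulVec, sub_eq_self]
      exact funext fun μ => l1 μ
    · rw [Matrix.sub_apply, of_apply, map_sub, map_sub, l2 μ ν hν, Matrix.one_apply]
      split_ifs <;> simp
    · rw [Matrix.map_sub _ (fun _ _ => by rw [map_sub, map_sub]),
        Matrix.map_one _ (by simp) (by simp), sub_mulVec, one_mulVec, sub_eq_self]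
      exact funext fun μ => (h.lift1 k _).2 ⟨_, fun ν => evK_mem _ _ (l μ ν), fun _ => rfl, l1 μ⟩ γ hγ

end

end Pool.Agent.Lib.MP_5591bc_ag.C
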