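import Pool.Agent.Lib.MP_5591bc_ag.C.Set
import Pool.Agent.Lib.MP_5591bc_ag.D.Defs

/-! Systems over a number field with an algebraic solution. -/

namespace Pool.Agent.Lib.MP_5591bc_ag.C

open Matrix Finset Filter Topology PowerSeries G R V D Function
open W (GK mpK)
open Metric

noncomputable section

variable {κ α : Type*}

/-- expansion at a complex point of a polynomial over `L` in `t` and in symbols for `Ψ` -/
def evK (L : Type*) [Field L] [Algebra L ℂ] (x : ℂ) (Ψ : κ → ℂ⟦X⟧) :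
    MvPolynomial κ (Polynomial L) →+* ℂ⟦X⟧ := MvPolynomial.eval₂Hom (τK x) Ψ

/-- up to a polynomial with value one, the elements of `SR Ψ` have degree at most `e` in `Ψ` -/
def Bnd (x : ℂ) (Ψ : κ → ℂ⟦X⟧) (e : ℕ) : Prop :=
  ∀ w ∈ SR Ψ, ∃ (c : Polynomial ℂ) (q : MvPolynomial κ (Polynomial ℂ)), c.eval x = 1 ∧
    q.totalDegree ≤ e ∧ evS x Ψ q = τc x c * w

variable {A : Type*} [Fintype A] [DecidableEq A]

/-- a basis `M` of the monomials of degree at most `k` on `Γ` -/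
structure BasS (L : Type*) [Field L] [Algebra L ℂ] (x : ℂ) (Ψ : κ → ℂ⟦X⟧) (e : ℕ)
    (G : Matrix A A ℂ⟦X⟧) (Γ : Set (Matrix A A ℂ)) (k : ℕ) (M : Finset (Mo A k)) : Prop where
  pos : 0 < M.card
  le : M.card ≤ (k + 1) ^ Fintype.card (A × A)
  indC : ∀ b : Mo A k → ℂ, (∀ μ ∉ M, b μ = 0) → (∀ γ ∈ Γ, b ⬝ᵥ vk k γ = 0) → b = 0
  indP : ∀ l : Mo A k → Polynomial ℂ, (∀ μ ∉ M, l μ = 0) →
    (fun μ => τc x (l μ)) ⬝ᵥ vk k G = 0 → l = 0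
  gen : ∃ W : Matrix (Mo A k) (Mo A k) (MvPolynomial κ (Polynomial L)),
    (∀ μ ν, (W μ ν).totalDegree ≤ e) ∧ W.map (evK L x Ψ) *ᵥ vk k G = vk k G ∧
    (∀ μ, ∀ ν ∉ M, constantCoeff (evK L x Ψ (W μ ν)) = 0) ∧
    ∀ γ ∈ Γ, W.map (fun p => constantCoeff (evK L x Ψ p)) *ᵥ vk k γ = vk k γ

/-- a system whose Galois group over the field of the algebraic solution `Ψ` is connected -/
structure TwoS {K : Type} [Field K] [Algebra K ℂ] [Fintype α] [Fintype κ] (T : Polynomial K)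
    (B : Matrix A A (Polynomial K)) (Ω : Set ℂ) (G : ℂ → Matrix A A ℂ⟦X⟧) (f : α → ℚ⟦X⟧)
    (F : ℂ → α → ℂ⟦X⟧) (E : A → α → K) (φ : ℂ → A → ℂ) (Bu : Matrix κ κ (Polynomial K))
    (Ψ : ℂ → κ → ℂ⟦X⟧) (E' : κ → α → K) (e : ℕ) : Prop where
  sys : SysD T B Ω G
  gf0 : ∃ a, GF a f
  lim : ∀ x ∈ Ω, LimC f x (F x)
  lin : ∀ x ∈ Ω, ∀ a, (G x *ᵥ fun a => C (φ x a)) a = ∑ b, C (algebraMap K ℂ (E a b)) * F x b
  linU : ∀ x ∈ Ω, ∀ a, Ψ x a = ∑ b, C (algebraMap K ℂ (E' a b)) * F x b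
  odeU : ∀ x ∈ Ω, τK x T • (fun a => d⁄dX ℂ (Ψ x a)) = Bu.map (τK x) *ᵥ Ψ x
  bnd : ∀ x ∈ Ω, Bnd x (Ψ x) e
  conn : ∀ x ∈ Ω, ConnT (SR (Ψ x)) (AG (SR (Ψ x)) (G x))

/-- every linear relation over `L` between the values of `Φ` comes from a functional one -/
def LGoodS (L : Type*) [Field L] [Algebra L ℂ] (x : ℂ) (Ψ : κ → ℂ⟦X⟧) (Φ : A → ℂ⟦X⟧) : Prop :=
  ∀ c : A → L, (fun a => algebraMap L ℂ (c a)) ⬝ᵥ (fun a => constantCoeff (Φ a)) = 0 →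
    ∃ h : A → MvPolynomial κ (Polynomial L),
      (∀ a, constantCoeff (evK L x Ψ (h a)) = algebraMap L ℂ (c a)) ∧
      (fun a => evK L x Ψ (h a)) ⬝ᵥ Φ = 0

/-- a centre: a solution `Z` near the origin with arithmetic expansion -/
structure Ctr {K : Type} [Field K] [Algebra K ℂ] (T : Polynomial K) (B : Matrix A A (Polynomial K))
    (U : Set ℂ) (P : ℂ → Matrix A A ℂ) (C1 C0 : Matrix A A ℂ) (ρ : ℝ) (Z : ℂ → Matrix A A ℂ)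
    (c0 : Matrix A A ℂ) (z0 : Matrix A A K) : Prop where
  pos : 0 < ρ
  hol : Hol (ball 0 ρ) Z
  gk : ∃ (Z0 : Matrix A A K⟦X⟧) (h : ℕ), GK h (fun a : A × A => Z0 a.1 a.2) ∧
    ∀ i j, tay (Z · i j) 0 = mpK K (Z0 i j)
  sol : ∀ x ∈ ball (0 : ℂ) ρ, Polynomial.aeval x T ≠ 0 → MSol (W.AzK T B) Z x
  e0 : ∀ x ∈ U ∩ ball 0 ρ, P x * C0 = Z x * c0
  e1 : ∀ x ∈ U ∩ ball 0 ρ, P x * C1 = Z x * z0.map (algebraMap K ℂ)

end

end Pool.Agent.Lib.MP_5591bc_ag.C
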