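import Pool.Agent.Lib.MP_5591bc_ag.C.NPi
import Pool.Agent.Lib.MP_5591bc_ag.C.Fib
import Pool.Agent.Lib.MP_5591bc_ag.D.Lift

/-! Lifting a relation over a subfield. -/

namespace Pool.Agent.Lib.MP_5591bc_ag.C

open Matrix Finset Filter Topology PowerSeries G R V D Function
open W (GK mpK)

noncomputable section

variable {A κ : Type*} [Fintype A] [DecidableEq A]

omit [DecidableEq A] in
theorem nl_one {R : Type*} [CommRing R] (f : ℂ →+* R) (c Φ : A → ℂ) (γ : Matrix A A R) :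
    (fun μ : Mo A 1 => f ((μ 0).elim 0 fun p => c p.1 * Φ p.2)) ⬝ᵥ vk 1 γ =
      (fun a => f (c a)) ⬝ᵥ (γ *ᵥ fun a => f (Φ a)) := by
  rw [dotProduct, ← (Equiv.funUnique (Fin 1) _).symm.sum_comp, Fintype.sum_option]
  simp [vk, tens, hatg, Fintype.sum_prod_type, dotProduct, mulVec, mul_sum, mul_comm,
    mul_left_comm]

theorem orb_commS {S : Subalgebra ℂ ℂ⟦X⟧} {G : Matrix A A ℂ⟦X⟧} {Γ : Set (Matrix A A ℂ)}
    (h : OrbS S G Γ) {N : Matrix A A ℂ} (hN : G * N.map C = N.map C * G) {γ : Matrix A A ℂ}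
    (hγ : γ ∈ Γ) : γ * N = N * γ := by
  ext i j
  have := (h.lift1 1 (((fun μ => (μ 0).elim 0 fun p => (Pi.single i 1 : A → ℂ) p.1 * N p.2 j) -
    fun μ => (μ 0).elim 0 fun p => N i p.1 * (Pi.single j 1 : A → ℂ) p.2))).2
    ⟨fun μ => C _, fun μ => S.algebraMap_mem _, fun μ => constantCoeff_C _, by
      have e := congrFun₂ hN i j
      have e1 := nl_one C (Pi.single i 1) (N · j) G
      have e2 := nl_one C (N i) (Pi.single j 1) G
      simp only [dotProduct, Pi.sub_apply, map_sub, sub_mul, sum_sub_distrib] at e1 e2 ⊢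
      rw [e1, e2]
      simpa [Pi.single_apply, apply_ite C, mulVec, dotProduct, sub_eq_zero, mul_apply] using e⟩ γ hγ
  rw [sub_dotProduct, lf_one (Pi.single i 1) (N · j), lf_one (N i) (Pi.single j 1)] at this
  simpa [Pi.single_apply, mulVec, dotProduct, sub_eq_zero, mul_apply] using this

theorem liftS {L : Type*} [Field L] [Algebra L ℂ] {x : L} {G0 : Matrix A A L⟦X⟧} {Ψ0 : κ → L⟦X⟧}
    {T : ℂ⟦X⟧} {B : Matrix A A ℂ⟦X⟧} {Γ : Set (Matrix A A ℂ)} (hT : constantCoeff T ≠ 0)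
    (hS : DS T (SR fun a => mpK L (Ψ0 a))) (hB : ∀ i j, B i j ∈ SR fun a => mpK L (Ψ0 a))
    (ode : T • (G0.map (mpK L)).map (d⁄dX ℂ) = B * G0.map (mpK L))
    (hΓ : OrbS (SR fun a => mpK L (Ψ0 a)) (G0.map (mpK L)) Γ) (Φ : A → ℂ) (c : A → L)
    (hc : ∀ γ ∈ Γ, (fun a => algebraMap L ℂ (c a)) ⬝ᵥ (γ *ᵥ Φ) = 0) :
    ∃ h : A → MvPolynomial κ (Polynomial L),
      (∀ a, constantCoeff (evK L (algebraMap L ℂ x) (fun a => mpK L (Ψ0 a)) (h a)) =
        algebraMap L ℂ (c a)) ∧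
      (fun a => evK L (algebraMap L ℂ x) (fun a => mpK L (Ψ0 a)) (h a)) ⬝ᵥ
        (G0.map (mpK L) *ᵥ fun a => C (Φ a)) = 0 := by
  classical
  have a1 : ∀ π : Module.Dual L ℂ, ∀ γ ∈ Γ, (fun a => algebraMap L ℂ (c a)) ⬝ᵥ
      (γ *ᵥ fun a => algebraMap L ℂ (π (Φ a))) = 0 := fun π γ hγ => by
    obtain ⟨l, lS, l1, l2⟩ := (hΓ.lift1 1 _).1 fun γ hγ => (lf_one _ Φ γ).trans (hc γ hγ)
    choose q hq using fun μ => (mem_SR (algebraMap L ℂ x)).1 (lS μ)
    have ev : (fun μ => mpK L (vk 1 G0 μ)) = vk 1 (G0.map (mpK L)) := funext (map_vk _ _)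
    obtain ⟨l', -, l3, l4⟩ := pi_relS (l := q) (y := fun _ : Unit => vk 1 G0)
      (fun _ => by rw [ev, funext hq]; exact l2) π
    have := (hΓ.lift1 1 _).2 ⟨_, fun μ => evK_mem _ _ (l' μ), l3, ev ▸ l4 ()⟩ γ hγ
    refine (lf_one _ _ γ).symm.trans (Eq.trans (congrArg (· ⬝ᵥ vk 1 γ) (funext fun μ => ?_)) this)
    rw [hq, l1]
    beta_reduce
    rcases μ 0 with _ | p
    · simp
    · rw [Option.elim_some, Option.elim_some, ← Algebra.smul_def (c _) (Φ _), map_smul, smul_eq_mul,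
        map_mul]
  let β := Module.Basis.ofVectorSpace L ℂ
  let s := univ.biUnion fun a => (β.repr (Φ a)).support
  obtain ⟨l, lS, l1, l2⟩ := sim_liftS hT hS hB
    (y := fun j : s => G0.map (mpK L) *ᵥ fun a => C (algebraMap L ℂ (β.coord j (Φ a))))
    (fun j => funext fun a => by
      rw [mulVec_mulVec, ← ode]
      simp [mulVec, dotProduct, mul_sum, mul_assoc, mul_comm (C _)])
    fun j => (hΓ.lift2 _ _).1 (a1 _)
  choose q hq using fun a => (mem_SR (algebraMap L ℂ x)).1 (lS a)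
  obtain ⟨π, hπ⟩ := Module.Projective.exists_dual_eq_one L (one_ne_zero (α := ℂ))
  have e : ∀ (j : s) a, mpK L ((G0 *ᵥ fun a => C (β.coord j (Φ a))) a) =
      (G0.map (mpK L) *ᵥ fun a => C (algebraMap L ℂ (β.coord j (Φ a)))) a := fun j a => by
    simp only [mulVec, dotProduct, map_sum, map_mul, map_C, map_apply]
  obtain ⟨h, -, h1, h2⟩ := pi_relS (l := q) (y := fun j : s => G0 *ᵥ fun a => C (β.coord j (Φ a)))
    (fun j => by rw [funext (e j), funext hq]; exact l2 j) π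
  refine ⟨h, fun a => by
    rw [h1, hq, l1, Algebra.algebraMap_eq_smul_one (c a), map_smul, hπ, smul_eq_mul, mul_one,
      Algebra.algebraMap_eq_smul_one], ?_⟩
  have e2 : (fun a => C (Φ a) : A → ℂ⟦X⟧) =
      ∑ j : s, (C (β j) : ℂ⟦X⟧) • fun a => C (algebraMap L ℂ (β.coord j (Φ a))) := by
    ext1 a
    simp only [Finset.sum_apply, Pi.smul_apply, smul_eq_mul, ← map_mul, ← map_sum]
    congr 1
    conv_lhs => rw [← β.linearCombination_repr (Φ a), Finsupp.linearCombination_apply,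
      Finsupp.sum_of_support_subset _ (subset_biUnion_of_mem _ (mem_univ a) : _ ⊆ s)
        (fun i a => a • β i) fun _ _ => zero_smul _ _, ← sum_coe_sort]
    exact sum_congr rfl fun j _ => by rw [Algebra.smul_def, mul_comm]; rfl
  simp only [e] at h2
  simp only [e2, mulVec_sum, mulVec_smul, dotProduct_sum, dotProduct_smul, h2, smul_zero,
    sum_const_zero]

end

end Pool.Agent.Lib.MP_5591bc_ag.C
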