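import Pool.Agent.Lib.MP_5591bc_ag.C.NDefs
import Pool.Agent.Lib.MP_5591bc_ag.C.Brg
import Pool.Agent.Lib.MP_5591bc_ag.C.Orb
import Pool.Agent.Lib.MP_5591bc_ag.D.Pi

/-! Projection of a complex relation to a subfield. -/

namespace Pool.Agent.Lib.MP_5591bc_ag.C

open Matrix Finset Filter Topology PowerSeries G R V D Function
open W (GK mpK)

noncomputable section

variable {L κ : Type*} [Field L] [Algebra L ℂ]

theorem evK_self (x : ℂ) (Ψ : κ → ℂ⟦X⟧) : evK ℂ x Ψ = evS x Ψ := by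
  exact congrArg (MvPolynomial.eval₂Hom · Ψ) (RingHom.ext (τK_self x))

theorem evK_mem (x : ℂ) (Ψ : κ → ℂ⟦X⟧) (q : MvPolynomial κ (Polynomial L)) :
    evK L x Ψ q ∈ SR Ψ := by
  exact (mem_SR x).2 ⟨MvPolynomial.map (Polynomial.mapRingHom (algebraMap L ℂ)) q,
    MvPolynomial.eval₂Hom_map_hom _ _ _ _⟩

theorem evK_mp (x : L) (Ψ : κ → L⟦X⟧) (q : MvPolynomial κ (Polynomial L)) :
    evK L (algebraMap L ℂ x) (fun a => mpK L (Ψ a)) q = mpK L (evS x Ψ q) := by
  rw [evS, MvPolynomial.map_eval₂Hom, evK]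
  exact congrArg (MvPolynomial.eval₂Hom · _ q) (RingHom.ext (τK_taylor x))

theorem npi_rep (π : Module.Dual L ℂ) (x : L) (Ψ : κ → L⟦X⟧) (q : MvPolynomial κ (Polynomial ℂ)) :
    ∃ q' : MvPolynomial κ (Polynomial L), q'.totalDegree ≤ q.totalDegree ∧
      evS x Ψ q' = repL π (evS (algebraMap L ℂ x) (fun a => mpK L (Ψ a)) q) := by
  choose r hr using repL_poly π x
  refine ⟨∑ m ∈ q.support, MvPolynomial.monomial m (r (q.coeff m)),
    MvPolynomial.totalDegree_finsetSum_le fun m hm =>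
      (MvPolynomial.totalDegree_monomial_le _ _).trans (MvPolynomial.le_totalDegree hm), ?_⟩
  conv_rhs => rw [q.as_sum]
  rw [map_sum, map_sum, map_sum]
  refine sum_congr rfl fun m _ => ?_
  simp only [evS, MvPolynomial.eval₂Hom_monomial, Finsupp.prod, ← map_pow, ← map_prod]
  rw [repL_mul, H.tk_apply, hr]
  rfl

theorem pi_relS {α J : Type*} [Fintype α] {x : L} {Ψ : κ → L⟦X⟧}
    {l : α → MvPolynomial κ (Polynomial ℂ)} {y : J → α → L⟦X⟧}
    (h : ∀ j, (fun a => evS (algebraMap L ℂ x) (fun a => mpK L (Ψ a)) (l a)) ⬝ᵥ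
      (fun a => mpK L (y j a)) = 0) (π : Module.Dual L ℂ) :
    ∃ l' : α → MvPolynomial κ (Polynomial L), (∀ a, (l' a).totalDegree ≤ (l a).totalDegree) ∧
      (∀ a, constantCoeff (evK L (algebraMap L ℂ x) (fun a => mpK L (Ψ a)) (l' a)) = algebraMap L ℂ
        (π (constantCoeff (evS (algebraMap L ℂ x) (fun a => mpK L (Ψ a)) (l a))))) ∧
      ∀ j, (fun a => evK L (algebraMap L ℂ x) (fun a => mpK L (Ψ a)) (l' a)) ⬝ᵥ
        (fun a => mpK L (y j a)) = 0 := by
  choose l' h1 h2 using fun a => npi_rep π x Ψ (l a)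
  refine ⟨l', h1, fun a => ?_, fun j => ?_⟩
  · rw [evK_mp, h2, ← coeff_zero_eq_constantCoeff_apply, coeff_map, repL_coeff,
      coeff_zero_eq_constantCoeff_apply]
  · have := congrArg (fun s => mpK L (repL π s)) (h j)
    simp only [map_zero, dotProduct, map_sum] at this
    rw [dotProduct, ← this]
    exact sum_congr rfl fun a _ => by rw [repL_mul, map_mul, evK_mp, h2]

variable {A α : Type*} [Fintype A] [DecidableEq A] [Fintype α] [Fintype κ] {K : Type} [Field K]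
  [Algebra K ℂ] {T : Polynomial K} {B : Matrix A A (Polynomial K)} {Ω : Set ℂ}
  {G : ℂ → Matrix A A ℂ⟦X⟧} {f : α → ℚ⟦X⟧} {F : ℂ → α → ℂ⟦X⟧} {E : A → α → K} {φ : ℂ → A → ℂ}
  {Bu : Matrix κ κ (Polynomial K)} {Ψ : ℂ → κ → ℂ⟦X⟧} {E' : κ → α → K} {e : ℕ}

theorem TwoS.ds (H : TwoS T B Ω G f F E φ Bu Ψ E' e) {x : ℂ} (hx : x ∈ Ω) :
    constantCoeff (τK x T) ≠ 0 ∧ DS (τK x T) (SR (Ψ x)) ∧ ∀ p : Polynomial K, τK x p ∈ SR (Ψ x) := by
  refine ⟨by rw [τK_const]; exact H.sys.ne x hx, DS_SR (x := x) (T := T.map (algebraMap K ℂ))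
    (B := Bu.map (Polynomial.map (algebraMap K ℂ))) fun a => congrFun (H.odeU x hx) a,
    fun p => tk_mem_SR x _ (p.map (algebraMap K ℂ))⟩

theorem TwoS.orb (H : TwoS T B Ω G f F E φ Bu Ψ E' e) {x : ℂ} (hx : x ∈ Ω) :
    ∃ Γ, OrbS (SR (Ψ x)) (G x) Γ := by
  obtain ⟨h1, h2, h3⟩ := H.ds hx
  exact exists_orbS h1 h2 (B := B.map (τK x)) (fun i j => h3 _) (H.sys.one x hx) (H.sys.ode x hx)
    (H.conn x hx)

/-- a solution with value in `L` at a point of `L` has its expansion over `L` -/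
theorem TwoS.rat (H : TwoS T B Ω G f F E φ Bu Ψ E' e) [Algebra K L] [IsScalarTower K L ℂ] {x : L}
    (hx : algebraMap L ℂ x ∈ Ω)
    (h : ∀ a, constantCoeff (Ψ (algebraMap L ℂ x) a) ∈ (algebraMap L ℂ).range) :
    ∃ Ψ0 : κ → L⟦X⟧, Ψ (algebraMap L ℂ x) = fun a => mpK L (Ψ0 a) := by
  have tm : ∀ (p : Polynomial K) n,
      coeff n (τK (algebraMap L ℂ x) p) ∈ (algebraMap L ℂ).fieldRange := fun p n => by
    have e : τK (algebraMap L ℂ x) p = τK (algebraMap L ℂ x) (p.map (algebraMap K L)) := by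
      simp only [τK, RingHom.comp_apply, Polynomial.coe_mapRingHom, Polynomial.map_map,
        ← IsScalarTower.algebraMap_eq]
    rw [e, τK_taylor, coeff_map]
    exact ⟨_, rfl⟩
  have key : ∀ n a, coeff n (Ψ (algebraMap L ℂ x) a) ∈ (algebraMap L ℂ).fieldRange := fun n => by
    induction n using Nat.strong_induction_on with
    | _ n ih =>
    intro a
    rcases n with _ | n
    · rw [coeff_zero_eq_constantCoeff_apply]
      exact h a
    have e := congrArg (coeff n) (congrFun (H.odeU _ hx) a)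
    rw [Pi.smul_apply, smul_eq_mul, coeff_mul,
      ← add_sum_erase _ _ (a := (0, n)) (mem_antidiagonal.2 (zero_add n)), ← eq_sub_iff_add_eq,
      coeff_derivative, coeff_zero_eq_constantCoeff_apply, mul_comm, mul_assoc,
      ← eq_div_iff (mul_ne_zero (Nat.cast_add_one_ne_zero n) (H.ds hx).1)] at e
    rw [e]
    refine div_mem (sub_mem ?_ (sum_mem fun p hp => mul_mem (tm _ _) ?_))
      (mul_mem (add_mem (natCast_mem _ _) (one_mem _)) (coeff_zero_eq_constantCoeff_apply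
        (τK (algebraMap L ℂ x) T) ▸ tm T 0))
    · rw [mulVec, dotProduct, map_sum]
      refine sum_mem fun b _ => ?_
      rw [coeff_mul]
      exact sum_mem fun p hp => mul_mem (tm _ _)
        (ih _ (by have := mem_antidiagonal.1 hp; omega) b)
    · have h1 := mem_antidiagonal.1 (mem_of_mem_erase hp)
      have h2 : p.1 ≠ 0 := fun k => ne_of_mem_erase hp (Prod.ext k (by simpa [k] using h1))
      rw [coeff_derivative]
      exact mul_mem (ih _ (by omega) a) (add_mem (natCast_mem _ _) (one_mem _))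
  choose c hc using key
  exact ⟨fun a => PowerSeries.mk fun n => c n a, funext fun a => PowerSeries.ext fun n => by
    rw [coeff_map, coeff_mk, hc]⟩

end

end Pool.Agent.Lib.MP_5591bc_ag.C
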