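import Pool.Agent.Lib.MP_5591bc_ag.C.NBas
import Pool.Agent.Lib.MP_5591bc_ag.C.NRows
import Pool.Agent.Lib.MP_5591bc_ag.D.Value

/-! The value theorem at points of bounded degree. -/

namespace Pool.Agent.Lib.MP_5591bc_ag.C

open Matrix Finset Filter Topology PowerSeries G R V D Function
open W (GK mpK)

noncomputable section

variable {A α κ : Type*} [Fintype A] [DecidableEq A] [Fintype α] [Fintype κ] {K : Type} [Field K]
  [NumberField K] [Algebra K ℂ] {T : Polynomial K} {B : Matrix A A (Polynomial K)} {Ω : Set ℂ}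
  {G : ℂ → Matrix A A ℂ⟦X⟧} {f : α → ℚ⟦X⟧} {F : ℂ → α → ℂ⟦X⟧} {E : A → α → K} {φ : ℂ → A → ℂ}
  {Bu : Matrix κ κ (Polynomial K)} {Ψ : ℂ → κ → ℂ⟦X⟧} {E' : κ → α → K} {e : ℕ}

theorem TwoS.value (H : TwoS T B Ω G f F E φ Bu Ψ E' e) (m D : ℕ) {θ : ℝ} (θ0 : 0 ≤ θ)
    (θ1 : θ < 1) :
    ∃ Λ, ∀ (L : Type) [Field L] [NumberField L] [Algebra K L] [Algebra L ℂ] [IsScalarTower K L ℂ],
      Module.finrank ℚ L ≤ D → ∀ (x : Fin m → L) (ξ : Fin m → ℂ) (w : Fin m → ℕ),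
      (∀ i, ξ i = algebraMap L ℂ (x i)) → (∀ i, ξ i ∈ Ω) →
      (∀ i a, constantCoeff (Ψ (ξ i) a) ∈ (algebraMap L ℂ).range) → (∀ i, Λ ≤ w i) →
      (∀ i j, i < j → Λ * w j ≤ w i) → (∀ i, Hq (ξ i) (w i)) → (∀ i, ξ i ≠ 0) →
      (∀ i, ‖ξ i‖ ≤ θ ^ w i) → ∀ Γ : Fin m → Set (Matrix A A ℂ),
      (∀ i, OrbS (SR (Ψ (ξ i))) (G (ξ i)) (Γ i)) → ∀ c : (Fin m → A) → L,
      (fun β => algebraMap L ℂ (c β)) ⬝ᵥ (tens fun i => φ (ξ i)) = 0 →
      ∀ γ : Fin m → Matrix A A ℂ, (∀ i, γ i ∈ Γ i) →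
        (fun β => algebraMap L ℂ (c β)) ⬝ᵥ (tens fun i => γ i *ᵥ φ (ξ i)) = 0 := by
  classical
  obtain ⟨a, hf⟩ := H.gf0
  obtain ⟨s, s0, s1, s2⟩ : ∃ s : ℝ, 1 / 2 ≤ s ∧ s < 1 ∧ θ ≤ s ^ 2 :=
    ⟨(1 + θ) / 2, by linarith, by linarith, by nlinarith [sq_nonneg (1 - θ)]⟩
  obtain ⟨n, hn⟩ := exists_pow_lt_of_lt_one
    (show (0 : ℝ) < (1 / 2) ^ ((3 * m + 1) * (D + 1)) by positivity) s1
  choose Λ hΛ using fun k => coreD (H.sys.vk k) (vk k 1) hf m (m * (e + 1)) D n.succ_pos s0 s1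
    ((pow_le_pow_of_le_one (by linarith) s1.le n.le_succ).trans hn.le)
  obtain ⟨j0, hj⟩ := hil_gap (2 * (n + 1) ^ m * D) (Fintype.card A) (Fintype.card (A × A) * m)
  refine ⟨(range j0).sup fun j => Λ (Fintype.card A * (j + 1)),
    fun L _ _ _ _ _ hL x ξ w hξ hΩ hu h1 h2 h3 h4 h5 Γ hΓ c hc => ?_⟩
  obtain ⟨e1, he⟩ := H.sys.ar D
  have hb : ∀ k i, ∃ M, BasS L (ξ i) (Ψ (ξ i)) e (G (ξ i)) (Γ i) k M := fun k i => by
    obtain ⟨G0, g1, -⟩ := he L hL (x i) (hξ i ▸ hΩ i) (w i) (hξ i ▸ h3 i)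
    obtain ⟨Ψ0, g3⟩ := H.rat (x := x i) (hξ i ▸ hΩ i) (hξ i ▸ hu i)
    have g2 := hΓ i
    have g4 := H.bnd _ (hΩ i)
    rw [hξ i, g3] at g2 g4 ⊢
    rw [g1] at g2 ⊢
    exact exists_basS g2 g4 k
  choose M hM using hb
  obtain ⟨j, j1, j2⟩ := hj (fun j => ∏ i, (M (Fintype.card A * j) i).card)
    (prod_pos fun i _ => (hM _ i).pos) fun j _ => by
      rw [pow_mul]
      exact (prod_le_pow_card _ _ _ fun i _ => (hM _ i).le).trans (by simp)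
  have j3 : Λ (Fintype.card A * (j + 1)) ≤ _ :=
    le_sup (f := fun j => Λ (Fintype.card A * (j + 1))) (mem_range.2 j1)
  have key : ∀ γ : Fin m → Matrix A A ℂ, (∀ i, γ i ∈ Γ i) →
      (fun β => algebraMap L ℂ (c β)) ⬝ᵥ (tens fun i => (γ i).adjugate *ᵥ φ (ξ i)) = 0 :=
    fun γ hγ => by
    by_contra h
    obtain ⟨r, v, I, a1, a2, a3, a4⟩ := rowsS (Nat.mul_succ _ j).ge (fun i => H.sys.one _ (hΩ i)) hΓ
      (hM _) (hM _) (F := fun i => F (ξ i)) (E := fun a b => algebraMap K L (E a b))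
      (E' := fun a b => algebraMap K L (E' a b))
      (fun i a => by
        simp only [← IsScalarTower.algebraMap_apply]
        exact H.lin _ (hΩ i) a)
      (fun i a => by
        simp only [← IsScalarTower.algebraMap_apply]
        exact H.linU _ (hΩ i) a) hc ⟨γ, hγ, h⟩
    have := hΛ _ L hL x ξ w hξ hΩ (fun i => j3.trans (h1 i))
      (fun i j h => (Nat.mul_le_mul_right _ j3).trans (h2 i j h)) h3 h4
      (fun i => (h5 i).trans (by rw [pow_mul]; exact pow_le_pow_left₀ θ0 s2 _)) _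
      (fun i => H.lim _ (hΩ i)) _ (fun i => by
        have e1 := funext (map_vk (k := Fintype.card A * (j + 1))
          ((C : ℂ →+* ℂ⟦X⟧).comp (algebraMap ℚ ℂ)) (1 : Matrix A A ℚ))
        rw [Matrix.map_one _ (map_zero _) (map_one _)] at e1
        refine Eq.trans ?_ (congrArg _ e1.symm)
        rw [piM_vk, Matrix.mul_one])
      _ (fun i => (hM _ i).pos) (fun i => (hM _ i).indP) r v I a1 a2 a3
    exact absurd (this.trans_le (Nat.mul_le_mul_left _ (Nat.sub_le_iff_le_add.2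
      (by simp only [Nat.succ_eq_add_one] at a4; omega)))) (not_lt.2 j2)
  intro γ hγ
  refine mrep (a := fun β => algebraMap L ℂ (c β))
    (S := fun i => (fun γ => adjugate γ *ᵥ φ (ξ i)) '' Γ i)
    (S' := fun i => (fun γ => γ *ᵥ φ (ξ i)) '' Γ i)
    (fun i b hb _ ⟨γ, hγ, e2⟩ => e2 ▸ by
      beta_reduce
      rw [← nonsing_inv_nonsing_inv γ ((hΓ i).unit γ hγ), Matrix.inv_def, smul_mulVec,
        dotProduct_smul, hb _ ⟨_, (hΓ i).inv γ hγ, rfl⟩, smul_zero])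
    (fun y hy => by
      choose γ h1 h2 using hy
      rw [← funext h2]
      exact key γ h1) fun i => ⟨γ i, hγ i, rfl⟩

end

end Pool.Agent.Lib.MP_5591bc_ag.C
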