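import Pool.Agent.Lib.MP_5591bc_ag.C.Defs
import Pool.Agent.Lib.MP_5591bc_ag.V.GalB
import Pool.Agent.Lib.MP_5591bc_ag.V.Defs
import Pool.Agent.Lib.MP_5591bc_ag.W.Set

/-! Systems over an algebra of series stable under the derivation. -/

namespace Pool.Agent.Lib.MP_5591bc_ag.C

open Matrix Finset Filter Topology PowerSeries G R H Function

noncomputable section

universe u

/-- stability under `T d/dX` -/
def DS {F : Type*} [Field F] (T : F⟦X⟧) (S : Subalgebra F F⟦X⟧) : Prop :=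
  ∀ p ∈ S, T * d⁄dX F p ∈ S

/-- the algebra generated by the variable and the series `Ψ` -/
def SR {F κ : Type*} [Field F] (Ψ : κ → F⟦X⟧) : Subalgebra F F⟦X⟧ :=
  Algebra.adjoin F (insert X (Set.range Ψ))

/-- expansion at `x` of a polynomial in `t` and in symbols for the series `Ψ` -/
def evS {F κ : Type*} [Field F] (x : F) (Ψ : κ → F⟦X⟧) :
    MvPolynomial κ (Polynomial F) →+* F⟦X⟧ := MvPolynomial.eval₂Hom (tk x) Ψ

/-- value at `t` of a polynomial in `t` and in symbols for the functions `u` -/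
def vl {F κ : Type*} [Field F] [Algebra F ℂ] (u : ℂ → κ → ℂ) (q : MvPolynomial κ (Polynomial F))
    (t : ℂ) : ℂ := MvPolynomial.eval₂ (Polynomial.aeval t).toRingHom (u t) q

/-- the entries of `P t * C1` -/
def uu {ν : Type*} [Fintype ν] (P : ℂ → Matrix ν ν ℂ) (C1 : Matrix ν ν ℂ) (t : ℂ) (a : ν × ν) : ℂ :=
  (P t * C1) a.1 a.2

/-- quotients of elements of `𝒜` that are algebraic over `S` are quotients of elements of `S` -/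
def ConnT (S : Subalgebra ℂ ℂ⟦X⟧) (𝒜 : Set ℂ⟦X⟧) : Prop :=
  ∀ u ∈ 𝒜, ∀ v ∈ 𝒜, ∀ (n : ℕ) (p : ℕ → ℂ⟦X⟧), (∀ j, p j ∈ S) → v ≠ 0 → (∃ j ≤ n, p j ≠ 0) →
    ∑ j ∈ range (n + 1), p j * u ^ j * v ^ (n - j) = 0 →
    ∃ a ∈ S, ∃ b ∈ S, b ≠ 0 ∧ b * u = a * v

/-- the algebra generated over `S` by the entries of `G` -/
def AG {A : Type*} (S : Subalgebra ℂ ℂ⟦X⟧) (G : Matrix A A ℂ⟦X⟧) : Subalgebra S ℂ⟦X⟧ :=
  Algebra.adjoin S (Set.range fun a : A × A => G a.1 a.2)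

/-- `b` is the value at the origin of a relation over `S` between the series `y` -/
def InRel {F n : Type*} [Field F] [Fintype n] (S : Subalgebra F F⟦X⟧) (y : n → F⟦X⟧) (b : n → F) :
    Prop := ∃ l : n → F⟦X⟧, (∀ j, l j ∈ S) ∧ (∀ j, constantCoeff (l j) = b j) ∧ l ⬝ᵥ y = 0

/-- the ideal of the Galois group of `G` over `S` -/
structure GenS {A : Type u} [Fintype A] [DecidableEq A] (S : Subalgebra ℂ ℂ⟦X⟧)
    (G : Matrix A A ℂ⟦X⟧) (I : Ideal (MvPolynomial (A × A) ℂ)) : Prop where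
  prime : I.IsPrime
  one : ∀ p ∈ I, V.evm (RingHom.id ℂ) 1 p = 0
  swap : ∀ p ∈ I, ∀ (q : MvPolynomial (A × A) ℂ) (N : ℕ), (∀ (D : Type) [CommRing D] (κ : ℂ →+* D)
    (X X' : Matrix A A D), X' * X = 1 → V.evm κ X q = X.det ^ N * V.evm κ X' p) → q ∈ I
  rep : ∀ (n : Type u) [Fintype n] [DecidableEq n] (ρ : Matrix n n (MvPolynomial (A × A) ℂ)),
    V.IsRep ρ → ∀ (T : ℂ⟦X⟧) (B : Matrix n n ℂ⟦X⟧), constantCoeff T ≠ 0 → DS T S →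
    (∀ i j, B i j ∈ S) → T • (ρ.map (V.evm C G)).map (d⁄dX ℂ) = B * ρ.map (V.evm C G) →
    ∀ y b : n → ℂ, (fun j => MvPolynomial.C (b j)) ⬝ᵥ (ρ *ᵥ fun j => MvPolynomial.C (y j)) ∈ I ↔
      InRel S (ρ.map (V.evm C G) *ᵥ fun j => C (y j)) b

/-- the properties of the Galois group `Γ` of `G` over `S` that are used -/
structure OrbS {A : Type*} [Fintype A] [DecidableEq A] (S : Subalgebra ℂ ℂ⟦X⟧)
    (G : Matrix A A ℂ⟦X⟧) (Γ : Set (Matrix A A ℂ)) : Prop where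
  one : 1 ∈ Γ
  unit : ∀ γ ∈ Γ, IsUnit γ.det
  inv : ∀ γ ∈ Γ, γ⁻¹ ∈ Γ
  irr : ∀ p q : MvPolynomial (A × A) ℂ, (∃ γ ∈ Γ, MvPolynomial.eval (ent γ) p ≠ 0) →
    (∃ γ ∈ Γ, MvPolynomial.eval (ent γ) q ≠ 0) →
    ∃ γ ∈ Γ, MvPolynomial.eval (ent γ) p ≠ 0 ∧ MvPolynomial.eval (ent γ) q ≠ 0
  lift1 : ∀ (k : ℕ) (b : V.Mo A k → ℂ), (∀ γ ∈ Γ, b ⬝ᵥ V.vk k γ = 0) ↔ InRel S (V.vk k G) b
  lift2 : ∀ φ b : A → ℂ, (∀ γ ∈ Γ, b ⬝ᵥ (γ *ᵥ φ) = 0) ↔ InRel S (G *ᵥ fun a => C (φ a)) b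

variable {K ν : Type*} [Field K] [Algebra K ℂ] [Fintype ν] [DecidableEq ν]

/-- `m` is the value at `s` of a relation over `ℂ[t, P C1]` of the horizontal covector `u` -/
def LiftR (P : ℂ → Matrix ν ν ℂ) (C1 : Matrix ν ν ℂ) (δ : ℕ) (s : ℂ) (u m : W.Mo δ ν → ℂ) : Prop :=
  ∃ q : W.Mo δ ν → MvPolynomial (ν × ν) (Polynomial ℂ), (∀ μ, vl (uu P C1) (q μ) s = m μ) ∧
    ∀ᶠ t in 𝓝 s, ∑ μ, vl (uu P C1) (q μ) t * (u ᵥ* W.Adj δ (P t * (P s)⁻¹)) μ = 0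

/-- linear form of the degree `δ` property, on `U` -/
def LGR (U : Set ℂ) (P : ℂ → Matrix ν ν ℂ) (C1 C0 : Matrix ν ν ℂ) (δ : ℕ) (x : K)
    (z : Matrix ν ν K) (F : W.Mo δ ν → K) : Prop :=
  ∃ h : W.Mo δ ν → MvPolynomial (ν × ν) (Polynomial K),
    (∀ μ, MvPolynomial.eval₂ (Polynomial.evalRingHom x) (fun a => z a.1 a.2) (h μ) = F μ) ∧
    ∀ t ∈ U, (fun μ => vl (uu P C1) (h μ) t) ⬝ᵥ W.mono δ (P t * C0) = 0

end

end Pool.Agent.Lib.MP_5591bc_ag.C
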